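import Pool.Agent.MP_1a6d78_lc.MI.MBasic

/-! PROJECT MIS: one level of the recursion makes a bounded number of calls. -/

namespace Pool.Agent.MP_1a6d78_lc.MI

open Classical ED PR SC

namespace CSX

variable {κ : List Bool → ℕ} {π : List Bool → Gp} {m : ℕ} (H : Cg κ π) (hm : 512 ≤ m)
  (hK : ∀ x, (π x).K ≤ m) {q j v p k f i b s t : EN}

/-- Numbers computed with calls. -/
abbrev NN (κ : List Bool → ℕ) (π : List Bool → Gp) (m : ℕ) (a : EN) : Prop :=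
  Nq κ (fun _ => m) (fun x => (π x).β) a

/-- Predicates computed with calls. -/
abbrev PP (κ : List Bool → ℕ) (π : List Bool → Gp) (m : ℕ) (a : List Bool → Orc → Env → Prop) :
    Prop :=
  Pq κ (fun _ => m) (fun x => (π x).β) a

include H

theorem pmk (hq : NN κ π m q) (hj : NN κ π m j) (hv : NN κ π m v) :
    PP κ π m fun x g ρ => (π x).pmk g (q x g ρ) (j x g ρ) (v x g ρ) :=
  Q.and (Q.eq (H.oC hv hj) (Q.c 0))
    (Q.lt (Q.mul (Q.mul H.qc (H.qhs hq hv)) (H.qcp 4 (H.oL hj hv))) (H.qmd hq))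

theorem ch (hv : NN κ π m v) (hp : NN κ π m p) (hk : NN κ π m k) (hf : NN κ π m f)
    (hi : NN κ π m i) (hb : NN κ π m b) : NN κ π m fun x g ρ =>
      (π x).ch g (v x g ρ) (p x g ρ) (k x g ρ) (f x g ρ) (i x g ρ) (b x g ρ) :=
  H.oA hv hp (Q.add hk (Q.c 1)) (Q.add hf (Q.c 1)) (Q.add hi (Q.mul hb (H.qslP hf)))

include hK

theorem pJ (hq : NN κ π m q) (hj : NN κ π m j) (hv : NN κ π m v) :
    PP κ π m fun x g ρ => (π x).pJ g (q x g ρ) (j x g ρ) (v x g ρ) := by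
  have h := H.oA (Q.w hv) (Q.w hq) (Q.c 0) (Q.c 0) (Q.v 0)
  exact Q.and (pmk H hq hj hv) (Q.all (P := fun x g ρ i =>
    (π x).oA g (v x g ρ) (q x g ρ) 0 0 i ≠ 1 ∧ (2 ≤ (π x).oA g (v x g ρ) (q x g ρ) 0 0 i →
      ¬(π x).pmk g (q x g ρ) (j x g ρ) ((π x).oA g (v x g ρ) (q x g ρ) 0 0 i - 2)))
    H.qK (fun x _ _ => hK x) (Q.and (Q.ne h (Q.c 1)) (Q.imp (Q.le (Q.c 2) h)
      (Q.not (pmk H (Q.w hq) (Q.w hj) (Q.sub h (Q.c 2)))))))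

theorem pL (hq : NN κ π m q) (hj : NN κ π m j) (hv : NN κ π m v) :
    NN κ π m fun x g ρ => (π x).pL g (q x g ρ) (j x g ρ) (v x g ρ) :=
  Q.ite (Q.and (Q.eq (H.oC hv hj) (Q.c 0))
    (Q.all (P := fun x g ρ i => (π x).oA g (v x g ρ) (q x g ρ) 0 0 i = 0) H.qK
      (fun x _ _ => hK x) (Q.eq (H.oA (Q.w hv) (Q.w hq) (Q.c 0) (Q.c 0) (Q.v 0)) (Q.c 0))))
    (Q.sub (H.oL hj hv) (Q.c 1)) (Q.add (H.oL hj hv) (Q.c 1))

theorem okc (hq : NN κ π m q) (hj : NN κ π m j) (hv : NN κ π m v) (hp : NN κ π m p)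
    (hk : NN κ π m k) (hf : NN κ π m f) (hi : NN κ π m i) (hb : NN κ π m b) :
    PP κ π m fun x g ρ => (π x).okc g (q x g ρ) (j x g ρ) (v x g ρ) (p x g ρ) (k x g ρ)
      (f x g ρ) (i x g ρ) (b x g ρ) := by
  have h := ch H hv hp hk hf hi hb
  exact Q.and (Q.le (Q.c 2) h)
    (H.qsmP hp hk (pL H hK hq hj (Q.sub h (Q.c 2))) (Q.sub h (Q.c 2)))

include hm

theorem pA (hq : NN κ π m q) (hj : NN κ π m j) (hv : NN κ π m v) (hp : NN κ π m p)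
    (hk : NN κ π m k) (hf : NN κ π m f) (hi : NN κ π m i) : NN κ π m fun x g ρ =>
      (π x).pA g (q x g ρ) (j x g ρ) (v x g ρ) (p x g ρ) (k x g ρ) (f x g ρ) (i x g ρ) := by
  have h : P1q κ (fun _ => m) (fun x => (π x).β) fun x g ρ => (π x).okc g (q x g ρ) (j x g ρ)
      (v x g ρ) (p x g ρ) (k x g ρ) (f x g ρ) (i x g ρ) :=
    okc H hK (Q.w hq) (Q.w hj) (Q.w hv) (Q.w hp) (Q.w hk) (Q.w hf) (Q.w hi) (Q.v 0)
  have h1 := Q.ex (P := fun x g ρ b =>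
      (π x).ch g (v x g ρ) (p x g ρ) (k x g ρ) (f x g ρ) (i x g ρ) b = 1) (Q.c 512)
      (fun _ _ _ => hm)
      (Q.eq (ch H (Q.w hv) (Q.w hp) (Q.w hk) (Q.w hf) (Q.w hi) (Q.v 0)) (Q.c 1))
  have h2 := Q.ex (P := fun x g ρ b' => hd (ρ 0) ≠ b' ∧
      (π x).okc g (q x g (tl ρ)) (j x g (tl ρ)) (v x g (tl ρ)) (p x g (tl ρ)) (k x g (tl ρ))
        (f x g (tl ρ)) (i x g (tl ρ)) (hd (ρ 0)) ∧
      (π x).okc g (q x g (tl ρ)) (j x g (tl ρ)) (v x g (tl ρ)) (p x g (tl ρ)) (k x g (tl ρ))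
        (f x g (tl ρ)) (i x g (tl ρ)) b') (Q.c 512) (fun _ _ _ => hm)
    (Q.and (Q.ne (Q.v 1) (Q.v 0)) (Q.and (Q.wP h) (Q.wP1 h)))
  have h3 := Q.ex (P := fun x g ρ b => ∃ b' < 512, b ≠ b' ∧
      (π x).okc g (q x g ρ) (j x g ρ) (v x g ρ) (p x g ρ) (k x g ρ) (f x g ρ) (i x g ρ) b ∧
      (π x).okc g (q x g ρ) (j x g ρ) (v x g ρ) (p x g ρ) (k x g ρ) (f x g ρ) (i x g ρ) b')
      (Q.c 512) (fun _ _ _ => hm) h2
  have h4 := Q.ex (Q.c 512) (fun _ _ _ => hm) h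
  have h5 := ch H hv hp hk hf hi (Q.lst (Q.c 512) (fun _ _ _ => hm) h)
  refine Q.cg (Q.ite (i := fun _ _ _ => propDecidable _) (Q.or h1 h3) (Q.c 1)
    (Q.ite (i := fun _ _ _ => propDecidable _) h4 h5 (Q.c 0))) fun x g ρ => ?_
  unfold Gp.pA
  congr

theorem pG (hq : NN κ π m q) (hj : NN κ π m j) (hv : NN κ π m v) (hs : NN κ π m s)
    (hf : NN κ π m f) (hi : NN κ π m i) : PP κ π m fun x g ρ =>
      (π x).pG g (q x g ρ) (j x g ρ) (v x g ρ) (s x g ρ) (f x g ρ) (i x g ρ) := by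
  have h := H.oA hv hq (Q.c 0) hf hi
  exact Q.or (Q.and (Q.eq hs hj) (Q.or (pJ H hK hq hj hv) (Q.or (Q.eq h (Q.c 1))
      (Q.and (Q.le (Q.c 2) h) (pJ H hK hq hj (Q.sub h (Q.c 2)))))))
    (Q.and (Q.ne hs hj) (Q.ex (P := fun x g ρ b => (π x).oG g (v x g ρ) (s x g ρ) (f x g ρ + 1)
      (i x g ρ + b * (π x).slP (f x g ρ)) ≠ 0) (Q.c 512) (fun _ _ _ => hm)
      (Q.ne (H.oG (Q.w hv) (Q.w hs) (Q.add (Q.w hf) (Q.c 1))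
        (Q.add (Q.w hi) (Q.mul (Q.v 0) (H.qslP (Q.w hf))))) (Q.c 0))))

theorem pC (hq : NN κ π m q) (hj : NN κ π m j) (hv : NN κ π m v) (ht : NN κ π m t) :
    PP κ π m fun x g ρ => (π x).pC g (q x g ρ) (j x g ρ) (v x g ρ) (t x g ρ) := by
  have h : NN κ π m fun x g ρ => 2 * j x g (tl ρ) + 1 + hd (ρ 0) :=
    Q.add (Q.add (Q.mul (Q.c 2) (Q.w hj)) (Q.c 1)) (Q.v 0)
  have h' := Q.sub h (Q.w ht)
  exact Q.or (Q.ne (H.oC hv ht) (Q.c 0)) (Q.ex (P := fun x g ρ d =>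
    t x g ρ ≤ 2 * j x g ρ + 1 + d ∧ 2 * j x g ρ + 1 + d - t x g ρ ≤ j x g ρ ∧ ∃ i < (π x).K,
      (π x).pG g (q x g ρ) (j x g ρ) (v x g ρ) (2 * j x g ρ + 1 + d - t x g ρ) 0 i) (Q.c 2)
    (fun _ _ _ => le_trans (by norm_num) hm)
    (Q.and (Q.le (Q.w ht) h) (Q.and (Q.le h' (Q.w hj))
      (Q.ex (P := fun x g ρ i => (π x).pG g (q x g (tl ρ)) (j x g (tl ρ)) (v x g (tl ρ))
        (2 * j x g (tl ρ) + 1 + hd (ρ 0) - t x g (tl ρ)) 0 i) H.qK (fun x _ _ => hK x)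
        (pG H hm hK (Q.w (Q.w hq)) (Q.w (Q.w hj)) (Q.w (Q.w hv)) (Q.w h') (Q.c 0) (Q.v 0))))))

end CSX

open CSX in
theorem csS : CsS := by
  intro κ π m H hm hK
  have q : NN κ π m fun _ _ ρ => hd (ρ 0) := Q.v 0
  have j : NN κ π m fun _ _ ρ => hd (ρ 1) := Q.v 1
  have l : ∀ e : ℕ, NN κ π m fun _ _ ρ => gt (ρ 2) e := fun e => Q.gt (Q.vL 2) (Q.c e)
  exact Q.ite (Q.eq (l 0) (Q.c 0)) (Q.ite (Q.eq (l 1) j) q (H.oS (l 1)))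
    (Q.ite (Q.eq (l 0) (Q.c 1))
      (Q.ite (Q.eq (l 1) (Q.add j (Q.c 1))) (pL H hK q j (l 2)) (H.oL (l 1) (l 2)))
    (Q.ite (Q.eq (l 0) (Q.c 2))
      (Q.ite (Q.eq (l 1) j) (Q.ite (pJ H hK q j (l 2)) (Q.c 1) (Q.c 0)) (H.oJ (l 1) (l 2)))
    (Q.ite (Q.eq (l 0) (Q.c 3)) (pA H hm hK q j (l 1) (l 2) (l 3) (l 4) (l 5))
    (Q.ite (Q.eq (l 0) (Q.c 4))
      (Q.ite (pG H hm hK q j (l 1) (l 2) (l 3) (l 4)) (Q.c 1) (Q.c 0))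
      (Q.ite (pC H hm hK q j (l 1) (l 2)) (Q.c 1) (Q.c 0))))))

end Pool.Agent.MP_1a6d78_lc.MI
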