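import Pool.Agent.MP_1a6d78_lc.MI.MBasic

/-! PROJECT MIS: the potential and the answer are read with polynomially many calls. -/

namespace Pool.Agent.MP_1a6d78_lc.MI

open Classical ED PR SC

namespace CTX

variable {κ : List Bool → ℕ} {π : List Bool → Gp}

/-- Numbers computed with calls, all bounds `β`. -/
abbrev NN (κ : List Bool → ℕ) (π : List Bool → Gp) (f : EN) : Prop :=
  Nq κ (fun x => (π x).β) (fun x => (π x).β) f

/-- Predicates computed with calls, all bounds `β`. -/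
abbrev PP (κ : List Bool → ℕ) (π : List Bool → Gp) (P : List Bool → Orc → Env → Prop) : Prop :=
  Pq κ (fun x => (π x).β) (fun x => (π x).β) P

variable (H : Cg κ π) (hn : ∀ x, (π x).n ≤ (π x).β) (hT : ∀ x, (π x).T + 1 ≤ (π x).β)
  {a b c d e : EN}

include hT in
theorem minT (x : List Bool) (t : ℕ) : min t (π x).T ≤ (π x).β :=
  (min_le_right _ _).trans ((Nat.le_succ _).trans (hT x))

include H in
theorem tN (ha : NN κ π a) (hb : NN κ π b) (hc : NN κ π c) (hd' : NN κ π d) (he : NN κ π e) :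
    PP κ π fun x g ρ => (π x).tN g (a x g ρ) (b x g ρ) (c x g ρ) (d x g ρ) (e x g ρ) :=
  Q.and (H.qA hd' he) (H.qsmP ha hb (H.oL hc he) he)

include H hn hT in
theorem tO (ha : NN κ π a) (hb : NN κ π b) (hc : NN κ π c) :
    PP κ π fun x g ρ => (π x).tO g (a x g ρ) (b x g ρ) (c x g ρ) := by
  have a3 := Q.w (Q.w (Q.w ha))
  have b3 := Q.w (Q.w (Q.w hb))
  have c3 := Q.w (Q.w (Q.w hc))
  have s3 := H.oS a3
  have k3 := Q.sub a3 (Q.v 2)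
  have l3 := H.qslP (Q.add b3 k3)
  exact Q.ex (P := fun x g ρ r => ∃ u < (π x).n, ∃ w < (π x).n, u ≠ w ∧
      (π x).tN g ((π x).oS g (a x g ρ)) (a x g ρ - r) r (c x g ρ) u ∧
      (π x).tN g ((π x).oS g (a x g ρ)) (a x g ρ - r) r (c x g ρ) w ∧
      (π x).hs ((π x).oS g (a x g ρ)) u % (π x).slP (b x g ρ + (a x g ρ - r)) =
        (π x).hs ((π x).oS g (a x g ρ)) w % (π x).slP (b x g ρ + (a x g ρ - r)))
    (Q.min (Q.add ha (Q.c 1)) H.qT) (fun x _ _ => minT hT x _)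
    (Q.ex (P := fun x g ρ u => ∃ w < (π x).n, u ≠ w ∧
      (π x).tN g ((π x).oS g (a x g (tl ρ))) (a x g (tl ρ) - hd (ρ 0)) (hd (ρ 0))
        (c x g (tl ρ)) u ∧
      (π x).tN g ((π x).oS g (a x g (tl ρ))) (a x g (tl ρ) - hd (ρ 0)) (hd (ρ 0))
        (c x g (tl ρ)) w ∧
      (π x).hs ((π x).oS g (a x g (tl ρ))) u %
          (π x).slP (b x g (tl ρ) + (a x g (tl ρ) - hd (ρ 0))) =
        (π x).hs ((π x).oS g (a x g (tl ρ))) w %
          (π x).slP (b x g (tl ρ) + (a x g (tl ρ) - hd (ρ 0))))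
      H.qn (fun x _ _ => hn x)
      (Q.ex (P := fun x g ρ w => hd (ρ 0) ≠ w ∧
        (π x).tN g ((π x).oS g (a x g (tl (tl ρ)))) (a x g (tl (tl ρ)) - hd (ρ 1)) (hd (ρ 1))
          (c x g (tl (tl ρ))) (hd (ρ 0)) ∧
        (π x).tN g ((π x).oS g (a x g (tl (tl ρ)))) (a x g (tl (tl ρ)) - hd (ρ 1)) (hd (ρ 1))
          (c x g (tl (tl ρ))) w ∧
        (π x).hs ((π x).oS g (a x g (tl (tl ρ)))) (hd (ρ 0)) %
            (π x).slP (b x g (tl (tl ρ)) + (a x g (tl (tl ρ)) - hd (ρ 1))) =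
          (π x).hs ((π x).oS g (a x g (tl (tl ρ)))) w %
            (π x).slP (b x g (tl (tl ρ)) + (a x g (tl (tl ρ)) - hd (ρ 1))))
        H.qn (fun x _ _ => hn x)
        (Q.and (Q.ne (Q.v 1) (Q.v 0)) (Q.and (tN H s3 k3 (Q.v 2) c3 (Q.v 1))
          (Q.and (tN H s3 k3 (Q.v 2) c3 (Q.v 0))
            (Q.eq (Q.mod (H.qhs s3 (Q.v 1)) l3) (Q.mod (H.qhs s3 (Q.v 0)) l3)))))))

include H hn in
theorem tm (ha : NN κ π a) (hb : NN κ π b) :
    NN κ π fun x g ρ => (π x).tm g (a x g ρ) (b x g ρ) :=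
  Q.sum (fun x g ρ u => if (π x).A (b x g ρ) u then
      (π x).cp 4 ((π x).T - (π x).oL g (a x g ρ) u) else 0) H.qn (fun x _ _ => hn x)
    (Q.ite (H.qA (Q.w hb) (Q.v 0)) (H.qcp 4 (Q.sub H.qT (H.oL (Q.w ha) (Q.v 0)))) (Q.c 0))

include H hn hT in
theorem tZ (ha : NN κ π a) (hb : NN κ π b) :
    NN κ π fun x g ρ => (π x).tZ g (a x g ρ) (b x g ρ) :=
  Q.lst (P := fun x g ρ z => 512 * (π x).tm g (a x g ρ) (b x g ρ) <
      (π x).cp 2 z * (π x).cp 4 (π x).T ∧ ∀ s < min (a x g ρ) (π x).T, ∀ e < (π x).T + 1,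
        (π x).tO g s e (b x g ρ) → 2 * e + 3 + s ≤ z + a x g ρ) H.qβ (fun _ _ _ => le_rfl)
    (Q.and (Q.lt (Q.mul (Q.c 512) (tm H hn (Q.w ha) (Q.w hb)))
        (Q.mul (H.qcp 2 (Q.v 0)) (H.qcp 4 H.qT)))
      (Q.all (P := fun x g ρ s => ∀ e < (π x).T + 1,
          (π x).tO g s e (b x g (tl ρ)) → 2 * e + 3 + s ≤ hd (ρ 0) + a x g (tl ρ))
        (Q.min (Q.w ha) H.qT) (fun x _ _ => minT hT x _)
        (Q.all (P := fun x g ρ e => (π x).tO g (hd (ρ 0)) e (b x g (tl (tl ρ))) →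
            2 * e + 3 + hd (ρ 0) ≤ hd (ρ 1) + a x g (tl (tl ρ)))
          (Q.add H.qT (Q.c 1)) (fun x _ _ => hT x)
          (Q.imp (tO H hn hT (Q.v 1) (Q.v 0) (Q.w (Q.w (Q.w hb))))
            (Q.le (Q.add (Q.add (Q.mul (Q.c 2) (Q.v 0)) (Q.c 3)) (Q.v 1))
              (Q.add (Q.v 2) (Q.w (Q.w (Q.w ha)))))))))

include H hn hT in
theorem tA (ha : NN κ π a) (hb : NN κ π b) :
    PP κ π fun x g ρ => (π x).tA g (a x g ρ) (b x g ρ) :=
  Q.all (P := fun x g ρ s => (π x).oJ g s (b x g ρ) = 0 ∧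
      ∀ u < (π x).n, (π x).A (b x g ρ) u → (π x).oJ g s u = 0)
    (Q.min ha H.qT) (fun x _ _ => minT hT x _)
    (Q.and (Q.eq (H.oJ (Q.v 0) (Q.w hb)) (Q.c 0))
      (Q.all (P := fun x g ρ u => (π x).A (b x g (tl ρ)) u → (π x).oJ g (hd (ρ 0)) u = 0)
        H.qn (fun x _ _ => hn x)
        (Q.imp (H.qA (Q.w (Q.w hb)) (Q.v 0)) (Q.eq (H.oJ (Q.v 1) (Q.v 0)) (Q.c 0)))))

include H hn hT in
theorem tPhi (ha : NN κ π a) : NN κ π fun x g ρ => (π x).tPhi (a x g ρ) g :=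
  Q.sum (fun x g ρ v => if (π x).tA g (a x g ρ) v then
      it (π x).β (fun y => y + y / (π x).Q)
        ((π x).oL g (a x g ρ) v + 2 * (π x).tZ g (a x g ρ) v) (2 * (π x).Q) else 0)
    H.qn (fun x _ _ => hn x)
    (Q.ite (tA H hn hT (Q.w ha) (Q.v 0))
      (H.qwt (Q.add (H.oL (Q.w ha) (Q.v 0)) (Q.mul (Q.c 2) (tZ H hn hT (Q.w ha) (Q.v 0)))))
      (Q.c 0))

include H hT in
theorem tAns (ha : NN κ π a) (hb : NN κ π b) :
    NN κ π fun x g ρ => (π x).tAns (a x g ρ) (b x g ρ) g :=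
  Q.ite (Q.ex (P := fun x g ρ s => (π x).oJ g s (a x g ρ) ≠ 0) (Q.min hb H.qT)
    (fun x _ _ => minT hT x _) (Q.ne (H.oJ (Q.v 0) (Q.w ha)) (Q.c 0))) (Q.c 1) (Q.c 0)

end CTX

theorem ctS : CtS := fun _ _ H hn hT =>
  ⟨CTX.tPhi H hn hT (Q.v 0),
    CTX.tAns H hT (Q.lift (AlgD.numC (kitOne _) (kitTwo _) (K.c 1))) (Q.v 0)⟩

end Pool.Agent.MP_1a6d78_lc.MI
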