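import Pool.Agent.MP_1a6d78_lc.MI.Basic

/-! PROJECT MIS, row CALM: a vertex that is not golden loses energy with probability `63 / 64`. -/

namespace Pool.Agent.MP_1a6d78_lc.MI

open Gp

namespace CalmX

theorem shrink (h1 : ShrS) {M : Gp} {S : St} {j : ℕ} {Ω : Finset ℕ} {P : ℕ} (H : Hy M S j Ω P)
    {v : ℕ} (hv : v < M.n) (hg : ¬M.gold S j v) :
    pr Ω (fun q => ¬512 * M.mr (M.nx S j q) (j + 1) v < 2 ^ (M.Z S j v - 1)) ≤ 30 / 4096 := by
  have hz := (Z_ok (M := M) (S := S) j v).1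
  have h2 : (1 : ℝ) ≤ 2 ^ (M.Z S j v - 1) := one_le_pow₀ (by norm_num)
  have h3 : (2 : ℝ) ^ M.Z S j v ≤ 2 * 2 ^ (M.Z S j v - 1) := by
    rw [← pow_succ']
    exact pow_le_pow_right₀ (by norm_num) (by omega)
  by_cases hm : 1 / 4 ≤ 512 * M.mr S j v
  · have h4 : M.hm S j v < M.mr S j v / 32 := not_le.1 fun k => hg (Or.inl ⟨hm, k⟩)
    refine (pr_mono fun q _ k => ?_).trans (h1 M S j Ω P H v hv h4)
    by_contra k'
    exact k (by linarith [not_lt.1 k'])
  · rw [pr_false fun q _ k => k (by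
      linarith [not_le.1 hm, mr_nx (M := M) (S := S) (j := j) (q := q) v])]
    norm_num

end CalmX

theorem calmS (h1 : ShrS) (h2 : JoinS) : CalmS := by
  intro M S j Ω P H v hv ha hg
  have hs := CalmX.shrink h1 H hv hg
  rcases Nat.eq_zero_or_pos (M.Z S j v) with hz | hz
  · have hL : S.L j v ≠ 0 := fun k => hg (Or.inr ⟨hz, k⟩)
    have hact := act_of H.hj.le ha hz
    have hw := (h2 M S j Ω P H).warn v hv
    have hm := (Z_ok (M := M) (S := S) j v).1
    have h0 := mr_nonneg (M := M) (S := S) j v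
    rw [hz, pow_zero] at hm
    rw [H.ok.K] at hw
    refine (pr_mono (F := fun q => ¬512 * M.mr (M.nx S j q) (j + 1) v < 2 ^ (M.Z S j v - 1) ∨
      M.warn S j q v) fun q _ k => ?_).trans ((pr_or _ _).trans ?_)
    · by_contra k'
      rw [not_or, not_not] at k'
      refine k ⟨_, k'.1, by omega, ?_⟩
      rw [nL, if_pos ⟨hact, k'.2⟩, E]
      omega
    · have h5 : M.mr S j v ^ 2 ≤ 1 := by nlinarith
      push_cast at hw
      linarith
  · refine (pr_mono fun q _ k k' => k ⟨_, k', by omega, ?_⟩).trans (hs.trans (by norm_num))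
    have := nL_le (M := M) (S := S) j q v
    rw [E]
    omega

end Pool.Agent.MP_1a6d78_lc.MI
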