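import Pool.Agent.MP_1a6d78_lc.MI.Basic

/-! MIS in SC, row CNT: the residue class of an initial segment. -/

namespace Pool.Agent.MP_1a6d78_lc.MI

open Finset

namespace CntX

theorem key {P m l k : ℕ} (a : ℕ) {y : ℝ} (hm : 0 < m) (h : m ≤ y * P)
    (hy : (4 : ℝ) ^ k / 4 ^ l ≤ y) :
    pr (range P) (fun b => b * 4 ^ l < 4 ^ k * P ∧ a % m = b % m) ≤ 2 * y / m := by
  have m0 : (0 : ℝ) < m := Nat.cast_pos.2 hm
  have p0 : (0 : ℝ) < P := (Nat.cast_nonneg P).lt_of_ne fun e => by
    rw [← e, mul_zero] at h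
    linarith
  have h1 : 1 ≤ y * P / m := (one_le_div m0).2 h
  rw [pr_card, card_range, div_le_iff₀ p0]
  refine (Nat.cast_le.2 (card_le_card_of_injOn (t := range (⌊y * P / m⌋₊ + 1)) (· / m)
    (fun b hb => ?_) fun b hb c hc e => ?_)).trans ?_
  · simp only [mem_coe, mem_filter] at hb
    have e : (b : ℝ) * 4 ^ l < 4 ^ k * P := by exact_mod_cast hb.2.1
    rw [← lt_div_iff₀ (by positivity), mul_div_right_comm] at e
    exact mem_range_succ_iff.2 (Nat.le_floor (Nat.cast_div_le.trans (div_le_div_of_nonneg_right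
      (e.le.trans (mul_le_mul_of_nonneg_right hy p0.le)) m0.le)))
  · simp only [mem_coe, mem_filter] at hb hc
    rw [← Nat.div_add_mod b m, ← Nat.div_add_mod c m, ← hb.2.2, ← hc.2.2,
      show b / m = c / m from e]
  · rw [card_range, Nat.cast_succ, show 2 * y / m * P = y * P / m + y * P / m by ring]
    exact add_le_add (Nat.floor_le (by linarith)) h1

end CntX

theorem cntS : CntS := by
  intro P m a l k y hm h hy
  have y0 : 0 ≤ y := le_trans (by positivity) hy
  refine ⟨?_, (CntX.key a hm h hy).trans (by gcongr; norm_num)⟩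
  simpa [Nat.mod_one] using CntX.key (m := 1) 0 one_pos ((Nat.cast_le.2 hm).trans h) hy

end Pool.Agent.MP_1a6d78_lc.MI
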