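import Pool.Agent.MP_1a6d78_lc.MI.Basic

/-! PROJECT MIS: the code of a graph. -/

namespace Pool.Agent.MP_1a6d78_lc.MI

open Classical ED PR SC

namespace CodeX

theorem flat_len {n : ℕ} : ∀ {m : ℕ} (f : Fin m → Fin n → Bool),
    (List.ofFn fun a => List.ofFn (f a)).flatten.length = m * n
  | 0, _ => by simp
  | m + 1, f => by
    rw [List.ofFn_succ, List.flatten_cons, List.length_append, flat_len fun a => f a.succ,
      List.length_ofFn]
    ring

theorem flat_get {n : ℕ} : ∀ {m : ℕ} (f : Fin m → Fin n → Bool) (u : Fin m) (w : Fin n),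
    (List.ofFn fun a => List.ofFn (f a)).flatten[u * n + w]? = some (f u w)
  | 0, _, u, _ => u.elim0
  | m + 1, f, u, w => by
    rw [List.ofFn_succ, List.flatten_cons]
    refine Fin.cases ?_ (fun u => ?_) u
    · rw [List.getElem?_append_left (by simp)]
      simp
    · rw [List.getElem?_append_right (by simp; nlinarith), ← flat_get (fun a => f a.succ) u w]
      congr 1
      rw [List.length_ofFn, Fin.val_succ, add_mul]
      omega

theorem un_eq (a b c : ℕ) (y : List Bool) : unary [a, b, c] ++ y =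
    List.replicate a true ++ false :: (List.replicate b true ++ false ::
      (List.replicate c true ++ false :: y)) := by
  simp [unary]

theorem un_len (a b c : ℕ) : (unary [a, b, c]).length = a + b + c + 3 := by
  simp [unary]
  omega

variable {n : ℕ} (G : SimpleGraph (Fin n)) (v : Fin n)

theorem pre_len : (unary [n, v, n - v]).length = 2 * n + 3 := by
  rw [un_len]
  omega

theorem n0 : num (code G v) 0 = n := by rw [code, un_eq, Code.num_rep_zero]

theorem n1 : num (code G v) 1 = v := by rw [code, un_eq, Code.num_rep_succ, Code.num_rep_zero]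

theorem bit_iff (u w : Fin n) : bit (code G v) (2 * n + 3 + (u * n + w)) = 1 ↔ G.Adj u w := by
  rw [bit, code, List.getElem?_append_right (by rw [pre_len]; omega), pre_len,
    Nat.add_sub_cancel_left, flat_get (fun a b => decide (G.Adj a b)) u w]
  simp

end CodeX

theorem codeS : CodeS := by
  refine ⟨fun κ a b ha hb => ?_, fun n G v => ⟨CodeX.n0 G v, CodeX.n1 G v, ?_, fun u w => ?_⟩⟩
  · have hn : Cn κ fun x _ => num x 0 := AlgD.numK (kitOne κ) (kitTwo κ) 0
    have h : ∀ {a b : EC}, Cn κ a → Cn κ b → PR.Cp κ fun x ρ =>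
        bit x (2 * num x 0 + 3 + (a x ρ * num x 0 + b x ρ)) = 1 := fun ha hb =>
      K.eq ((kitOne κ).bit (K.add (K.add (K.mul (K.c 2) hn) (K.c 3)) (K.add (K.mul ha hn) hb)))
        (K.c 1)
    exact K.and (K.ne ha hb) (K.and (K.lt ha hn) (K.and (K.lt hb hn) (K.or (h ha hb) (h hb ha))))
  · rw [code, List.length_append, CodeX.pre_len,
      CodeX.flat_len fun a b => decide (G.Adj a b)]
  · rw [adj, CodeX.n0]
    constructor
    · rintro ⟨-, hu, hw, h | h⟩
      · exact ⟨hu, hw, (CodeX.bit_iff G v ⟨u, hu⟩ ⟨w, hw⟩).1 h⟩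
      · exact ⟨hu, hw, ((CodeX.bit_iff G v ⟨w, hw⟩ ⟨u, hu⟩).1 h).symm⟩
    · rintro ⟨hu, hw, h⟩
      exact ⟨fun e => h.ne (Fin.ext e), hu, hw, Or.inl ((CodeX.bit_iff G v _ _).2 h)⟩

end Pool.Agent.MP_1a6d78_lc.MI
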