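import Mathlib.Combinatorics.SimpleGraph.Clique
import Pool.Agent.MP_1a6d78_lc.ED.Defs

/-! The code of a graph with a marked vertex. -/

namespace Pool.Agent.MP_1a6d78_lc.MI

open Classical in
/-- The numbers `n`, `v`, `n - v` in unary (so the length does not depend on `v`), then the
adjacency matrix row by row. -/
noncomputable def code {n : ℕ} (G : SimpleGraph (Fin n)) (v : Fin n) : List Bool :=
  ED.unary [n, v, n - v] ++ (List.ofFn fun a => List.ofFn fun b => decide (G.Adj a b)).flatten

end Pool.Agent.MP_1a6d78_lc.MI
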