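import Mathlib.Data.Real.Basic
import Mathlib.Algebra.Order.BigOperators.Ring.Finset
import Mathlib.Algebra.BigOperators.Field
import Pool.Agent.MP_1a6d78_lc.MI.Defs
import Pool.Agent.MP_1a6d78_lc.PD.Spec2

/-! PROJECT MIS: the algorithm, the programs and the module statements.
Note: MIS1a6d78_note_h56.md. -/

namespace Pool.Agent.MP_1a6d78_lc.MI

open Classical ED PR SC Finset

noncomputable section

/-- Graph and parameters: `K` slots, marking factor `c`, weight base `Q`, radix `R` of the seeds,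
`T` rounds, all numbers of the machine are cut at `β`. -/
structure Gp where
  n : ℕ
  A : ℕ → ℕ → Prop
  K : ℕ
  c : ℕ
  Q : ℕ
  R : ℕ
  T : ℕ
  β : ℕ

/-- Seeds, levels, joins. -/
structure St where
  σ : ℕ → ℕ
  L : ℕ → ℕ → ℕ
  J : ℕ → ℕ → Prop

/-- The weights. -/
def wt (Q : ℕ) : ℕ → ℕ
  | 0 => 2 * Q
  | E + 1 => wt Q E + wt Q E / Q

namespace Gp

variable (M : Gp)

/-- The modulus of a seed. -/
def md (q : ℕ) : ℕ := q % M.R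

/-- The hash function of a seed. -/
def hs (q u : ℕ) : ℕ := (q / M.R % M.R * u ^ 2 + q / M.R ^ 2 % M.R * u + q / M.R ^ 3) % (q % M.R)

/-- The number of slots at depth `f`. -/
def sl (f : ℕ) : ℕ := M.K * 512 ^ f

/-- `u` is sampled at level value `l` with horizon `k`. -/
def sm (q k l u : ℕ) : Prop := M.hs q u * 4 ^ l < 4 ^ k * M.md q

/-- The marking threshold. -/
def th (q l u : ℕ) : Prop := M.c * M.hs q u * 4 ^ l < M.md q

variable (S : St)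

def N (q k r v u : ℕ) : Prop := M.A v u ∧ M.sm q k (S.L r u) u

/-- A collision at some level `r ≤ j` (horizon `k`, depth `e` at level `j`) in the class `i` of
depth `f`. -/
def Ov (j v q k e f i : ℕ) : Prop :=
  ∃ r ≤ j, ∃ u w, u ≠ w ∧ M.N S q (k + (j - r)) r v u ∧ M.N S q (k + (j - r)) r v w ∧
    M.hs q u % M.sl (e + (j - r)) = M.hs q w % M.sl (e + (j - r)) ∧ M.hs q u % M.sl f = i

def ovf (j q e v : ℕ) : Prop :=
  ∃ r ≤ j, ∃ u w, u ≠ w ∧ M.N S q (j - r) r v u ∧ M.N S q (j - r) r v w ∧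
    M.hs q u % M.sl (e + (j - r)) = M.hs q w % M.sl (e + (j - r))

def bad (s e v : ℕ) : Prop := S.J s v ∨ M.ovf S s (S.σ s) e v ∨ ∃ u, M.A v u ∧ S.J s u

def act (t v : ℕ) : Prop := ∀ s < t, ¬M.bad S s ((t - 1 - s) / 2) v

def mrk (t q u : ℕ) : Prop := M.act S t u ∧ M.th q (S.L t u) u

def nJ (t q v : ℕ) : Prop := M.mrk S t q v ∧ ¬M.ovf S t q 0 v ∧ ∀ u, M.A v u → ¬M.mrk S t q u

def warn (t q v : ℕ) : Prop := M.ovf S t q 0 v ∨ ∃ u, M.N S q 0 t v u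

def nL (t q v : ℕ) : ℕ := if M.act S t v ∧ ¬M.warn S t q v then S.L t v - 1 else S.L t v + 1

/-- The first `j` rounds follow the rules. -/
def Run (j : ℕ) : Prop :=
  (∀ u, S.L 0 u = 0) ∧ ∀ t < j, ∀ v, (S.J t v ↔ M.nJ S t (S.σ t) v) ∧
    S.L (t + 1) v = M.nL S t (S.σ t) v

/-- Round `j` with the seed `q`. -/
def nx (j q : ℕ) : St :=
  ⟨fun s => if s = j then q else S.σ s, fun r => if r = j + 1 then M.nL S j q else S.L r,
    fun s => if s = j then M.nJ S j q else S.J s⟩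

/-- The content of a slot: 1 overflow, `u + 2` the element `u`, 0 empty. -/
def arr (j v q k f i : ℕ) : ℕ :=
  if M.Ov S j v q k f f i then 1
  else if ∃ u, M.N S q k j v u ∧ M.hs q u % M.sl f = i then
    lst M.n (fun u => M.N S q k j v u ∧ M.hs q u % M.sl f = i) + 2 else 0

def ag (j v s f i : ℕ) : Prop :=
  S.J s v ∨ M.Ov S s v (S.σ s) 0 (f + (j - 1 - s)) f i ∨
    ∃ u, M.A v u ∧ S.J s u ∧ M.hs (S.σ s) u % M.sl f = i

def cc (j v t : ℕ) : Prop := ∃ s < t, (t + 1 + s) / 2 ≤ j ∧ M.bad S s ((t - 1 - s) / 2) v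

/-! ### The potential -/

def alive (j v : ℕ) : Prop := ∀ s < j, ¬S.J s v ∧ ∀ u, M.A v u → ¬S.J s u

def xr (j u : ℕ) : ℝ := 1 / 4 ^ S.L j u

def mr (j v : ℕ) : ℝ := ∑ u ∈ range M.n, if M.A v u then xr S j u else 0

def Zok (j v z : ℕ) : Prop :=
  512 * M.mr S j v < 2 ^ z ∧ ∀ s < j, ∀ e ≤ M.T, M.ovf S s (S.σ s) e v → 2 * e + 3 + s ≤ z + j

def Z (j v : ℕ) : ℕ := sInf {z | M.Zok S j v z}

def E (j v : ℕ) : ℕ := S.L j v + 2 * M.Z S j v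

def Phi (j : ℕ) : ℕ := ∑ v ∈ range M.n, if M.alive S j v then wt M.Q (M.E S j v) else 0

/-- The mass of the healthy neighbours. -/
def hm (j v : ℕ) : ℝ :=
  ∑ u ∈ range M.n, if M.A v u ∧ M.act S j u ∧ M.mr S j u < 4096 then xr S j u else 0

def gold (j v : ℕ) : Prop :=
  (1 / 4 ≤ 512 * M.mr S j v ∧ M.mr S j v / 32 ≤ M.hm S j v) ∨ (M.Z S j v = 0 ∧ S.L j v = 0)

def tail (j q v : ℕ) : ℕ :=
  ∑ e ∈ range (M.T + 1),
    if M.Z S j v ≤ 2 * e + 2 ∧ M.ovf S j q e v then wt M.Q (S.L j v + 4 * e + 5) else 0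

/-! ### The programs -/

/-- Powers cut at `β`. -/
def cp (b e : ℕ) : ℕ := it M.β (fun a => a * b) e 1

def slP (f : ℕ) : ℕ := M.K * M.cp 512 f

def smP (q k l u : ℕ) : Prop := M.hs q u * M.cp 4 l < M.cp 4 k * M.md q

def ask (g : Orc) (t a b c d e : ℕ) : ℕ :=
  g [min t M.β, min a M.β, min b M.β, min c M.β, min d M.β, min e M.β]

section
variable (g : Orc)

def oS (s : ℕ) : ℕ := M.ask g 0 s 0 0 0 0

def oL (r u : ℕ) : ℕ := M.ask g 1 r u 0 0 0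

def oJ (s u : ℕ) : ℕ := M.ask g 2 s u 0 0 0

def oA (v q k f i : ℕ) : ℕ := M.ask g 3 v q k f i

def oG (v s f i : ℕ) : ℕ := M.ask g 4 v s f i 0

def oC (v t : ℕ) : ℕ := M.ask g 5 v t 0 0 0

variable (q j : ℕ)

def pmk (u : ℕ) : Prop := M.oC g u j = 0 ∧ M.c * M.hs q u * M.cp 4 (M.oL g j u) < M.md q

def pJ (v : ℕ) : Prop :=
  M.pmk g q j v ∧ ∀ i < M.K, M.oA g v q 0 0 i ≠ 1 ∧
    (2 ≤ M.oA g v q 0 0 i → ¬M.pmk g q j (M.oA g v q 0 0 i - 2))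

def pL (v : ℕ) : ℕ :=
  if M.oC g v j = 0 ∧ ∀ i < M.K, M.oA g v q 0 0 i = 0 then M.oL g j v - 1 else M.oL g j v + 1

def ch (v p k f i b : ℕ) : ℕ := M.oA g v p (k + 1) (f + 1) (i + b * M.slP f)

def okc (v p k f i b : ℕ) : Prop :=
  2 ≤ M.ch g v p k f i b ∧
    M.smP p k (M.pL g q j (M.ch g v p k f i b - 2)) (M.ch g v p k f i b - 2)

def pA (v p k f i : ℕ) : ℕ :=
  if (∃ b < 512, M.ch g v p k f i b = 1) ∨
      ∃ b < 512, ∃ b' < 512, b ≠ b' ∧ M.okc g q j v p k f i b ∧ M.okc g q j v p k f i b' then 1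
  else if ∃ b < 512, M.okc g q j v p k f i b then
    M.ch g v p k f i (lst 512 (M.okc g q j v p k f i)) else 0

def pG (v s f i : ℕ) : Prop :=
  (s = j ∧ (M.pJ g q j v ∨ M.oA g v q 0 f i = 1 ∨
    (2 ≤ M.oA g v q 0 f i ∧ M.pJ g q j (M.oA g v q 0 f i - 2)))) ∨
  (s ≠ j ∧ ∃ b < 512, M.oG g v s (f + 1) (i + b * M.slP f) ≠ 0)

def pC (v t : ℕ) : Prop :=
  M.oC g v t ≠ 0 ∨ ∃ d < 2, t ≤ 2 * j + 1 + d ∧ 2 * j + 1 + d - t ≤ j ∧
    ∃ i < M.K, M.pG g q j v (2 * j + 1 + d - t) 0 i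

end

/-- Level `j + 1` over the oracle `g` of level `j`. -/
def step (q j : ℕ) (g : Orc) (l : List ℕ) : ℕ :=
  if gt l 0 = 0 then (if gt l 1 = j then q else M.oS g (gt l 1))
  else if gt l 0 = 1 then
    (if gt l 1 = j + 1 then M.pL g q j (gt l 2) else M.oL g (gt l 1) (gt l 2))
  else if gt l 0 = 2 then
    (if gt l 1 = j then (if M.pJ g q j (gt l 2) then 1 else 0) else M.oJ g (gt l 1) (gt l 2))
  else if gt l 0 = 3 then M.pA g q j (gt l 1) (gt l 2) (gt l 3) (gt l 4) (gt l 5)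
  else if gt l 0 = 4 then (if M.pG g q j (gt l 1) (gt l 2) (gt l 3) (gt l 4) then 1 else 0)
  else if M.pC g q j (gt l 1) (gt l 2) then 1 else 0

def b0 (v q k f i u : ℕ) : Prop := M.A v u ∧ M.smP q k 0 u ∧ M.hs q u % M.slP f = i

def bA (v q k f i : ℕ) : ℕ :=
  if ∃ u < M.n, ∃ w < M.n, u ≠ w ∧ M.b0 v q k f i u ∧ M.b0 v q k f i w then 1
  else if ∃ u < M.n, M.b0 v q k f i u then lst M.n (M.b0 v q k f i) + 2 else 0

/-- Level 0. -/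
def base (l : List ℕ) : ℕ :=
  if gt l 0 = 3 then M.bA (gt l 1) (gt l 2) (gt l 3) (gt l 4) (gt l 5) else 0

section
variable (g : Orc) (j : ℕ)

def tN (q k r v u : ℕ) : Prop := M.A v u ∧ M.smP q k (M.oL g r u) u

def tO (s e v : ℕ) : Prop :=
  ∃ r < min (s + 1) M.T, ∃ u < M.n, ∃ w < M.n, u ≠ w ∧ M.tN g (M.oS g s) (s - r) r v u ∧
    M.tN g (M.oS g s) (s - r) r v w ∧
      M.hs (M.oS g s) u % M.slP (e + (s - r)) = M.hs (M.oS g s) w % M.slP (e + (s - r))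

def tm (v : ℕ) : ℕ := ∑ u ∈ range M.n, if M.A v u then M.cp 4 (M.T - M.oL g j u) else 0

def tZ (v : ℕ) : ℕ :=
  lst M.β fun z => 512 * M.tm g j v < M.cp 2 z * M.cp 4 M.T ∧
    ∀ s < min j M.T, ∀ e < M.T + 1, M.tO g s e v → 2 * e + 3 + s ≤ z + j

def tA (v : ℕ) : Prop :=
  ∀ s < min j M.T, M.oJ g s v = 0 ∧ ∀ u < M.n, M.A v u → M.oJ g s u = 0

end

/-- The potential read from an oracle. -/
def tPhi (j : ℕ) (g : Orc) : ℕ :=
  ∑ v ∈ range M.n, if M.tA g j v then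
    it M.β (fun a => a + a / M.Q) (M.oL g j v + 2 * M.tZ g j v) (2 * M.Q) else 0

/-- The answer read from an oracle. -/
def tAns (v j : ℕ) (g : Orc) : ℕ := if ∃ s < min j M.T, M.oJ g s v ≠ 0 then 1 else 0

/-- The graph is simple, the numbers fit below `β`. -/
structure Ok : Prop where
  symm : ∀ u v, M.A u v → M.A v u
  irr : ∀ u, ¬M.A u u
  lt : ∀ u v, M.A u v → v < M.n
  K : M.K = 2 ^ 32
  c : M.c = 2 ^ 16
  Q : M.Q = 2 ^ 37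
  big : M.K * 512 ^ (2 * M.T + 1) ≤ M.β
  nb : 1024 * (M.n + 2) ≤ M.β
  wb : M.Q * 2 ^ (5 * M.T + 25) * (M.n + 2) ^ 2 ≤ M.β

/-- The oracle `g` gives the values of level `j`. -/
structure Rep (j : ℕ) (g : Orc) : Prop where
  σ : ∀ s < j, M.oS g s = S.σ s
  σb : ∀ s < j, S.σ s ≤ M.β
  L : ∀ r ≤ j, ∀ u < M.n, M.oL g r u = S.L r u
  J : ∀ s < j, ∀ u < M.n, (M.oJ g s u ≠ 0 ↔ S.J s u)
  A : ∀ v < M.n, ∀ q ≤ M.β, ∀ k f i, k + j ≤ M.T → f + j ≤ 2 * M.T → i < M.sl f →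
    M.oA g v q k f i = M.arr S j v q k f i
  G : ∀ v < M.n, ∀ s < j, ∀ f i, f + j ≤ 2 * M.T → i < M.sl f →
    (M.oG g v s f i ≠ 0 ↔ M.ag S j v s f i)
  C : ∀ v < M.n, ∀ t ≤ M.T, (M.oC g v t ≠ 0 ↔ M.cc S j v t)

def Good (j : ℕ) (g : Orc) : Prop := ∃ S, M.Run S j ∧ M.Rep S j g

/-- The context of the program rows. -/
structure Cx (j : ℕ) (g : Orc) (q : ℕ) : Prop where
  ok : M.Ok
  run : M.Run S j
  rep : M.Rep S j g
  hj : j < M.T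
  hq : q ≤ M.β

end Gp

def s0 : St := ⟨fun _ => 0, fun _ _ => 0, fun _ _ => False⟩

/-! ### Means over a finite set of seeds -/

def ex (Ω : Finset ℕ) (f : ℕ → ℝ) : ℝ := (∑ q ∈ Ω, f q) / Ω.card

def ind (P : Prop) : ℝ := if P then 1 else 0

def pr (Ω : Finset ℕ) (E : ℕ → Prop) : ℝ := ex Ω fun q => ind (E q)

/-- The hash values are three-wise independent and uniform below `P`. -/
structure Ind (M : Gp) (Ω : Finset ℕ) (P : ℕ) : Prop where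
  ne : Ω.Nonempty
  md : ∀ q ∈ Ω, M.md q = P
  lt : ∀ q ∈ Ω, q < M.R ^ 4
  big : M.c * M.K * 512 ^ (2 * M.T) * 4 ^ M.T ≤ P
  one : ∀ u < M.n, ∀ f : ℕ → ℝ, ex Ω (fun q => f (M.hs q u)) = ex (range P) f
  two : ∀ u < M.n, ∀ w < M.n, u ≠ w → ∀ f : ℕ → ℕ → ℝ,
    ex Ω (fun q => f (M.hs q u) (M.hs q w)) = ex (range P) fun a => ex (range P) (f a)
  three : ∀ u < M.n, ∀ w < M.n, ∀ z < M.n, u ≠ w → u ≠ z → w ≠ z → ∀ f : ℕ → ℕ → ℕ → ℝ,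
    ex Ω (fun q => f (M.hs q u) (M.hs q w) (M.hs q z)) =
      ex (range P) fun a => ex (range P) fun b => ex (range P) (f a b)

/-- The context of the probability rows. -/
structure Hy (M : Gp) (S : St) (j : ℕ) (Ω : Finset ℕ) (P : ℕ) : Prop where
  ok : M.Ok
  run : M.Run S j
  hj : j < M.T
  ind : Ind M Ω P

/-! ### Probability rows -/

/-- IND -/
def IndS : Prop :=
  ∀ M : Gp, 2 * (M.c * M.K * 512 ^ (2 * M.T) * 4 ^ M.T + M.n + 3) < M.R → ∃ Ω P, Ind M Ω P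

/-- THR -/
def ThrS : Prop :=
  ∀ M S j Ω P, Hy M S j Ω P → ∀ u < M.n,
    (Gp.xr S j u ≤ pr Ω (fun q => M.sm q 0 (S.L j u) u) ∧
      pr Ω (fun q => M.sm q 0 (S.L j u) u) ≤ 2 * Gp.xr S j u) ∧
    Gp.xr S j u / M.c ≤ pr Ω (fun q => M.th q (S.L j u) u) ∧
      pr Ω (fun q => M.th q (S.L j u) u) ≤ 2 * Gp.xr S j u / M.c

/-- SEC: product rule and second moment. -/
def SecS : Prop :=
  ∀ M Ω P, Ind M Ω P → ∀ D : ℕ → ℕ → Prop,
    (∀ u < M.n, ∀ w < M.n, u ≠ w → pr Ω (fun q => D u (M.hs q u) ∧ D w (M.hs q w)) =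
      pr Ω (fun q => D u (M.hs q u)) * pr Ω fun q => D w (M.hs q w)) ∧
    ∀ F ⊆ range M.n, ∀ ρ, ρ = ∑ u ∈ F, pr Ω (fun q => D u (M.hs q u)) →
      ex Ω (fun q => (∑ u ∈ F, ind (D u (M.hs q u))) ^ 2) ≤ ρ + ρ ^ 2 ∧
        pr Ω (fun q => ∀ u ∈ F, ¬D u (M.hs q u)) * ρ ≤ 1

/-- CNT: the residue class of an initial segment. -/
def CntS : Prop :=
  ∀ (P m a l k : ℕ) (y : ℝ), 0 < m → m ≤ y * P → (4 : ℝ) ^ k / 4 ^ l ≤ y →
    pr (range P) (fun b => b * 4 ^ l < 4 ^ k * P) ≤ 2 * y ∧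
      pr (range P) (fun b => b * 4 ^ l < 4 ^ k * P ∧ a % m = b % m) ≤ 3 * y / m

/-- COLL -/
def CollS : Prop :=
  ∀ M S j Ω P, Hy M S j Ω P → ∀ v < M.n, ∀ e ≤ M.T, ∀ D : ℕ → Prop,
    pr Ω (fun q => D (M.hs q v) ∧ M.ovf S j q e v) ≤
      pr Ω (fun q => D (M.hs q v)) * (12 * M.mr S j v ^ 2 / (M.K * 512 ^ e))

/-- JOIN (with the warning and the silence bounds) -/
structure JoinK (M : Gp) (S : St) (j : ℕ) (Ω : Finset ℕ) : Prop where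
  join : ∀ u < M.n, M.act S j u → pr Ω (fun q => M.th q (S.L j u) u) *
    (1 - 2 * M.mr S j u / M.c - 12 * M.mr S j u ^ 2 / M.K) ≤ pr Ω fun q => M.nJ S j q u
  warn : ∀ v < M.n,
    pr Ω (fun q => M.warn S j q v) ≤ 2 * M.mr S j v + 12 * M.mr S j v ^ 2 / M.K
  mute : ∀ u < M.n, pr Ω (fun q => ¬M.warn S j q u) * M.mr S j u ≤ 1

def JoinS : Prop := ∀ M S j Ω P, Hy M S j Ω P → JoinK M S j Ω

/-- GOLD -/
def GoldS : Prop :=
  ∀ M S j Ω P, Hy M S j Ω P → ∀ v < M.n, M.alive S j v → M.gold S j v →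
    pr Ω (fun q => M.alive (M.nx S j q) (j + 1) v) ≤ 1 - 1 / 2 ^ 34

/-- SHR -/
def ShrS : Prop :=
  ∀ M S j Ω P, Hy M S j Ω P → ∀ v < M.n, M.hm S j v < M.mr S j v / 32 →
    pr Ω (fun q => M.mr S j v / 2 < M.mr (M.nx S j q) (j + 1) v) ≤ 30 / 4096

/-- CALM -/
def CalmS : Prop :=
  ∀ M S j Ω P, Hy M S j Ω P → ∀ v < M.n, M.alive S j v → ¬M.gold S j v →
    pr Ω (fun q => ¬∃ z, 512 * M.mr (M.nx S j q) (j + 1) v < 2 ^ z ∧ M.Z S j v ≤ z + 1 ∧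
      M.nL S j q v + 2 * z + 1 ≤ M.E S j v) ≤ 1 / 64

/-- POINT -/
def PointS : Prop :=
  ∀ (M : Gp) S j q v z, M.Ok → M.Run S j → 512 * M.mr (M.nx S j q) (j + 1) v < 2 ^ z →
    M.Z S j v ≤ z + 1 →
      wt M.Q (M.E (M.nx S j q) (j + 1) v) ≤ wt M.Q (M.nL S j q v + 2 * z) + M.tail S j q v

/-- TAIL -/
def TailS : Prop :=
  ∀ M S j Ω P, Hy M S j Ω P → ∀ v < M.n,
    ex Ω (fun q => M.tail S j q v) ≤ wt M.Q (M.E S j v) / (10 * M.Q)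

/-- VERT -/
def VertS : Prop :=
  ∀ M S j Ω P, Hy M S j Ω P → ∀ v < M.n, M.alive S j v →
    ex Ω (fun q => ind (M.alive (M.nx S j q) (j + 1) v) * wt M.Q (M.E (M.nx S j q) (j + 1) v)) ≤
      (1 - 1 / (10 * M.Q)) * wt M.Q (M.E S j v)

/-- POT -/
def PotS : Prop :=
  ∀ M S j Ω P, Hy M S j Ω P → ∃ q < M.R ^ 4,
    M.Phi (M.nx S j q) (j + 1) * (10 * M.Q) ≤ M.Phi S j * (10 * M.Q - 1)

/-- SAFE -/
def SafeS : Prop :=
  ∀ (M : Gp) S j, M.Ok → M.Run S j →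
    (∀ u v, M.A u v → (∃ s < j, S.J s u) → ¬∃ s < j, S.J s v) ∧
    (M.Phi S j = 0 → ∀ v < M.n, (∃ s < j, S.J s v) ∨ ∃ u, M.A v u ∧ ∃ s < j, S.J s u) ∧
    M.Phi s0 0 ≤ (M.n + 2) ^ 64

/-! ### Program rows -/

/-- PLOC -/
structure LocK (M : Gp) (S : St) (j : ℕ) (g : Orc) (q : ℕ) : Prop where
  J : ∀ v < M.n, (M.pJ g q j v ↔ M.nJ S j q v)
  L : ∀ v < M.n, M.pL g q j v = M.nL S j q v

def LocS : Prop := ∀ (M : Gp) S j g q, M.Cx S j g q → LocK M S j g q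

/-- PARR -/
def ArrS : Prop :=
  ∀ (M : Gp) S j g q, M.Cx S j g q → LocK M S j g q → ∀ v < M.n, ∀ p ≤ M.β, ∀ k f i,
    k + (j + 1) ≤ M.T → f + (j + 1) ≤ 2 * M.T → i < M.sl f →
      M.pA g q j v p k f i = M.arr (M.nx S j q) (j + 1) v p k f i

/-- PAG -/
def AgS : Prop :=
  ∀ (M : Gp) S j g q, M.Cx S j g q → LocK M S j g q → ∀ v < M.n,
    (∀ s < j + 1, ∀ f i, f + (j + 1) ≤ 2 * M.T → i < M.sl f →
      (M.pG g q j v s f i ↔ M.ag (M.nx S j q) (j + 1) v s f i)) ∧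
    ∀ t ≤ M.T, (M.pC g q j v t ↔ M.cc (M.nx S j q) (j + 1) v t)

/-- PSTEP -/
def StepS : Prop :=
  (∀ M : Gp, M.Ok → M.Rep s0 0 (nrm 6 M.β M.base)) ∧
    ∀ (M : Gp) S j g q, M.Cx S j g q → M.Rep (M.nx S j q) (j + 1) (nrm 6 M.β (M.step q j g))

/-- PHI -/
def PhiS : Prop :=
  ∀ (M : Gp) S j g, M.Ok → M.Run S j → M.Rep S j g → j ≤ M.T → M.tPhi j g = M.Phi S j ∧
    ∀ v < M.n, (M.tAns v j g ≠ 0 ↔ ∃ s < j, S.J s v)

/-! ### Machine rows -/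

abbrev EC : Type := List Bool → Env → ℕ

abbrev EN : Type := List Bool → Orc → Env → ℕ

/-- The parameters are computed without calls. -/
structure Cg (κ : List Bool → ℕ) (π : List Bool → Gp) : Prop where
  k6 : ∀ x, 6 ≤ κ x
  n : Cn κ fun x _ => (π x).n
  K : Cn κ fun x _ => (π x).K
  c : Cn κ fun x _ => (π x).c
  Q : Cn κ fun x _ => (π x).Q
  R : Cn κ fun x _ => (π x).R
  T : Cn κ fun x _ => (π x).T
  β : Cn κ fun x _ => (π x).β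
  A : ∀ {a b : EC}, Cn κ a → Cn κ b → PR.Cp κ fun x ρ => (π x).A (a x ρ) (b x ρ)

/-- CB -/
def CbS : Prop :=
  ∀ (κ : List Bool → ℕ) (π : List Bool → Gp), Cg κ π → Cn κ fun x ρ => (π x).base (ρ 0)

/-- CS -/
def CsS : Prop :=
  ∀ (κ : List Bool → ℕ) (π : List Bool → Gp) (m : ℕ), Cg κ π → 512 ≤ m → (∀ x, (π x).K ≤ m) →
    Nq κ (fun _ => m) (fun x => (π x).β) fun x g ρ =>
      (π x).step (hd (ρ 0)) (hd (ρ 1)) g (ρ 2)

/-- CT -/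
def CtS : Prop :=
  ∀ (κ : List Bool → ℕ) (π : List Bool → Gp), Cg κ π → (∀ x, (π x).n ≤ (π x).β) →
    (∀ x, (π x).T + 1 ≤ (π x).β) →
    (Nq κ (fun x => (π x).β) (fun x => (π x).β) fun x g ρ => (π x).tPhi (hd (ρ 0)) g) ∧
      Nq κ (fun x => (π x).β) (fun x => (π x).β) fun x g ρ => (π x).tAns (num x 1) (hd (ρ 0)) g

/-- The graph read from the input. -/
def adj (x : List Bool) (u w : ℕ) : Prop :=
  u ≠ w ∧ u < num x 0 ∧ w < num x 0 ∧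
    (bit x (2 * num x 0 + 3 + (u * num x 0 + w)) = 1 ∨ bit x (2 * num x 0 + 3 + (w * num x 0 + u)) = 1)

/-- CODE -/
def CodeS : Prop :=
  (∀ (κ : List Bool → ℕ) {a b : EC}, Cn κ a → Cn κ b → PR.Cp κ fun x ρ => adj x (a x ρ) (b x ρ)) ∧
    ∀ (n : ℕ) (G : SimpleGraph (Fin n)) (v : Fin n), num (code G v) 0 = n ∧ num (code G v) 1 = v ∧
      (code G v).length = 2 * n + 3 + n * n ∧
      ∀ u w, adj (code G v) u w ↔ ∃ (hu : u < n) (hw : w < n), G.Adj ⟨u, hu⟩ ⟨w, hw⟩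

/-- The theorem. -/
def MainS : Prop :=
  ∃ (M : TM) (c : ℕ),
    (∀ x : List Bool, (M.out (M.run x ((x.length + 2) ^ c)).q).isSome ∧
      ∀ (τ : ℕ) (i : Fin M.k), (M.run x τ).head i ≤ c * (Nat.log 2 x.length + 1) ^ 3) ∧
    ∀ (n : ℕ) (G : SimpleGraph (Fin n)), Maximal G.IsIndepSet
      {v | M.out (M.run (code G v) (((code G v).length + 2) ^ c)).q = some true}

end

end Pool.Agent.MP_1a6d78_lc.MI
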