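import Mathlib.Tactic.Linarith
import Mathlib.Tactic.Positivity
import Mathlib.Tactic.FieldSimp
import Mathlib.Tactic.GCongr
import Pool.Agent.MP_1a6d78_lc.MI.Spec

/-! PROJECT MIS: basic facts. -/

namespace Pool.Agent.MP_1a6d78_lc.MI

open Classical ED PR SC Finset

/-! ### Means -/

section
variable {Ω : Finset ℕ} {f g : ℕ → ℝ} {E F : ℕ → Prop}

theorem ind_pos {P : Prop} (h : P) : ind P = 1 := if_pos h

theorem ind_neg {P : Prop} (h : ¬P) : ind P = 0 := if_neg h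

theorem ind_nonneg (P : Prop) : 0 ≤ ind P := by unfold ind; split_ifs <;> norm_num

theorem ind_le (P : Prop) : ind P ≤ 1 := by unfold ind; split_ifs <;> norm_num

theorem ind_and (P Q : Prop) : ind (P ∧ Q) = ind P * ind Q := by
  by_cases h : P <;> by_cases k : Q <;> simp [ind, h, k]

theorem ind_not (P : Prop) : ind (¬P) = 1 - ind P := by by_cases h : P <;> simp [ind, h]

theorem ind_mono {P Q : Prop} (h : P → Q) : ind P ≤ ind Q := by
  by_cases k : P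
  · rw [ind_pos k, ind_pos (h k)]
  · rw [ind_neg k]; exact ind_nonneg _

theorem ind_or (P Q : Prop) : ind (P ∨ Q) ≤ ind P + ind Q := by
  by_cases h : P <;> by_cases k : Q <;> simp [ind, h, k]

theorem ind_ex (s : Finset ℕ) (D : ℕ → Prop) : ind (∃ a ∈ s, D a) ≤ ∑ a ∈ s, ind (D a) := by
  by_cases h : ∃ a ∈ s, D a
  · obtain ⟨a, ha, k⟩ := h
    rw [ind_pos ⟨a, ha, k⟩, ← ind_pos k]
    exact single_le_sum (f := fun a => ind (D a)) (fun _ _ => ind_nonneg _) ha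
  · rw [ind_neg h]; exact sum_nonneg fun _ _ => ind_nonneg _

theorem ex_mono (h : ∀ q ∈ Ω, f q ≤ g q) : ex Ω f ≤ ex Ω g :=
  div_le_div_of_nonneg_right (sum_le_sum h) (Nat.cast_nonneg _)

theorem ex_congr (h : ∀ q ∈ Ω, f q = g q) : ex Ω f = ex Ω g := by
  unfold ex; rw [sum_congr rfl h]

theorem ex_nonneg (h : ∀ q ∈ Ω, 0 ≤ f q) : 0 ≤ ex Ω f :=
  div_nonneg (sum_nonneg h) (Nat.cast_nonneg _)

theorem ex_add (f g : ℕ → ℝ) : ex Ω (fun q => f q + g q) = ex Ω f + ex Ω g := by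
  unfold ex; rw [sum_add_distrib, add_div]

theorem ex_sub (f g : ℕ → ℝ) : ex Ω (fun q => f q - g q) = ex Ω f - ex Ω g := by
  unfold ex; rw [sum_sub_distrib, sub_div]

theorem ex_mul (a : ℝ) (f : ℕ → ℝ) : ex Ω (fun q => a * f q) = a * ex Ω f := by
  unfold ex; rw [← mul_sum, mul_div_assoc]

theorem ex_mul' (a : ℝ) (f : ℕ → ℝ) : ex Ω (fun q => f q * a) = ex Ω f * a := by
  unfold ex; rw [← sum_mul, mul_div_right_comm]

theorem ex_sum (s : Finset ℕ) (f : ℕ → ℕ → ℝ) :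
    ex Ω (fun q => ∑ a ∈ s, f a q) = ∑ a ∈ s, ex Ω (f a) := by
  unfold ex; rw [sum_comm, sum_div]

theorem ex_const (h : Ω.Nonempty) (a : ℝ) : ex Ω (fun _ => a) = a := by
  have : (Ω.card : ℝ) ≠ 0 := Nat.cast_ne_zero.2 h.card_pos.ne'
  unfold ex; rw [sum_const, nsmul_eq_mul]; field_simp

theorem ex_exists (h : Ω.Nonempty) (f : ℕ → ℝ) : ∃ q ∈ Ω, f q ≤ ex Ω f := by
  refine exists_le_of_sum_le h (le_of_eq ?_)
  have : (Ω.card : ℝ) ≠ 0 := Nat.cast_ne_zero.2 h.card_pos.ne'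
  unfold ex; rw [sum_const, nsmul_eq_mul]; field_simp

theorem pr_nonneg (Ω : Finset ℕ) (E : ℕ → Prop) : 0 ≤ pr Ω E := ex_nonneg fun _ _ => ind_nonneg _

theorem pr_mono (h : ∀ q ∈ Ω, E q → F q) : pr Ω E ≤ pr Ω F := ex_mono fun q k => ind_mono (h q k)

theorem pr_congr (h : ∀ q ∈ Ω, E q ↔ F q) : pr Ω E = pr Ω F :=
  ex_congr fun q k => by rw [propext (h q k)]

theorem pr_true (h : Ω.Nonempty) : pr Ω (fun _ => True) = 1 := by
  unfold pr; rw [ex_congr fun _ _ => ind_pos trivial, ex_const h]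

theorem pr_false (h : ∀ q ∈ Ω, ¬E q) : pr Ω E = 0 := by
  unfold pr; rw [ex_congr fun q k => ind_neg (h q k)]; simp [ex]

theorem pr_le_one (h : Ω.Nonempty) (E : ℕ → Prop) : pr Ω E ≤ 1 :=
  (pr_mono fun _ _ _ => trivial).trans (pr_true h).le

theorem pr_not (h : Ω.Nonempty) (E : ℕ → Prop) : pr Ω (fun q => ¬E q) = 1 - pr Ω E := by
  unfold pr; simp only [ind_not]; rw [ex_sub, ex_const h]

theorem pr_or (E F : ℕ → Prop) : pr Ω (fun q => E q ∨ F q) ≤ pr Ω E + pr Ω F :=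
  (ex_mono fun _ _ => ind_or _ _).trans (ex_add _ _).le

theorem pr_ex (s : Finset ℕ) (D : ℕ → ℕ → Prop) :
    pr Ω (fun q => ∃ a ∈ s, D a q) ≤ ∑ a ∈ s, pr Ω (D a) :=
  (ex_mono fun _ _ => ind_ex _ _).trans (ex_sum s fun a q => ind (D a q)).le

theorem pr_card (Ω : Finset ℕ) (E : ℕ → Prop) : pr Ω E = (Ω.filter E).card / Ω.card := by
  unfold pr ex ind; rw [card_filter]; push_cast; rfl

/-- Markov. -/
theorem markov {a : ℝ} (h : ∀ q ∈ Ω, 0 ≤ f q) (hE : ∀ q ∈ Ω, E q → a ≤ f q) :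
    pr Ω E * a ≤ ex Ω f := by
  rw [pr, ← ex_mul']
  refine ex_mono fun q k => ?_
  by_cases e : E q
  · rw [ind_pos e, one_mul]; exact hE q k e
  · rw [ind_neg e, zero_mul]; exact h q k

end

/-! ### Weights -/

theorem wt_succ (Q E : ℕ) : wt Q (E + 1) = wt Q E + wt Q E / Q := rfl

theorem wt_mono (Q : ℕ) : Monotone (wt Q) :=
  monotone_nat_of_le_succ fun _ => Nat.le_add_right _ _

theorem wt_ge (Q E : ℕ) : 2 * Q ≤ wt Q E := wt_mono Q (Nat.zero_le E)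

theorem wt_add (Q E d : ℕ) : wt Q (E + d) ≤ wt Q E * 2 ^ d := by
  induction d with
  | zero => simp
  | succ d ih =>
    have := Nat.div_le_self (wt Q (E + d)) Q
    rw [← add_assoc, wt_succ, pow_succ, ← mul_assoc]
    omega

theorem wt_le (Q E : ℕ) : wt Q E ≤ 2 * Q * 2 ^ E := by simpa [wt] using wt_add Q 0 E

theorem wt_up {Q : ℕ} (E : ℕ) : (wt Q (E + 1) : ℝ) ≤ (1 + 1 / Q) * wt Q E := by
  have : ((wt Q E / Q : ℕ) : ℝ) ≤ wt Q E / Q := Nat.cast_div_le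
  rw [wt_succ, Nat.cast_add, add_mul, one_mul, one_div, inv_mul_eq_div]
  linarith

theorem wt_five {Q : ℕ} (hQ : 20 ≤ Q) (E : ℕ) : (wt Q (E + 5) : ℝ) ≤ (1 + 6 / Q) * wt Q E := by
  have q : (20 : ℝ) ≤ Q := by exact_mod_cast hQ
  have h : ∀ d : ℕ, (wt Q (E + d) : ℝ) ≤ (1 + 1 / Q) ^ d * wt Q E := fun d => by
    induction d with
    | zero => simp
    | succ d ih =>
      rw [← add_assoc, pow_succ', mul_assoc]
      exact (wt_up _).trans (mul_le_mul_of_nonneg_left ih (by positivity))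
  refine (h 5).trans (mul_le_mul_of_nonneg_right ?_ (Nat.cast_nonneg _))
  have t0 : (0 : ℝ) ≤ 1 / Q := by positivity
  have t1 : (1 : ℝ) / Q ≤ 1 / 20 := one_div_le_one_div_of_le (by norm_num) q
  rw [show (6 : ℝ) / Q = 6 * (1 / Q) by ring]
  generalize (1 : ℝ) / Q = t at t0 t1
  have t2 : t ^ 2 ≤ t / 20 := by nlinarith
  have t3 : t ^ 3 ≤ t / 400 := by nlinarith
  have t4 : t ^ 4 ≤ t / 8000 := by nlinarith
  have t5 : t ^ 5 ≤ t / 8000 := by nlinarith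
  nlinarith

theorem wt_down {Q : ℕ} (hQ : 1 ≤ Q) (E : ℕ) :
    (wt Q E : ℝ) ≤ (1 - 1 / (3 * Q)) * wt Q (E + 1) := by
  have q : (1 : ℝ) ≤ Q := by exact_mod_cast hQ
  have h1 : (2 * Q : ℝ) ≤ wt Q E := by exact_mod_cast wt_ge Q E
  have h2 : (wt Q E : ℝ) ≤ Q * (wt Q E / Q : ℕ) + Q := by
    have := Nat.lt_mul_div_succ (wt Q E) (show 0 < Q by omega)
    exact_mod_cast (by rw [mul_add, mul_one] at this; omega)
  rw [wt_succ, Nat.cast_add]
  generalize (wt Q E : ℝ) = w at *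
  generalize ((wt Q E / Q : ℕ) : ℝ) = d at *
  rw [show (1 - 1 / (3 * (Q : ℝ))) * (w + d) = ((3 * Q - 1) * (w + d)) / (3 * Q) by field_simp,
    le_div_iff₀ (by positivity)]
  nlinarith

namespace Gp

variable {M : Gp} {S : St} {j q : ℕ}

/-! ### One more round does not change the past -/

theorem nx_σ {s : ℕ} (h : s < j) : (M.nx S j q).σ s = S.σ s := if_neg h.ne

theorem nx_σ' : (M.nx S j q).σ j = q := if_pos rfl

theorem nx_L {r : ℕ} (h : r ≤ j) : (M.nx S j q).L r = S.L r := if_neg (by omega)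

theorem nx_L' : (M.nx S j q).L (j + 1) = M.nL S j q := if_pos rfl

theorem nx_J {s : ℕ} (h : s < j) : (M.nx S j q).J s = S.J s := if_neg h.ne

theorem nx_J' : (M.nx S j q).J j = M.nJ S j q := if_pos rfl

theorem nx_N {r : ℕ} (h : r ≤ j) (p k : ℕ) : M.N (M.nx S j q) p k r = M.N S p k r := by
  funext v u; rw [N, N, nx_L h]

theorem nx_Ov {s : ℕ} (h : s ≤ j) (v p k e f i : ℕ) :
    M.Ov (M.nx S j q) s v p k e f i ↔ M.Ov S s v p k e f i :=
  exists_congr fun r => and_congr_right fun hr => by rw [nx_N (hr.trans h)]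

theorem nx_ovf {s : ℕ} (h : s ≤ j) (p e v : ℕ) : M.ovf (M.nx S j q) s p e v ↔ M.ovf S s p e v :=
  exists_congr fun r => and_congr_right fun hr => by rw [nx_N (hr.trans h)]

theorem nx_bad {s : ℕ} (h : s < j) (e v : ℕ) : M.bad (M.nx S j q) s e v ↔ M.bad S s e v := by
  rw [bad, bad, nx_J h, nx_σ h, nx_ovf h.le]

theorem nx_act {t : ℕ} (h : t ≤ j) (v : ℕ) : M.act (M.nx S j q) t v ↔ M.act S t v :=
  forall_congr' fun s => imp_congr_right fun hs => by rw [nx_bad (hs.trans_le h)]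

theorem nx_run (h : M.Run S j) (q : ℕ) : M.Run (M.nx S j q) (j + 1) := by
  refine ⟨by rw [nx_L (Nat.zero_le _)]; exact h.1, fun t ht v => ?_⟩
  have t1 : t ≤ j := by omega
  have e1 : ∀ p u, M.mrk (M.nx S j q) t p u ↔ M.mrk S t p u := fun p u => by
    rw [mrk, mrk, nx_act t1, nx_L t1]
  have e2 : ∀ p, M.nJ (M.nx S j q) t p v ↔ M.nJ S t p v := fun p => by
    simp only [nJ, e1, nx_ovf t1]
  have e4 : ∀ p, M.warn (M.nx S j q) t p v ↔ M.warn S t p v := fun p => by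
    simp only [warn, nx_ovf t1, nx_N t1]
  have e3 : ∀ p, M.nL (M.nx S j q) t p v = M.nL S t p v := fun p => by
    unfold nL; rw [propext (e4 p), propext (nx_act t1 v), nx_L t1]
  rw [e2, e3]
  rcases t1.eq_or_lt with rfl | k
  · rw [nx_J', nx_σ', nx_L']; exact ⟨Iff.rfl, rfl⟩
  · rw [nx_J k, nx_σ k, nx_L k]; exact h.2 t k v

theorem run_zero (M : Gp) : M.Run s0 0 := ⟨fun _ => rfl, fun _ h => absurd h (Nat.not_lt_zero _)⟩

theorem nx_alive {v : ℕ} : M.alive (M.nx S j q) (j + 1) v ↔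
    M.alive S j v ∧ ¬M.nJ S j q v ∧ ∀ u, M.A v u → ¬M.nJ S j q u := by
  refine ⟨fun h => ⟨fun s hs => ?_, ?_⟩, fun h s hs => ?_⟩
  · rw [← nx_J (q := q) (M := M) hs]; exact h s (by omega)
  · rw [← nx_J']; exact h j (by omega)
  · rcases (Nat.le_of_lt_succ hs).eq_or_lt with rfl | k
    · rw [nx_J']; exact h.2
    · rw [nx_J k]; exact h.1 s k

/-! ### Levels -/

theorem nL_le (t q v : ℕ) : M.nL S t q v ≤ S.L t v + 1 := by unfold nL; split_ifs <;> omega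

theorem nL_ge (t q v : ℕ) : S.L t v ≤ M.nL S t q v + 1 := by unfold nL; split_ifs <;> omega

theorem Run.lip (h : M.Run S j) {r t : ℕ} (hr : r ≤ t) (ht : t ≤ j) (u : ℕ) :
    S.L t u ≤ S.L r u + (t - r) := by
  induction t, hr using Nat.le_induction with
  | base => omega
  | succ t hr ih =>
    have := ih (by omega)
    have := nL_le (M := M) (S := S) t (S.σ t) u
    rw [(h.2 t ht u).2]
    omega

theorem Run.L_le (h : M.Run S j) {t : ℕ} (ht : t ≤ j) (u : ℕ) : S.L t u ≤ t := by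
  have := h.lip (Nat.zero_le t) ht u
  rw [h.1 u] at this
  omega

theorem sm_mono {p k l l' u : ℕ} (hl : l ≤ l' + 1) (h : M.sm p k l' u) : M.sm p (k + 1) l u := by
  unfold sm at *
  calc _ ≤ M.hs p u * 4 ^ (l' + 1) := Nat.mul_le_mul_left _ (Nat.pow_le_pow_right (by omega) hl)
    _ = M.hs p u * 4 ^ l' * 4 := by rw [pow_succ, mul_assoc]
    _ < 4 ^ k * M.md p * 4 := by omega
    _ = _ := by rw [pow_succ]; ring

/-- The sample of the new level is part of the sample of the old level. -/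
theorem N_nx {p k v u : ℕ} (h : M.N (M.nx S j q) p k (j + 1) v u) : M.N S p (k + 1) j v u :=
  ⟨h.1, sm_mono (nL_ge j q u) (by have := h.2; rwa [nx_L'] at this)⟩

theorem Ok.cpos (h : M.Ok) : 0 < M.c := by rw [h.c]; norm_num

theorem Ok.Kpos (h : M.Ok) : 0 < M.K := by rw [h.K]; norm_num

theorem Ok.Q20 (h : M.Ok) : 20 ≤ M.Q := by rw [h.Q]; norm_num

theorem Ok.lt' (h : M.Ok) {u v : ℕ} (k : M.A u v) : u < M.n := h.lt _ _ (h.symm _ _ k)

theorem Ok.ne (h : M.Ok) {u v : ℕ} (k : M.A u v) : u ≠ v := fun e => h.irr v (e ▸ k)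

theorem Ok.th_sm (h : M.Ok) {p l u : ℕ} (k : M.th p l u) : M.sm p 0 l u := by
  unfold th at k
  unfold sm
  rw [pow_zero, one_mul]
  rw [mul_assoc] at k
  exact (Nat.le_mul_of_pos_left _ h.cpos).trans_lt k

/-! ### Slots -/

theorem sl_zero : M.sl 0 = M.K := by simp [sl]

theorem sl_succ (f : ℕ) : M.sl (f + 1) = M.sl f * 512 := by rw [sl, sl, pow_succ, mul_assoc]

theorem Ok.sl_pos (h : M.Ok) (f : ℕ) : 0 < M.sl f := Nat.mul_pos h.Kpos (by positivity)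

theorem Ok.child (h : M.Ok) {f i : ℕ} (hi : i < M.sl f) (a : ℕ) :
    a % M.sl f = i ↔ ∃ b < 512, a % M.sl (f + 1) = i + b * M.sl f := by
  have p := h.sl_pos f
  have e : a % M.sl (f + 1) % M.sl f = a % M.sl f := by
    rw [sl_succ]; exact Nat.mod_mul_right_mod _ _ _
  constructor
  · intro k
    refine ⟨a % M.sl (f + 1) / M.sl f, ?_, ?_⟩
    · rw [Nat.div_lt_iff_lt_mul p, mul_comm, ← sl_succ]; exact Nat.mod_lt _ (h.sl_pos _)
    · rw [← k, ← e, mul_comm]; exact (Nat.mod_add_div _ _).symm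
  · rintro ⟨b, -, k⟩
    rw [← e, k, Nat.add_mul_mod_self_right, Nat.mod_eq_of_lt hi]

theorem child_lt {f i b : ℕ} (hi : i < M.sl f) (hb : b < 512) : i + b * M.sl f < M.sl (f + 1) := by
  rw [sl_succ]
  nlinarith

theorem Ok.ovf_iff (h : M.Ok) (s p e v : ℕ) :
    M.ovf S s p e v ↔ ∃ i < M.K, M.Ov S s v p 0 e 0 i := by
  simp only [ovf, Ov, zero_add, sl_zero]
  exact ⟨fun ⟨r, hr, u, w, a, b, c, d⟩ => ⟨_, Nat.mod_lt _ h.Kpos, r, hr, u, w, a, b, c, d, rfl⟩,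
    fun ⟨_, _, r, hr, u, w, a, b, c, d, _⟩ => ⟨r, hr, u, w, a, b, c, d⟩⟩

theorem arr_one {v p k f i : ℕ} : M.arr S j v p k f i = 1 ↔ M.Ov S j v p k f f i := by
  unfold arr; split_ifs with a b <;> simp [a]

theorem arr_zero {v p k f i : ℕ} : M.arr S j v p k f i = 0 ↔
    ¬M.Ov S j v p k f f i ∧ ¬∃ u, M.N S p k j v u ∧ M.hs p u % M.sl f = i := by
  unfold arr; split_ifs with a b <;> simp only [*] <;> simp

theorem uniq {v p k f i u w : ℕ} (h : ¬M.Ov S j v p k f f i) (a : M.N S p k j v u)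
    (a' : M.hs p u % M.sl f = i) (b : M.N S p k j v w) (b' : M.hs p w % M.sl f = i) : u = w := by
  by_contra e
  exact h ⟨j, le_rfl, u, w, e, by simpa using a, by simpa using b, by simpa using a'.trans b'.symm,
    a'⟩

theorem Ok.arr_elt (h : M.Ok) {v p k f i u : ℕ} : M.arr S j v p k f i = u + 2 ↔
    ¬M.Ov S j v p k f f i ∧ M.N S p k j v u ∧ M.hs p u % M.sl f = i := by
  unfold arr
  split_ifs with a b
  · simp [a]
  · obtain ⟨w, hw⟩ := b
    have s := (lst_spec (P := fun u => M.N S p k j v u ∧ M.hs p u % M.sl f = i)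
      ⟨w, h.lt _ _ hw.1.1, hw⟩).2
    exact ⟨fun e => ⟨a, by rw [← Nat.add_right_cancel e]; exact s⟩,
      fun e => by rw [uniq a s.1 s.2 e.2.1 e.2.2]⟩
  · exact ⟨fun e => absurd e (by simp), fun e => absurd ⟨u, e.2⟩ b⟩

theorem Ok.arr_le (h : M.Ok) (v p k f i : ℕ) : M.arr S j v p k f i ≤ M.n + 1 := by
  unfold arr
  split_ifs with a b
  · omega
  · obtain ⟨w, hw⟩ := b
    have := lst_lt (fun u => M.N S p k j v u ∧ M.hs p u % M.sl f = i)
      (Nat.zero_lt_of_lt (h.lt _ _ hw.1.1))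
    omega
  · omega

theorem cc_act (v : ℕ) : ¬M.cc S j v j ↔ M.act S j v :=
  ⟨fun h s hs k => h ⟨s, hs, by omega, k⟩, fun h ⟨s, hs, _, k⟩ => h s hs k⟩

/-! ### Cut powers -/

theorem it_iter {β : ℕ} {f : ℕ → ℕ} (w : ℕ → ℕ) (hw : ∀ t, w (t + 1) = f (w t)) (e : ℕ)
    (h : ∀ t ≤ e, w t ≤ β) : it β f e (w 0) = w e := by
  induction e with
  | zero => rfl
  | succ e ih =>
    have := ih fun t ht => h t (by omega)
    unfold it at this ⊢
    rw [itr, this, ← hw, min_eq_left (h _ le_rfl)]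

theorem cp_eq {b e : ℕ} (hb : 1 ≤ b) (h : b ^ e ≤ M.β) : M.cp b e = b ^ e :=
  it_iter (fun t => b ^ t) (fun _ => pow_succ _ _) e fun _ ht =>
    (Nat.pow_le_pow_right hb ht).trans h

theorem Ok.cp (h : M.Ok) {b e : ℕ} (h1 : 1 ≤ b) (h2 : b ≤ 512) (he : e ≤ 2 * M.T + 1) :
    M.cp b e = b ^ e :=
  cp_eq h1 ((Nat.pow_le_pow_left h2 e).trans ((Nat.pow_le_pow_right (by omega) he).trans
    ((Nat.le_mul_of_pos_left _ h.Kpos).trans h.big)))

theorem Ok.slP (h : M.Ok) {f : ℕ} (hf : f ≤ 2 * M.T + 1) : M.slP f = M.sl f := by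
  rw [Gp.slP, sl, h.cp (by omega) le_rfl hf]

theorem Ok.smP (h : M.Ok) {k l : ℕ} (hk : k ≤ 2 * M.T + 1) (hl : l ≤ 2 * M.T + 1) (p u : ℕ) :
    M.smP p k l u ↔ M.sm p k l u := by
  rw [Gp.smP, sm, h.cp (by omega) (by omega) hk, h.cp (by omega) (by omega) hl]

theorem Ok.sl_le (h : M.Ok) {f : ℕ} (hf : f ≤ 2 * M.T + 1) : M.sl f ≤ M.β :=
  (Nat.mul_le_mul_left _ (Nat.pow_le_pow_right (by omega) hf)).trans h.big

theorem Ok.Tb (h : M.Ok) : 2 * M.T + 1 ≤ M.β :=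
  (Nat.lt_pow_self (by omega : 1 < 512)).le.trans ((Nat.le_mul_of_pos_left _ h.Kpos).trans h.big)

theorem ask_nrm (F : List ℕ → ℕ) {t a b c d e : ℕ} (ht : t ≤ M.β) (ha : a ≤ M.β) (hb : b ≤ M.β)
    (hc : c ≤ M.β) (hd : d ≤ M.β) (he : e ≤ M.β) :
    M.ask (nrm 6 M.β F) t a b c d e = min M.β (F [t, a, b, c, d, e]) := by
  simp [ask, nrm, tab, gt, List.range_succ, *]

/-! ### Masses -/

theorem xr_pos (j u : ℕ) : 0 < xr S j u := by unfold xr; positivity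

theorem xr_le (j u : ℕ) : xr S j u ≤ 1 := by
  unfold xr; rw [div_le_one (by positivity)]; exact one_le_pow₀ (by norm_num)

theorem xr_nx (u : ℕ) : xr (M.nx S j q) (j + 1) u ≤ 4 * xr S j u := by
  unfold xr
  rw [nx_L', mul_one_div, div_le_div_iff₀ (by positivity) (by positivity), one_mul, ← pow_succ']
  exact pow_le_pow_right₀ (by norm_num) (nL_ge j q u)

theorem xr_nx' {u : ℕ} (h : ¬(M.act S j u ∧ ¬M.warn S j q u)) :
    xr (M.nx S j q) (j + 1) u = xr S j u / 4 := by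
  unfold xr; rw [nx_L', nL, if_neg h, pow_succ, div_div]

theorem mr_nonneg (j v : ℕ) : 0 ≤ M.mr S j v :=
  sum_nonneg fun u _ => by split_ifs; exacts [(xr_pos _ _).le, le_rfl]

theorem hm_nonneg (j v : ℕ) : 0 ≤ M.hm S j v :=
  sum_nonneg fun u _ => by split_ifs; exacts [(xr_pos _ _).le, le_rfl]

theorem mr_le (j v : ℕ) : M.mr S j v ≤ M.n :=
  (sum_le_card_nsmul _ _ 1 fun u _ => by split_ifs; exacts [xr_le _ _, zero_le_one]).trans
    (by simp)

theorem mr_nx (v : ℕ) : M.mr (M.nx S j q) (j + 1) v ≤ 4 * M.mr S j v := by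
  unfold mr
  rw [mul_sum]
  exact sum_le_sum fun u _ => by split_ifs; exacts [xr_nx u, by simp]

theorem mr_filter (j v : ℕ) : M.mr S j v = ∑ u ∈ (range M.n).filter (M.A v), xr S j u :=
  (sum_filter _ _).symm

theorem Zok.mono {v z z' : ℕ} (h : M.Zok S j v z) (k : z ≤ z') : M.Zok S j v z' :=
  ⟨h.1.trans_le (pow_le_pow_right₀ (by norm_num) k), fun s hs e he o =>
    (h.2 s hs e he o).trans (by omega)⟩

theorem Z_le {v z : ℕ} (h : M.Zok S j v z) : M.Z S j v ≤ z := Nat.sInf_le h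

theorem Z_ok (j v : ℕ) : M.Zok S j v (M.Z S j v) := by
  refine Nat.sInf_mem (s := {z | M.Zok S j v z}) ⟨512 * M.n + 2 * M.T + 2, ?_, fun s hs e he _ => by
    omega⟩
  have h1 : 512 * M.n + 2 * M.T + 2 < 2 ^ (512 * M.n + 2 * M.T + 2) := Nat.lt_two_pow_self
  have h2 : ((512 * M.n : ℕ) : ℝ) < (2 ^ (512 * M.n + 2 * M.T + 2) : ℕ) := by
    exact_mod_cast (by omega)
  push_cast at h2
  linarith [mr_le (M := M) (S := S) j v]

theorem act_of {v : ℕ} (hj : j ≤ M.T) (h : M.alive S j v) (hz : M.Z S j v = 0) : M.act S j v := by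
  rintro s hs (k | k | ⟨u, a, k⟩)
  · exact (h s hs).1 k
  · have := (Z_ok (M := M) (S := S) j v).2 s hs _ (by omega) k
    omega
  · exact (h s hs).2 u a k

end Gp

end Pool.Agent.MP_1a6d78_lc.MI
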