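import Mathlib.Tactic.Ring
import Pool.Agent.MP_1a6d78_lc.MI.Basic

/-! PROJECT MIS, row COLL: the probability of an overflow. -/

namespace Pool.Agent.MP_1a6d78_lc.MI

open Classical ED PR SC Finset

namespace CollX

theorem geo (j : ℕ) : ∑ r ∈ range (j + 1), (1 / 2 : ℝ) ^ (j - r) ≤ 2 := by
  have h : ∀ n : ℕ, ∑ k ∈ range n, (1 / 2 : ℝ) ^ k = 2 - 2 * (1 / 2) ^ n := fun n => by
    induction n with
    | zero => simp
    | succ n ih => rw [sum_range_succ, ih, pow_succ]; ring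
  have e := sum_range_reflect (fun k => (1 / 2 : ℝ) ^ k) (j + 1)
  simp only [Nat.add_sub_cancel] at e
  rw [e, h]
  have : (0 : ℝ) ≤ (1 / 2) ^ (j + 1) := by positivity
  linarith

/-- Three independent values. -/
theorem three {P : ℕ} (D E : ℕ → Prop) (F : ℕ → ℕ → Prop) {α β : ℝ} (hβ : 0 ≤ β)
    (h1 : pr (range P) E ≤ α) (h2 : ∀ b, pr (range P) (F b) ≤ β) :
    (ex (range P) fun a => ex (range P) fun b => ex (range P) fun c => ind (D a ∧ E b ∧ F b c)) ≤
      pr (range P) D * (α * β) := by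
  rw [pr, ← ex_mul']
  refine ex_mono fun a _ => ?_
  have e : ∀ b, (ex (range P) fun c => ind (D a ∧ E b ∧ F b c)) =
      ind (D a) * (ind (E b) * pr (range P) (F b)) := fun b => by
    simp only [ind_and]
    rw [ex_mul, ex_mul]; rfl
  simp only [e]
  rw [ex_mul]
  refine mul_le_mul_of_nonneg_left ?_ (ind_nonneg _)
  refine (ex_mono (g := fun b => ind (E b) * β) fun b _ =>
    mul_le_mul_of_nonneg_left (h2 b) (ind_nonneg _)).trans ?_
  rw [ex_mul']
  exact mul_le_mul_of_nonneg_right h1 hβ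

variable {M : Gp} {S : St} {j : ℕ} {Ω : Finset ℕ} {P : ℕ}

theorem lev (H : Hy M S j Ω P) {r : ℕ} (hr : r ≤ j) (u : ℕ) :
    (4 : ℝ) ^ (j - r) / 4 ^ S.L r u ≤ 16 ^ (j - r) * Gp.xr S j u := by
  have h := H.run.lip hr le_rfl u
  unfold Gp.xr
  rw [mul_one_div, div_le_div_iff₀ (by positivity) (by positivity),
    show (16 : ℝ) = 4 * 4 by norm_num, mul_pow, mul_assoc, ← pow_add (4 : ℝ) (j - r) (S.L r u)]
  exact mul_le_mul_of_nonneg_left (pow_le_pow_right₀ (by norm_num) (by omega)) (by positivity)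

theorem big (H : Hy M S j Ω P) {e k : ℕ} (he : e ≤ M.T) (hk : k ≤ j) (u : ℕ) :
    (M.sl (e + k) : ℝ) ≤ 16 ^ k * Gp.xr S j u * P := by
  have hj := H.hj
  have h1 : M.sl (e + k) * 4 ^ S.L j u ≤ P := by
    refine le_trans ?_ H.ind.big
    refine Nat.mul_le_mul ?_ (Nat.pow_le_pow_right (by omega)
      ((H.run.L_le le_rfl u).trans hj.le))
    rw [Gp.sl]
    exact Nat.mul_le_mul (Nat.le_mul_of_pos_left _ H.ok.cpos)
      (Nat.pow_le_pow_right (by omega) (by omega))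
  have h2 : (M.sl (e + k) : ℝ) * 4 ^ S.L j u ≤ P := by exact_mod_cast h1
  have h3 : (M.sl (e + k) : ℝ) ≤ Gp.xr S j u * P := by
    unfold Gp.xr
    rw [one_div, inv_mul_eq_div, le_div_iff₀ (by positivity)]
    exact h2
  rw [mul_assoc]
  exact h3.trans (le_mul_of_one_le_left ((Nat.cast_nonneg _).trans h3)
    (one_le_pow₀ (by norm_num)))

theorem term (h1 : CntS) (H : Hy M S j Ω P) {v u w e r : ℕ} (hv : v < M.n) (he : e ≤ M.T)
    (hr : r ≤ j) (D : ℕ → Prop) :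
    pr Ω (fun q => D (M.hs q v) ∧ u ≠ w ∧ M.N S q (j - r) r v u ∧ M.N S q (j - r) r v w ∧
      M.hs q u % M.sl (e + (j - r)) = M.hs q w % M.sl (e + (j - r))) ≤
      pr Ω (fun q => D (M.hs q v)) * (6 / (M.K * 512 ^ e)) * (1 / 2) ^ (j - r) *
        ((if M.A v u then Gp.xr S j u else 0) * if M.A v w then Gp.xr S j w else 0) := by
  have xu := Gp.xr_pos (S := S) j u
  have xw := Gp.xr_pos (S := S) j w
  have p0 := pr_nonneg Ω fun q => D (M.hs q v)
  by_cases k : u ≠ w ∧ M.A v u ∧ M.A v w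
  swap
  · rw [pr_false fun q _ h => k ⟨h.2.1, h.2.2.1.1, h.2.2.2.1.1⟩]
    refine mul_nonneg (by positivity) (mul_nonneg ?_ ?_) <;> split_ifs <;> positivity
  obtain ⟨k1, k2, k3⟩ := k
  rw [if_pos k2, if_pos k3]
  have sp := H.ok.sl_pos (e + (j - r))
  have c1 := (h1 P _ 0 (S.L r u) (j - r) _ sp (big H he (Nat.sub_le j r) u) (lev H hr u)).1
  have c2 := fun a => (h1 P _ a (S.L r w) (j - r) _ sp (big H he (Nat.sub_le j r) w) (lev H hr w)).2
  have t := three D _ (fun a b => b * 4 ^ S.L r w < 4 ^ (j - r) * P ∧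
    a % M.sl (e + (j - r)) = b % M.sl (e + (j - r))) (by positivity) c1 c2
  rw [← H.ind.three v hv u (H.ok.lt _ _ k2) w (H.ok.lt _ _ k3) (H.ok.ne k2) (H.ok.ne k3) k1
    fun a b c => ind (D a ∧ b * 4 ^ S.L r u < 4 ^ (j - r) * P ∧
      c * 4 ^ S.L r w < 4 ^ (j - r) * P ∧ b % M.sl (e + (j - r)) = c % M.sl (e + (j - r)))] at t
  have o : pr (range P) D = pr Ω fun q => D (M.hs q v) :=
    (H.ind.one v hv fun a => ind (D a)).symm
  rw [o] at t
  refine (pr_mono fun q hq h => ?_).trans (t.trans (le_of_eq ?_))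
  · have a := h.2.2.1.2
    have b := h.2.2.2.1.2
    rw [Gp.sm, H.ind.md q hq] at a b
    exact ⟨h.1, a, b, h.2.2.2.2⟩
  · have hK : (0 : ℝ) < M.K := Nat.cast_pos.2 H.ok.Kpos
    have e1 : (512 : ℝ) ^ (j - r) = 16 ^ (j - r) * 16 ^ (j - r) * 2 ^ (j - r) := by
      rw [← mul_pow, ← mul_pow]; norm_num
    rw [Gp.sl, Nat.cast_mul, Nat.cast_pow, Nat.cast_ofNat, pow_add, e1, one_div_pow]
    field_simp
    ring

end CollX

open CollX in
theorem collS (h1 : CntS) : CollS := by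
  intro M S j Ω P H v hv e he D
  have hK : (0 : ℝ) < M.K := Nat.cast_pos.2 H.ok.Kpos
  have p0 := pr_nonneg Ω fun q => D (M.hs q v)
  refine (pr_mono (F := fun q => ∃ r ∈ range (j + 1), ∃ u ∈ range M.n, ∃ w ∈ range M.n,
    D (M.hs q v) ∧ u ≠ w ∧ M.N S q (j - r) r v u ∧ M.N S q (j - r) r v w ∧
      M.hs q u % M.sl (e + (j - r)) = M.hs q w % M.sl (e + (j - r))) ?_).trans ?_
  · rintro q - ⟨d, r, hr, u, w, a, b, c, k⟩
    exact ⟨r, mem_range.2 (by omega), u, mem_range.2 (H.ok.lt _ _ b.1), w,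
      mem_range.2 (H.ok.lt _ _ c.1), d, a, b, c, k⟩
  refine (pr_ex _ _).trans ((sum_le_sum (g := fun r => pr Ω (fun q => D (M.hs q v)) *
    (6 / (M.K * 512 ^ e)) * M.mr S j v ^ 2 * (1 / 2) ^ (j - r)) fun r hr => ?_).trans ?_)
  · have hr' : r ≤ j := Nat.le_of_lt_succ (mem_range.1 hr)
    refine (pr_ex _ _).trans ((sum_le_sum fun u _ => (pr_ex _ _).trans
      (sum_le_sum fun w _ => term h1 H hv he hr' D)).trans (le_of_eq ?_))
    simp only [← mul_sum, ← sum_mul]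
    rw [Gp.mr]
    ring
  · rw [← mul_sum]
    refine (mul_le_mul_of_nonneg_left (geo j) (by positivity)).trans (le_of_eq ?_)
    ring

end Pool.Agent.MP_1a6d78_lc.MI
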