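import Pool.Agent.MP_1a6d78_lc.MI.Basic

/-! PROJECT MIS, row GOLD: a golden vertex dies with probability at least `2 ^ (-34)`. -/

namespace Pool.Agent.MP_1a6d78_lc.MI

open Classical Finset

namespace GoldX

theorem fin_ineq {ρ a b : ℝ} (h0 : 1 / 2 ^ 32 ≤ ρ) (ha : 53 / 64 * ρ ≤ a) (hb : b ≤ ρ + ρ ^ 2) :
    1 - 1 / (1 + ρ) * a + (1 / (1 + ρ)) ^ 2 / 4 * b ≤ 1 - 1 / 2 ^ 34 := by
  have p : 0 < ρ := lt_of_lt_of_le (by norm_num) h0
  have p1 : 0 < 1 + ρ := by linarith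
  have l0 : 0 < 1 / (1 + ρ) := by positivity
  have e1 : 1 / (1 + ρ) * (53 / 64 * ρ) ≤ 1 / (1 + ρ) * a := mul_le_mul_of_nonneg_left ha l0.le
  have e2 : (1 / (1 + ρ)) ^ 2 / 4 * b ≤ (1 / (1 + ρ)) ^ 2 / 4 * (ρ + ρ ^ 2) :=
    mul_le_mul_of_nonneg_left hb (by positivity)
  have e3 : (1 / (1 + ρ)) ^ 2 / 4 * (ρ + ρ ^ 2) = 1 / (1 + ρ) * ρ / 4 := by
    field_simp
  have e4 : (1 : ℝ) / 2 ^ 33 ≤ 1 / (1 + ρ) * ρ := by
    rw [one_div_mul_eq_div, le_div_iff₀ p1]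
    linarith
  have e5 : 1 / (1 + ρ) * (53 / 64 * ρ) = 53 / 64 * (1 / (1 + ρ) * ρ) := by ring
  generalize 1 / (1 + ρ) * ρ = t at *
  linarith

theorem loss {M : Gp} (h : M.Ok) {m : ℝ} (h0 : 0 ≤ m) (h1 : m < 4096) :
    53 / 64 ≤ 1 - 2 * m / M.c - 12 * m ^ 2 / M.K := by
  rw [h.c, h.K]
  push_cast
  have : m ^ 2 ≤ 4096 ^ 2 := pow_le_pow_left₀ h0 h1.le 2
  linarith

end GoldX

open GoldX Gp

theorem goldS (h1 : ThrS) (h2 : SecS) (h3 : JoinS) : GoldS := by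
  intro M S j Ω P H v hv ha hg
  have T := h1 M S j Ω P H
  have J := (h3 M S j Ω P H).join
  have ne := H.ind.ne
  have cc : (M.c : ℝ) = 2 ^ 16 := by rw [H.ok.c]; norm_num
  rcases hg with ⟨g1, g2⟩ | ⟨g1, g2⟩
  · set F := (range M.n).filter fun u => M.A v u ∧ M.act S j u ∧ M.mr S j u < 4096 with hF
    let D : ℕ → ℕ → Prop := fun u a => M.c * a * 4 ^ S.L j u < P
    have eD : ∀ q ∈ Ω, ∀ u, D u (M.hs q u) ↔ M.th q (S.L j u) u := fun q k u => by
      rw [Gp.th, H.ind.md q k]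
    have eP : ∀ u, pr Ω (fun q => D u (M.hs q u)) = pr Ω fun q => M.th q (S.L j u) u :=
      fun u => pr_congr fun q k => eD q k u
    set ρ := ∑ u ∈ F, pr Ω (fun q => D u (M.hs q u)) with hρ
    have s2 := ((h2 M Ω P H.ind D).2 F (filter_subset _ _) ρ hρ).1
    have r0 : 1 / 2 ^ 32 ≤ ρ := by
      have a : M.hm S j v / M.c ≤ ρ := by
        rw [Gp.hm, ← sum_filter, sum_div]
        refine sum_le_sum fun u hu => ?_
        rw [eP]
        exact (T u (mem_range.1 (mem_filter.1 hu).1)).2.1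
      rw [cc] at a
      linarith
    have s1 : 53 / 64 * ρ ≤ ex Ω fun q => ∑ u ∈ F, ind (M.nJ S j q u) := by
      rw [ex_sum F fun u q => ind (M.nJ S j q u), hρ, mul_sum]
      refine sum_le_sum fun u hu => ?_
      obtain ⟨a, -, b, c⟩ := mem_filter.1 hu
      rw [eP, mul_comm]
      exact (mul_le_mul_of_nonneg_left (loss H.ok (mr_nonneg _ _) c) (pr_nonneg _ _)).trans
        (J u (mem_range.1 a) b)
    refine le_trans ?_ (fin_ineq r0 s1 s2)
    generalize 1 / (1 + ρ) = l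
    rw [← ex_mul, ← ex_mul]
    refine le_trans ?_ (le_of_eq (by rw [ex_add, ex_sub, ex_const ne] :
      ex Ω (fun q => 1 - l * ∑ u ∈ F, ind (M.nJ S j q u) +
        l ^ 2 / 4 * (∑ u ∈ F, ind (D u (M.hs q u))) ^ 2) = _))
    refine ex_mono fun q k => ?_
    have x0 : 0 ≤ ∑ u ∈ F, ind (M.nJ S j q u) := sum_nonneg fun _ _ => ind_nonneg _
    have xy : ∑ u ∈ F, ind (M.nJ S j q u) ≤ ∑ u ∈ F, ind (D u (M.hs q u)) :=
      sum_le_sum fun u _ => ind_mono fun e => (eD q k u).2 e.1.2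
    have sq := mul_le_mul_of_nonneg_left (pow_le_pow_left₀ x0 xy 2)
      (show 0 ≤ l ^ 2 / 4 by positivity)
    by_cases e : M.alive (M.nx S j q) (j + 1) v
    · have z : ∑ u ∈ F, ind (M.nJ S j q u) = 0 :=
        sum_eq_zero fun u hu => ind_neg ((nx_alive.1 e).2.2 u (mem_filter.1 hu).2.1)
      rw [ind_pos e]
      rw [z] at sq ⊢
      nlinarith
    · rw [ind_neg e]
      nlinarith [sq_nonneg (1 - l * (∑ u ∈ F, ind (M.nJ S j q u)) / 2)]
  · have a := J v hv (act_of H.hj.le ha g1)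
    have m := (Z_ok (M := M) (S := S) j v).1
    rw [g1, pow_zero] at m
    have b := (T v hv).2.1
    have x : Gp.xr S j v = 1 := by rw [Gp.xr, g2]; norm_num
    rw [x, cc] at b
    have c := (mul_le_mul_of_nonneg_left (loss H.ok (mr_nonneg j v) (by linarith))
      (pr_nonneg Ω fun q => M.th q (S.L j v) v)).trans a
    have d : pr Ω (fun q => M.alive (M.nx S j q) (j + 1) v) ≤ pr Ω fun q => ¬M.nJ S j q v :=
      pr_mono fun q _ e => (nx_alive.1 e).2.1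
    rw [pr_not ne] at d
    linarith

end Pool.Agent.MP_1a6d78_lc.MI
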