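import Mathlib.NumberTheory.Bertrand
import Mathlib.Algebra.Field.ZMod
import Mathlib.Tactic.LinearCombination
import Pool.Agent.MP_1a6d78_lc.MI.Basic

/-! PROJECT MIS: quadratic polynomials modulo a prime are three-wise independent. -/

namespace Pool.Agent.MP_1a6d78_lc.MI

open Classical Finset

namespace IndX

/-- The seed with digits `P, a, b, c`. -/
def enc (R P : ℕ) (t : ℕ × ℕ × ℕ) : ℕ := P + R * (t.1 + R * (t.2.1 + R * t.2.2))

/-- The triples below `P`. -/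
def box (P : ℕ) : Finset (ℕ × ℕ × ℕ) := range P ×ˢ range P ×ˢ range P

/-- The value of the quadratic polynomial. -/
def hv (P : ℕ) (t : ℕ × ℕ × ℕ) (u : ℕ) : ℕ := (t.1 * u ^ 2 + t.2.1 * u + t.2.2) % P

theorem mem_box {P : ℕ} {t : ℕ × ℕ × ℕ} : t ∈ box P ↔ t.1 < P ∧ t.2.1 < P ∧ t.2.2 < P := by
  simp [box]

theorem dig {R x : ℕ} (h : x < R) (y : ℕ) : (x + R * y) % R = x ∧ (x + R * y) / R = y :=
  ⟨by rw [Nat.add_mul_mod_self_left, Nat.mod_eq_of_lt h],
    by rw [Nat.add_mul_div_left _ _ (by omega), Nat.div_eq_of_lt h, zero_add]⟩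

theorem digits {R P : ℕ} (h : P < R) {t : ℕ × ℕ × ℕ} (ht : t ∈ box P) :
    enc R P t % R = P ∧ enc R P t / R % R = t.1 ∧ enc R P t / R ^ 2 % R = t.2.1 ∧
      enc R P t / R ^ 3 = t.2.2 := by
  obtain ⟨h1, h2, -⟩ := mem_box.1 ht
  rw [pow_succ R 2, ← Nat.div_div_eq_div_mul, pow_two, ← Nat.div_div_eq_div_mul, enc,
    (dig h _).1, (dig h _).2, (dig (h1.trans h) _).1, (dig (h1.trans h) _).2,
    (dig (h2.trans h) _).1, (dig (h2.trans h) _).2]
  exact ⟨rfl, rfl, rfl, rfl⟩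

theorem enc_lt {R P : ℕ} (h : P < R) {t : ℕ × ℕ × ℕ} (ht : t ∈ box P) : enc R P t < R ^ 4 := by
  have h1 := (digits h ht).2.2.2
  rw [pow_succ' R 3, ← Nat.div_lt_iff_lt_mul (Nat.pow_pos (by omega)), h1]
  exact (mem_box.1 ht).2.2.trans h

theorem enc_inj {R P : ℕ} (h : P < R) : Set.InjOn (enc R P) (box P) := fun t ht s hs e => by
  obtain ⟨-, a1, a2, a3⟩ := digits h ht
  obtain ⟨-, b1, b2, b3⟩ := digits h hs
  rw [e] at a1 a2 a3
  exact Prod.ext (a1.symm.trans b1) (Prod.ext (a2.symm.trans b2) (a3.symm.trans b3))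

theorem hv_inj {P : ℕ} (hP : P.Prime) {u w z : ℕ} (hu : u < P) (hw : w < P) (hz : z < P)
    (h1 : u ≠ w) (h2 : u ≠ z) (h3 : w ≠ z) :
    Set.InjOn (fun t => (hv P t u, hv P t w, hv P t z)) (box P) := fun t ht s hs e => by
  have := Fact.mk hP
  have c : ∀ {x y : ℕ}, x < P → y < P → (x : ZMod P) = y → x = y := fun hx hy k => by
    rwa [ZMod.natCast_eq_natCast_iff', Nat.mod_eq_of_lt hx, Nat.mod_eq_of_lt hy] at k
  have d : ∀ {x y : ℕ}, x < P → y < P → x ≠ y → (x : ZMod P) - y ≠ 0 := fun hx hy k k' =>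
    k (c hx hy (sub_eq_zero.1 k'))
  have v : ∀ {x : ℕ}, hv P t x = hv P s x → (t.1 : ZMod P) * x ^ 2 + t.2.1 * x + t.2.2 =
      s.1 * x ^ 2 + s.2.1 * x + s.2.2 := fun k => by
    exact_mod_cast (ZMod.natCast_eq_natCast_iff' _ _ _).2 k
  simp only [Prod.mk.injEq] at e
  have e1 := v e.1
  have e2 := v e.2.1
  have e3 := v e.2.2
  have f1 : ((t.1 : ZMod P) - s.1) * (u + w) + (t.2.1 - s.2.1) = 0 :=
    (mul_eq_zero_iff_left (d hu hw h1)).1 (by linear_combination e1 - e2)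
  have f2 : ((t.1 : ZMod P) - s.1) * (u + z) + (t.2.1 - s.2.1) = 0 :=
    (mul_eq_zero_iff_left (d hu hz h2)).1 (by linear_combination e1 - e3)
  have g1 : (t.1 : ZMod P) - s.1 = 0 :=
    (mul_eq_zero_iff_left (d hw hz h3)).1 (by linear_combination f1 - f2)
  have g2 : (t.2.1 : ZMod P) = s.2.1 := by linear_combination f1 - (u + w) * g1
  have g3 : (t.2.2 : ZMod P) = s.2.2 := by linear_combination e1 - u ^ 2 * g1 - u * g2
  obtain ⟨a1, a2, a3⟩ := mem_box.1 ht
  obtain ⟨b1, b2, b3⟩ := mem_box.1 hs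
  exact Prod.ext (c a1 b1 (sub_eq_zero.1 g1)) (Prod.ext (c a2 b2 g2) (c a3 b3 g3))

theorem three (M : Gp) {P : ℕ} (hP : P.Prime) (h : P < M.R) {u w z : ℕ} (hu : u < P) (hw : w < P)
    (hz : z < P) (h1 : u ≠ w) (h2 : u ≠ z) (h3 : w ≠ z) (f : ℕ → ℕ → ℕ → ℝ) :
    ex ((box P).image (enc M.R P)) (fun q => f (M.hs q u) (M.hs q w) (M.hs q z)) =
      ex (range P) fun a => ex (range P) fun b => ex (range P) (f a b) := by
  have e : ∀ t ∈ box P, ∀ x, M.hs (enc M.R P t) x = hv P t x := fun t ht x => by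
    obtain ⟨a0, a1, a2, a3⟩ := digits h ht
    rw [Gp.hs, a0, a1, a2, a3, hv]
  have i := hv_inj hP hu hw hz h1 h2 h3
  have b : (box P).image (fun t => (hv P t u, hv P t w, hv P t z)) = box P :=
    eq_of_subset_of_card_le (image_subset_iff.2 fun t _ => mem_box.2
      ⟨Nat.mod_lt _ hP.pos, Nat.mod_lt _ hP.pos, Nat.mod_lt _ hP.pos⟩) (card_image_of_injOn i).ge
  have s := sum_image (f := fun t : ℕ × ℕ × ℕ => f t.1 t.2.1 t.2.2) i
  rw [b] at s
  unfold ex
  rw [sum_image (enc_inj h), card_image_of_injOn (enc_inj h),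
    sum_congr rfl fun t ht => by rw [e t ht, e t ht, e t ht], ← s, box]
  simp only [sum_product, card_product, card_range, ← sum_div, div_div, Nat.cast_mul, mul_assoc]

end IndX

open IndX in
theorem indS : IndS := fun M hM => by
  obtain ⟨P, hP, h1, h2⟩ := Nat.exists_prime_lt_and_le_two_mul
    (M.c * M.K * 512 ^ (2 * M.T) * 4 ^ M.T + M.n + 3) (by omega)
  have h : P < M.R := h2.trans_lt hM
  have ne : (range P).Nonempty := ⟨0, mem_range.2 hP.pos⟩
  refine ⟨(box P).image (enc M.R P), P, ⟨⟨_, mem_image_of_mem _ (mem_box (t := (0, 0, 0)).2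
    ⟨hP.pos, hP.pos, hP.pos⟩)⟩, fun q hq => ?_, fun q hq => ?_, by omega, fun u hu f => ?_,
    fun u hu w hw k f => ?_, fun u hu w hw z hz k1 k2 k3 f =>
      three M hP h (by omega) (by omega) (by omega) k1 k2 k3 f⟩⟩
  · obtain ⟨t, ht, rfl⟩ := mem_image.1 hq
    exact (digits h ht).1
  · obtain ⟨t, ht, rfl⟩ := mem_image.1 hq
    exact enc_lt h ht
  · have := three M hP h (u := u) (w := M.n) (z := M.n + 1) (by omega) (by omega) (by omega)
      (by omega) (by omega) (by omega) fun a _ _ => f a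
    simpa only [ex_const ne] using this
  · have := three M hP h (u := u) (w := w) (z := M.n) (by omega) (by omega) (by omega) k
      (by omega) (by omega) fun a b _ => f a b
    simpa only [ex_const ne] using this

end Pool.Agent.MP_1a6d78_lc.MI
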