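import Pool.Agent.MP_1a6d78_lc.MI.Basic

/-! PROJECT MIS: the probabilities of joining, of a warning and of silence. -/

namespace Pool.Agent.MP_1a6d78_lc.MI

open Classical ED PR SC Finset

theorem joinS (h1 : ThrS) (h2 : SecS) (h3 : CollS) : JoinS := by
  intro M S j Ω P H
  have md := H.ind.md
  have mem : ∀ {u w}, M.A u w → w ∈ (range M.n).filter (M.A u) := fun k =>
    mem_filter.2 ⟨mem_range.2 (H.ok.lt _ _ k), k⟩
  have eT : ∀ u, ∀ q ∈ Ω, M.th q (S.L j u) u ↔ M.c * M.hs q u * 4 ^ S.L j u < P :=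
    fun u q k => by rw [Gp.th, md q k]
  have eS : ∀ u, ∀ q ∈ Ω, M.sm q 0 (S.L j u) u ↔ M.hs q u * 4 ^ S.L j u < 4 ^ 0 * P :=
    fun u q k => by rw [Gp.sm, md q k]
  refine ⟨fun u hu ha => ?_, fun v hv => ?_, fun u hu => ?_⟩
  · have a1 : pr Ω (fun q => M.th q (S.L j u) u) ≤ pr Ω fun q => M.nJ S j q u ∨
        (M.c * M.hs q u * 4 ^ S.L j u < P ∧ M.ovf S j q 0 u) ∨ ∃ w ∈ (range M.n).filter (M.A u),
          M.c * M.hs q u * 4 ^ S.L j u < P ∧ M.c * M.hs q w * 4 ^ S.L j w < P :=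
      pr_mono fun q k t => by
        by_contra hn
        push Not at hn
        exact hn.1 ⟨⟨ha, t⟩, hn.2.1 ((eT u q k).1 t), fun w a m =>
          (hn.2.2 w (mem a) ((eT u q k).1 t)).not_gt ((eT w q k).1 m.2)⟩
    have a2 := h3 M S j Ω P H u hu 0 (Nat.zero_le _) fun a => M.c * a * 4 ^ S.L j u < P
    have a3 : ∑ w ∈ (range M.n).filter (M.A u), pr Ω (fun q =>
        M.c * M.hs q u * 4 ^ S.L j u < P ∧ M.c * M.hs q w * 4 ^ S.L j w < P) ≤
        pr Ω (fun q => M.th q (S.L j u) u) * (2 * M.mr S j u / M.c) := by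
      rw [Gp.mr_filter, mul_sum, sum_div, mul_sum]
      refine sum_le_sum fun w hw => ?_
      obtain ⟨w1, w2⟩ := mem_filter.1 hw
      rw [(h2 M Ω P H.ind fun x a => M.c * a * 4 ^ S.L j x < P).1 u hu w (mem_range.1 w1)
        (H.ok.ne w2), ← pr_congr (eT u), ← pr_congr (eT w)]
      exact mul_le_mul_of_nonneg_left (h1 M S j Ω P H w (mem_range.1 w1)).2.2 (pr_nonneg _ _)
    rw [← pr_congr (eT u), pow_zero, mul_one] at a2
    have a4 := a1.trans ((pr_or _ _).trans (add_le_add le_rfl ((pr_or _ _).trans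
      (add_le_add a2 ((pr_ex _ _).trans a3)))))
    linarith
  · have a1 : pr Ω (fun q => M.warn S j q v) ≤ pr Ω fun q => (True ∧ M.ovf S j q 0 v) ∨
        ∃ w ∈ (range M.n).filter (M.A v), M.sm q 0 (S.L j w) w :=
      pr_mono fun q _ t => t.imp (fun o => ⟨trivial, o⟩) fun ⟨w, a, b⟩ => ⟨w, mem a, b⟩
    have a2 := h3 M S j Ω P H v hv 0 (Nat.zero_le _) fun _ => True
    have a3 : ∑ w ∈ (range M.n).filter (M.A v), pr Ω (fun q => M.sm q 0 (S.L j w) w) ≤
        2 * M.mr S j v := by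
      rw [Gp.mr_filter, mul_sum]
      exact sum_le_sum fun w hw => (h1 M S j Ω P H w (mem_range.1 (mem_filter.1 hw).1)).1.2
    rw [pr_true H.ind.ne, pow_zero, mul_one, one_mul] at a2
    have a4 := a1.trans ((pr_or _ _).trans (add_le_add a2 ((pr_ex _ _).trans a3)))
    linarith
  · refine le_trans (mul_le_mul (pr_mono fun q k t w hw b => ?_) ?_ (Gp.mr_nonneg _ _)
      (pr_nonneg _ _)) ((h2 M Ω P H.ind fun x a => a * 4 ^ S.L j x < 4 ^ 0 * P).2
        ((range M.n).filter (M.A u)) (filter_subset _ _) _ rfl).2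
    · exact t (Or.inr ⟨w, (mem_filter.1 hw).2, (eS w q k).2 b⟩)
    · rw [Gp.mr_filter]
      refine sum_le_sum fun w hw => ?_
      rw [← pr_congr (eS w)]
      exact (h1 M S j Ω P H w (mem_range.1 (mem_filter.1 hw).1)).1.1

end Pool.Agent.MP_1a6d78_lc.MI
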