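import Pool.Agent.MP_1a6d78_lc.MI.Basic

/-! PROJECT MIS, row PAG: the programs for the aggregated bad events. -/

namespace Pool.Agent.MP_1a6d78_lc.MI

open Classical ED PR SC Finset Gp

namespace PAgX

variable {M : Gp} {S : St} {j q v : ℕ} {g : Orc}

theorem top (c : M.Cx S j g q) (k : LocK M S j g q) (hv : v < M.n) {f i : ℕ}
    (hf : f + (j + 1) ≤ 2 * M.T) (hi : i < M.sl f) :
    M.pG g q j v j f i ↔ M.ag (M.nx S j q) (j + 1) v j f i := by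
  have hj := c.hj
  have e := c.rep.A v hv q c.hq 0 f i (by omega) (by omega) hi
  have e2 : f + (j + 1 - 1 - j) = f := by omega
  rw [pG, ag, nx_J', nx_σ', e2, nx_Ov le_rfl, e, arr_one, k.J v hv]
  simp only [true_and, ne_eq, not_true_eq_false, false_and, or_false]
  refine or_congr_right ⟨?_, ?_⟩
  · rintro (h | ⟨h1, h2⟩)
    · exact Or.inl h
    · obtain ⟨u, hu⟩ := Nat.exists_eq_add_of_le' h1
      have a := c.ok.arr_elt.1 hu
      rw [hu, Nat.add_sub_cancel, k.J u (c.ok.lt _ _ a.2.1.1)] at h2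
      exact Or.inr ⟨u, a.2.1.1, h2, a.2.2⟩
  · rintro (h | ⟨u, a, b, d⟩)
    · exact Or.inl h
    · by_cases o : M.Ov S j v q 0 f f i
      · exact Or.inl o
      · have hu := c.ok.arr_elt.2 ⟨o, ⟨a, c.ok.th_sm b.1.2⟩, d⟩
        refine Or.inr ⟨by omega, ?_⟩
        rw [hu, Nat.add_sub_cancel, k.J u (c.ok.lt _ _ a)]
        exact b

theorem low (c : M.Cx S j g q) (hv : v < M.n) {s f i : ℕ} (hs : s < j)
    (hf : f + (j + 1) ≤ 2 * M.T) (hi : i < M.sl f) :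
    M.pG g q j v s f i ↔ M.ag (M.nx S j q) (j + 1) v s f i := by
  have e2 : f + (j + 1 - 1 - s) = f + 1 + (j - 1 - s) := by omega
  have e : ∀ b < 512, (M.oG g v s (f + 1) (i + b * M.sl f) ≠ 0 ↔
      M.ag S j v s (f + 1) (i + b * M.sl f)) := fun b hb =>
    c.rep.G v hv s hs (f + 1) _ (by omega) (child_lt hi hb)
  rw [pG, ag, nx_J hs, nx_σ hs, e2, nx_Ov hs.le, c.ok.slP (by omega)]
  simp only [hs.ne, false_and, false_or, ne_eq, not_false_eq_true, true_and]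
  constructor
  · rintro ⟨b, hb, h⟩
    rcases (e b hb).1 h with h | ⟨r, hr, u, w, a1, a2, a3, a4, a5⟩ | ⟨u, a1, a2, a3⟩
    · exact Or.inl h
    · exact Or.inr (Or.inl ⟨r, hr, u, w, a1, a2, a3, a4, (c.ok.child hi _).2 ⟨b, hb, a5⟩⟩)
    · exact Or.inr (Or.inr ⟨u, a1, a2, (c.ok.child hi _).2 ⟨b, hb, a3⟩⟩)
  · rintro (h | ⟨r, hr, u, w, a1, a2, a3, a4, a5⟩ | ⟨u, a1, a2, a3⟩)
    · exact ⟨0, by omega, (e 0 (by omega)).2 (Or.inl h)⟩
    · obtain ⟨b, hb, a6⟩ := (c.ok.child hi _).1 a5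
      exact ⟨b, hb, (e b hb).2 (Or.inr (Or.inl ⟨r, hr, u, w, a1, a2, a3, a4, a6⟩))⟩
    · obtain ⟨b, hb, a6⟩ := (c.ok.child hi _).1 a3
      exact ⟨b, hb, (e b hb).2 (Or.inr (Or.inr ⟨u, a1, a2, a6⟩))⟩

theorem bad_iff (h : M.Ok) (s : ℕ) :
    (∃ i < M.K, M.ag S (j + 1) v s 0 i) ↔ M.bad S s (j - s) v := by
  have e2 : 0 + (j + 1 - 1 - s) = j - s := by omega
  simp only [ag, bad, e2, h.ovf_iff, sl_zero]
  constructor
  · rintro ⟨i, hi, a | a | ⟨u, a, b, -⟩⟩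
    · exact Or.inl a
    · exact Or.inr (Or.inl ⟨i, hi, a⟩)
    · exact Or.inr (Or.inr ⟨u, a, b⟩)
  · rintro (a | ⟨i, hi, a⟩ | ⟨u, a, b⟩)
    · exact ⟨0, h.Kpos, Or.inl a⟩
    · exact ⟨i, hi, Or.inr (Or.inl a)⟩
    · exact ⟨_, Nat.mod_lt _ h.Kpos, Or.inr (Or.inr ⟨u, a, b, rfl⟩)⟩

end PAgX

theorem agS : AgS := by
  intro M S j g q c k v hv
  have hj := c.hj
  have h1 : ∀ s < j + 1, ∀ f i, f + (j + 1) ≤ 2 * M.T → i < M.sl f →
      (M.pG g q j v s f i ↔ M.ag (M.nx S j q) (j + 1) v s f i) := fun s hs f i hf hi => by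
    rcases (Nat.le_of_lt_succ hs).eq_or_lt with rfl | h
    · exact PAgX.top c k hv hf hi
    · exact PAgX.low c hv h hf hi
  have h2 : ∀ s ≤ j, ((∃ i < M.K, M.pG g q j v s 0 i) ↔ M.bad (M.nx S j q) s (j - s) v) :=
    fun s hs => by
      rw [← PAgX.bad_iff c.ok]
      exact exists_congr fun i => and_congr_right fun hi =>
        h1 s (by omega) 0 i (by omega) (by rwa [sl_zero])
  refine ⟨h1, fun t ht => ?_⟩
  rw [pC, c.rep.C v hv t ht]
  constructor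
  · rintro (⟨s, a, b, d⟩ | ⟨d, hd, a, b, e⟩)
    · exact ⟨s, a, by omega, (nx_bad (by omega) _ _).2 d⟩
    · refine ⟨2 * j + 1 + d - t, by omega, by omega, ?_⟩
      rw [show (t - 1 - (2 * j + 1 + d - t)) / 2 = j - (2 * j + 1 + d - t) by omega]
      exact (h2 _ b).1 e
  · rintro ⟨s, a, b, d⟩
    by_cases o : (t + 1 + s) / 2 ≤ j
    · exact Or.inl ⟨s, a, o, (nx_bad (by omega) _ _).1 d⟩
    · refine Or.inr ⟨t + s - (2 * j + 1), by omega, by omega, by omega, ?_⟩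
      rw [show 2 * j + 1 + (t + s - (2 * j + 1)) - t = s by omega]
      rw [show (t - 1 - s) / 2 = j - s by omega] at d
      exact (h2 s (by omega)).2 d

end Pool.Agent.MP_1a6d78_lc.MI
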