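import Pool.Agent.MP_1a6d78_lc.MI.Basic

/-! PROJECT MIS, row PARR: one level of the trie. -/

namespace Pool.Agent.MP_1a6d78_lc.MI

open Classical ED PR SC Finset

namespace PArrX

open Gp

variable {M : Gp} {S : St} {j q v p k f i : ℕ}

theorem ov_succ (h : M.Ok) (hi : i < M.sl f) : M.Ov (M.nx S j q) (j + 1) v p k f f i ↔
    (∃ b < 512, M.Ov S j v p (k + 1) (f + 1) (f + 1) (i + b * M.sl f)) ∨
      ∃ u w, u ≠ w ∧ M.N (M.nx S j q) p k (j + 1) v u ∧ M.N (M.nx S j q) p k (j + 1) v w ∧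
        M.hs p w % M.sl f = i ∧ M.hs p u % M.sl f = i := by
  have e : ∀ a r, r ≤ j → a + (j + 1 - r) = a + 1 + (j - r) := fun a r _ => by omega
  constructor
  · rintro ⟨r, hr, u, w, a, b, c, d, o⟩
    rcases hr.eq_or_lt with rfl | hr
    · rw [Nat.sub_self, add_zero] at b c
      rw [Nat.sub_self, add_zero] at d
      exact Or.inr ⟨u, w, a, b, c, d ▸ o, o⟩
    · have hr : r ≤ j := by omega
      rw [nx_N hr, e _ _ hr] at b c
      rw [e _ _ hr] at d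
      obtain ⟨z, hz, o⟩ := (h.child hi _).1 o
      exact Or.inl ⟨z, hz, r, hr, u, w, a, b, c, d, o⟩
  · rintro (⟨z, hz, r, hr, u, w, a, b, c, d, o⟩ | ⟨u, w, a, b, c, d, o⟩)
    · refine ⟨r, by omega, u, w, a, ?_, ?_, ?_, (h.child hi _).2 ⟨z, hz, o⟩⟩
      · rwa [nx_N hr, e _ _ hr]
      · rwa [nx_N hr, e _ _ hr]
      · rwa [e _ _ hr]
    · refine ⟨j + 1, le_rfl, u, w, a, ?_, ?_, ?_, o⟩
      · rwa [Nat.sub_self, add_zero]
      · rwa [Nat.sub_self, add_zero]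
      · rw [Nat.sub_self, add_zero, d, o]

end PArrX

open Gp in
theorem arrS : ArrS := by
  intro M S j g q C K v hv p hp k f i hk hf hi
  have h := C.ok
  have ec : ∀ b < 512, M.ch g v p k f i b = M.arr S j v p (k + 1) (f + 1) (i + b * M.sl f) :=
    fun b hb => by
      rw [ch, h.slP (by omega)]
      exact C.rep.A v hv p hp _ _ _ (by omega) (by omega) (child_lt hi hb)
  have e1 : (∃ b < 512, M.ch g v p k f i b = 1) ↔
      ∃ b < 512, M.Ov S j v p (k + 1) (f + 1) (f + 1) (i + b * M.sl f) :=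
    exists_congr fun b => and_congr_right fun hb => by rw [ec b hb, arr_one]
  have sp : ∀ u, M.A v u → (M.smP p k (M.pL g q j u) u ↔ M.sm p k ((M.nx S j q).L (j + 1) u) u) :=
    fun u a => by
      have h1 := nL_le (M := M) (S := S) j q u
      have h2 := C.run.L_le le_rfl u
      rw [K.L u (h.lt _ _ a), nx_L', h.smP (by omega) (by omega)]
  by_cases o : ∃ b < 512, M.Ov S j v p (k + 1) (f + 1) (f + 1) (i + b * M.sl f)
  · rw [pA, if_pos (Or.inl (e1.2 o)), arr_one.2 ((PArrX.ov_succ h hi).2 (Or.inl o))]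
  have no : ∀ b < 512, ¬M.Ov S j v p (k + 1) (f + 1) (f + 1) (i + b * M.sl f) :=
    fun b hb a => o ⟨b, hb, a⟩
  have a1 : ∀ b < 512, M.okc g q j v p k f i b → ∃ u, M.ch g v p k f i b = u + 2 ∧
      M.N (M.nx S j q) p k (j + 1) v u ∧ M.hs p u % M.sl (f + 1) = i + b * M.sl f := by
    rintro b hb ⟨c1, c2⟩
    obtain ⟨u, e⟩ := Nat.exists_eq_add_of_le' c1
    rw [e, Nat.add_sub_cancel] at c2
    have := h.arr_elt.1 ((ec b hb).symm.trans e)
    exact ⟨u, e, ⟨this.2.1.1, (sp u this.2.1.1).1 c2⟩, this.2.2⟩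
  have a2 : ∀ u, M.N (M.nx S j q) p k (j + 1) v u → M.hs p u % M.sl f = i → ∃ b < 512,
      M.okc g q j v p k f i b ∧ M.ch g v p k f i b = u + 2 := by
    intro u c1 c2
    obtain ⟨b, hb, c3⟩ := (h.child hi _).1 c2
    have e := (ec b hb).trans (h.arr_elt.2 ⟨no b hb, N_nx c1, c3⟩)
    refine ⟨b, hb, ⟨by omega, ?_⟩, e⟩
    rw [e, Nat.add_sub_cancel]
    exact (sp u c1.1).2 c1.2
  have e2 : ((∃ b < 512, M.ch g v p k f i b = 1) ∨ ∃ b < 512, ∃ b' < 512, b ≠ b' ∧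
      M.okc g q j v p k f i b ∧ M.okc g q j v p k f i b') ↔
      M.Ov (M.nx S j q) (j + 1) v p k f f i := by
    rw [PArrX.ov_succ h hi, e1]
    refine or_congr Iff.rfl ⟨?_, ?_⟩
    · rintro ⟨b, hb, b', hb', n, c, c'⟩
      obtain ⟨u, -, u1, u2⟩ := a1 b hb c
      obtain ⟨w, -, w1, w2⟩ := a1 b' hb' c'
      refine ⟨u, w, fun e => n ?_, u1, w1, (h.child hi _).2 ⟨b', hb', w2⟩,
        (h.child hi _).2 ⟨b, hb, u2⟩⟩
      rw [e, w2] at u2
      exact (Nat.eq_of_mul_eq_mul_right (h.sl_pos f) (Nat.add_left_cancel u2)).symm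
    · rintro ⟨u, w, n, u1, w1, w2, u2⟩
      obtain ⟨b, hb, c, e⟩ := a2 u u1 u2
      obtain ⟨b', hb', c', e'⟩ := a2 w w1 w2
      exact ⟨b, hb, b', hb', fun z => n (by rw [z, e'] at e; omega), c, c'⟩
  rw [pA]
  split_ifs with c1 c2
  · exact (arr_one.2 (e2.1 c1)).symm
  · obtain ⟨l1, l2⟩ := lst_spec c2
    obtain ⟨u, e, u1, u2⟩ := a1 _ l1 l2
    rw [e, h.arr_elt.2 ⟨fun z => c1 (e2.2 z), u1, (h.child hi _).2 ⟨_, l1, u2⟩⟩]
  · refine (arr_zero.2 ⟨fun z => c1 (e2.2 z), fun ⟨u, u1, u2⟩ => c2 ?_⟩).symm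
    obtain ⟨b, hb, c, -⟩ := a2 u u1 u2
    exact ⟨b, hb, c⟩

end Pool.Agent.MP_1a6d78_lc.MI
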