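import Pool.Agent.MP_1a6d78_lc.MI.Basic

/-! PROJECT MIS: the local programs. -/

namespace Pool.Agent.MP_1a6d78_lc.MI

open Classical ED PR SC Finset

namespace PLocX

variable {M : Gp} {S : St} {j q : ℕ} {g : Orc}

theorem act (h : M.Cx S j g q) {u : ℕ} (hu : u < M.n) : M.oC g u j = 0 ↔ M.act S j u := by
  rw [← Gp.cc_act, ← h.rep.C u hu j h.hj.le, not_not]

theorem pmk (h : M.Cx S j g q) {u : ℕ} (hu : u < M.n) : M.pmk g q j u ↔ M.mrk S j q u := by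
  have h1 := h.run.L_le le_rfl u
  have h2 := h.hj
  rw [Gp.pmk, Gp.mrk, act h hu, h.rep.L j le_rfl u hu,
    h.ok.cp (by omega) (by omega) (by omega), Gp.th]

theorem oA (h : M.Cx S j g q) {v : ℕ} (hv : v < M.n) {i : ℕ} (hi : i < M.K) :
    M.oA g v q 0 0 i = M.arr S j v q 0 0 i :=
  have h2 := h.hj
  h.rep.A v hv q h.hq 0 0 i (by omega) (by omega) (by rwa [Gp.sl_zero])

end PLocX

open PLocX in
theorem locS : LocS := by
  intro M S j g q h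
  refine ⟨fun v hv => ?_, fun v hv => ?_⟩
  · rw [Gp.pJ, Gp.nJ, pmk h hv, h.ok.ovf_iff]
    refine and_congr_right fun _ => ⟨fun k => ?_, fun k i hi => ?_⟩
    · have o : ∀ i < M.K, ¬M.Ov S j v q 0 0 0 i := fun i hi e =>
        (k i hi).1 (by rw [oA h hv hi]; exact Gp.arr_one.2 e)
      refine ⟨fun ⟨i, hi, e⟩ => o i hi e, fun u a m => ?_⟩
      have hi : M.hs q u % M.K < M.K := Nat.mod_lt _ h.ok.Kpos
      have e : M.oA g v q 0 0 (M.hs q u % M.K) = u + 2 := by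
        rw [oA h hv hi]
        exact h.ok.arr_elt.2 ⟨o _ hi, ⟨a, h.ok.th_sm m.2⟩, by rw [Gp.sl_zero]⟩
      refine (k _ hi).2 (by omega) ?_
      rw [e, Nat.add_sub_cancel]
      exact (pmk h (h.ok.lt _ _ a)).2 m
    · rw [oA h hv hi]
      refine ⟨fun e => k.1 ⟨i, hi, Gp.arr_one.1 e⟩, fun e m => ?_⟩
      have a := (h.ok.arr_elt.1 (Nat.sub_add_cancel e).symm).2.1.1
      exact k.2 _ a ((pmk h (h.ok.lt _ _ a)).1 m)
  · have e : (∀ i < M.K, M.oA g v q 0 0 i = 0) ↔ ¬M.warn S j q v := by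
      rw [Gp.warn, h.ok.ovf_iff, not_or]
      refine ⟨fun k => ?_, fun k i hi => ?_⟩
      · have o := fun i hi => Gp.arr_zero.1 ((oA h hv hi).symm.trans (k i hi))
        exact ⟨fun ⟨i, hi, e⟩ => (o i hi).1 e, fun ⟨u, a⟩ =>
          (o _ (Nat.mod_lt _ h.ok.Kpos)).2 ⟨u, a, by rw [Gp.sl_zero]⟩⟩
      · rw [oA h hv hi]
        exact Gp.arr_zero.2 ⟨fun e => k.1 ⟨i, hi, e⟩, fun ⟨u, a, _⟩ => k.2 ⟨u, a⟩⟩
    unfold Gp.pL Gp.nL
    rw [h.rep.L j le_rfl v hv]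
    exact if_congr (and_congr (act h hv) e) rfl rfl

end Pool.Agent.MP_1a6d78_lc.MI
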