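import Pool.Agent.MP_1a6d78_lc.MI.Basic

/-! PROJECT MIS: the oracle of level `j + 1` represents the state after round `j`. -/

namespace Pool.Agent.MP_1a6d78_lc.MI

open Classical ED PR SC Finset Gp

namespace PStepX

theorem min_ne {β a : ℕ} (h : 0 < β) : min β a ≠ 0 ↔ a ≠ 0 := by omega

theorem ite_ne (P : Prop) : (if P then 1 else 0 : ℕ) ≠ 0 ↔ P := by
  by_cases h : P <;> simp [h]

theorem base0 (M : Gp) (h : M.Ok) : M.Rep s0 0 (nrm 6 M.β M.base) := by
  have t := h.Tb
  have nb := h.nb
  refine ⟨fun _ k => absurd k (Nat.not_lt_zero _), fun _ k => absurd k (Nat.not_lt_zero _),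
    fun r hr u hu => ?_, fun _ k => absurd k (Nat.not_lt_zero _), fun v hv q hq k f i hk hf hi => ?_,
    fun _ _ _ k => absurd k (Nat.not_lt_zero _), fun v hv s hs => ?_⟩
  · rw [oL, ask_nrm _ (by omega) (by omega) (by omega) (by omega) (by omega) (by omega)]
    simp [base, gt, s0]
  · have := h.sl_le (f := f) (by omega)
    rw [oA, ask_nrm _ (by omega) (by omega) hq (by omega) (by omega) (by omega)]
    have e : ∀ u, M.b0 v q k f i u ↔ M.N s0 q k 0 v u ∧ M.hs q u % M.sl f = i := fun u => by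
      rw [b0, h.slP (by omega), h.smP (by omega) (by omega), N, and_assoc]; rfl
    have e1 : (∃ u < M.n, ∃ w < M.n, u ≠ w ∧ M.b0 v q k f i u ∧ M.b0 v q k f i w) ↔
        M.Ov s0 0 v q k f f i := by
      simp only [e]
      constructor
      · rintro ⟨u, -, w, -, a, b, c⟩
        exact ⟨0, le_rfl, u, w, a, b.1, c.1, b.2.trans c.2.symm, b.2⟩
      · rintro ⟨r, hr, u, w, a, b, c, d, d'⟩
        obtain rfl := Nat.le_zero.1 hr
        exact ⟨u, h.lt _ _ b.1, w, h.lt _ _ c.1, a, ⟨b, d'⟩, c, d.symm.trans d'⟩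
    have e2 : (∃ u < M.n, M.b0 v q k f i u) ↔ ∃ u, M.N s0 q k 0 v u ∧ M.hs q u % M.sl f = i :=
      ⟨fun ⟨u, _, a⟩ => ⟨u, (e u).1 a⟩, fun ⟨u, a⟩ => ⟨u, h.lt _ _ a.1.1, (e u).2 a⟩⟩
    have e3 : M.base [3, v, q, k, f, i] = M.arr s0 0 v q k f i := by
      show M.bA v q k f i = _
      unfold bA arr
      rw [lst_congr fun u _ => e u]
      exact if_congr e1 rfl (if_congr e2 rfl rfl)
    rw [e3]
    exact min_eq_right ((h.arr_le _ _ _ _ _).trans (by omega))
  · rw [oC, ask_nrm _ (by omega) (by omega) (by omega) (by omega) (by omega) (by omega)]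
    refine iff_of_false (by simp [base, gt]) ?_
    rintro ⟨r, a, b, -⟩
    omega

end PStepX

open PStepX in
theorem stepS (h1 : LocS) (h2 : ArrS) (h3 : AgS) : StepS := by
  refine ⟨base0, fun M S j g q c => ?_⟩
  have h := c.ok
  have t := h.Tb
  have nb := h.nb
  have hj := c.hj
  have l := h1 M S j g q c
  have sb : ∀ s < j + 1, (M.nx S j q).σ s ≤ M.β := fun s hs => by
    rcases (Nat.le_of_lt_succ hs).eq_or_lt with rfl | k
    · rw [nx_σ']; exact c.hq
    · rw [nx_σ k]; exact c.rep.σb s k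
  refine ⟨fun s hs => ?_, sb, fun r hr u hu => ?_, fun s hs u hu => ?_,
    fun v hv p hp k f i hk hf hi => ?_, fun v hv s hs f i hf hi => ?_, fun v hv s hs => ?_⟩
  · rw [oS, ask_nrm _ (by omega) (by omega) (by omega) (by omega) (by omega) (by omega),
      ← min_eq_right (sb s hs)]
    congr 1
    show (if s = j then q else M.oS g s) = if s = j then q else S.σ s
    split_ifs with k
    · rfl
    · exact c.rep.σ s (by omega)
  · rw [oL, ask_nrm _ (by omega) (by omega) (by omega) (by omega) (by omega) (by omega),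
      ← min_eq_right (((nx_run c.run q).L_le hr u).trans (show r ≤ M.β by omega))]
    congr 1
    show (if r = j + 1 then M.pL g q j u else M.oL g r u) = _
    split_ifs with k
    · rw [k, nx_L', l.L u hu]
    · rw [nx_L (by omega), c.rep.L r (by omega) u hu]
  · rw [oJ, ask_nrm _ (by omega) (by omega) (by omega) (by omega) (by omega) (by omega),
      min_ne (by omega)]
    show (if s = j then (if M.pJ g q j u then 1 else 0) else M.oJ g s u) ≠ 0 ↔ _
    by_cases k : s = j
    · rw [if_pos k, ite_ne, k, nx_J', l.J u hu]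
    · rw [if_neg k, nx_J (by omega), c.rep.J s (by omega) u hu]
  · have := h.sl_le (f := f) (by omega)
    rw [oA, ask_nrm _ (by omega) (by omega) hp (by omega) (by omega) (by omega)]
    show min M.β (M.pA g q j v p k f i) = _
    rw [h2 M S j g q c l v hv p hp k f i hk hf hi]
    exact min_eq_right ((h.arr_le _ _ _ _ _).trans (by omega))
  · have := h.sl_le (f := f) (by omega)
    rw [oG, ask_nrm _ (by omega) (by omega) (by omega) (by omega) (by omega) (by omega),
      min_ne (by omega)]
    show (if M.pG g q j v s f i then 1 else 0 : ℕ) ≠ 0 ↔ _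
    rw [ite_ne, (h3 M S j g q c l v hv).1 s hs f i hf hi]
  · rw [oC, ask_nrm _ (by omega) (by omega) (by omega) (by omega) (by omega) (by omega),
      min_ne (by omega)]
    show (if M.pC g q j v s then 1 else 0 : ℕ) ≠ 0 ↔ _
    rw [ite_ne, (h3 M S j g q c l v hv).2 s hs]

end Pool.Agent.MP_1a6d78_lc.MI
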