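import Pool.Agent.MP_1a6d78_lc.MI.Basic

/-! PROJECT MIS: the potential and the answer are read from the oracle. -/

namespace Pool.Agent.MP_1a6d78_lc.MI

open Classical ED PR SC Finset

namespace PhiX

variable {M : Gp} {S : St} {j : ℕ} {g : Orc}

theorem tN_iff (h : M.Ok) (hr : M.Run S j) (hp : M.Rep S j g) (hj : j ≤ M.T) {q k r v u : ℕ}
    (hk : k ≤ M.T) (h1 : r ≤ j) : M.tN g q k r v u ↔ M.N S q k r v u :=
  and_congr_right fun a => by
    have := hr.L_le h1 u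
    rw [hp.L r h1 u (h.lt _ _ a), h.smP (by omega) (by omega)]

theorem tO_iff (h : M.Ok) (hr : M.Run S j) (hp : M.Rep S j g) (hj : j ≤ M.T) {s e v : ℕ}
    (hs : s < j) (he : e ≤ M.T) : M.tO g s e v ↔ M.ovf S s (S.σ s) e v := by
  unfold Gp.tO Gp.ovf
  rw [hp.σ s hs]
  constructor
  · rintro ⟨r, h1, u, -, w, -, a, b, c, d⟩
    have h2 : r ≤ s := by omega
    rw [tN_iff h hr hp hj (by omega) (by omega)] at b c
    rw [h.slP (by omega)] at d
    exact ⟨r, h2, u, w, a, b, c, d⟩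
  · rintro ⟨r, h1, u, w, a, b, c, d⟩
    refine ⟨r, by omega, u, h.lt _ _ b.1, w, h.lt _ _ c.1, a, ?_, ?_, ?_⟩
    · rwa [tN_iff h hr hp hj (by omega) (by omega)]
    · rwa [tN_iff h hr hp hj (by omega) (by omega)]
    · rwa [h.slP (by omega)]

theorem tm_eq (h : M.Ok) (hr : M.Run S j) (hp : M.Rep S j g) (hj : j ≤ M.T) (v : ℕ) :
    (M.tm g j v : ℝ) = 4 ^ M.T * M.mr S j v := by
  unfold Gp.tm Gp.mr
  rw [mul_sum, Nat.cast_sum]
  refine sum_congr rfl fun u hu => ?_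
  split_ifs with a
  · have := hr.L_le le_rfl u
    rw [hp.L j le_rfl u (mem_range.1 hu), h.cp (by omega) (by omega) (by omega), Gp.xr,
      Nat.cast_pow, pow_sub₀ _ (by norm_num) (by omega)]
    norm_num
  · simp

theorem Z_bd (v : ℕ) : 2 ^ M.Z S j v ≤ 2 ^ (2 * M.T + 10) * (M.n + 2) := by
  rcases e : M.Z S j v with _ | z
  · exact Nat.mul_pos (by positivity) (by omega)
  have hz : ¬M.Zok S j v z := fun k => by have := Gp.Z_le k; omega
  rw [Gp.Zok, not_and_or] at hz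
  rcases hz with k | k
  · have a1 : ((2 ^ z : ℕ) : ℝ) ≤ (512 * M.n : ℕ) := by
      push_cast
      linarith [not_lt.1 k, Gp.mr_le (M := M) (S := S) j v]
    have a2 : 2 ^ z ≤ 512 * M.n := by exact_mod_cast a1
    have a3 : 2 ^ 10 ≤ 2 ^ (2 * M.T + 10) := Nat.pow_le_pow_right (by omega) (by omega)
    calc 2 ^ (z + 1) ≤ 2 ^ 10 * (M.n + 2) := by rw [pow_succ]; omega
      _ ≤ _ := Nat.mul_le_mul_right _ a3
  · push Not at k
    obtain ⟨s, hs, e', he, -, k⟩ := k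
    exact (Nat.pow_le_pow_right (by omega) (by omega)).trans (Nat.le_mul_of_pos_right _ (by omega))

theorem wt_bd (h : M.Ok) (hr : M.Run S j) (hj : j ≤ M.T) (v : ℕ) :
    2 * M.Q * 2 ^ M.E S j v ≤ M.β := by
  have a1 := Z_bd (M := M) (S := S) (j := j) v
  have a2 : 2 ^ S.L j v ≤ 2 ^ M.T := Nat.pow_le_pow_right (by omega) ((hr.L_le le_rfl v).trans hj)
  refine le_trans ?_ h.wb
  calc 2 * M.Q * 2 ^ M.E S j v = 2 * M.Q * (2 ^ S.L j v * (2 ^ M.Z S j v) ^ 2) := by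
        rw [Gp.E, pow_add, pow_mul']
    _ ≤ 2 * M.Q * (2 ^ M.T * (2 ^ (2 * M.T + 10) * (M.n + 2)) ^ 2) := by gcongr
    _ = M.Q * 2 ^ (5 * M.T + 21) * (M.n + 2) ^ 2 := by ring
    _ ≤ _ := by gcongr <;> omega

theorem tZ_eq (h : M.Ok) (hr : M.Run S j) (hp : M.Rep S j g) (hj : j ≤ M.T) (v : ℕ) :
    M.tZ g j v = M.Z S j v := by
  have q := h.Q20
  have b : 2 ^ M.Z S j v ≤ M.β := by
    refine le_trans ?_ (wt_bd h hr hj v)
    exact (Nat.pow_le_pow_right (by omega) (by unfold Gp.E; omega)).trans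
      (Nat.le_mul_of_pos_left _ (by omega))
  have key : ∀ z ≤ M.Z S j v, (512 * M.tm g j v < M.cp 2 z * M.cp 4 M.T ∧
      ∀ s < min j M.T, ∀ e < M.T + 1, M.tO g s e v → 2 * e + 3 + s ≤ z + j) ↔ M.Zok S j v z := by
    intro z hz
    rw [Gp.cp_eq (by omega) ((Nat.pow_le_pow_right (by omega) hz).trans b),
      h.cp (by omega) (by omega) (by omega), min_eq_left hj]
    refine and_congr ?_ (forall₂_congr fun s hs => forall_congr' fun e => ?_)
    · rw [← Nat.cast_lt (α := ℝ)]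
      push_cast
      rw [tm_eq h hr hp hj, mul_left_comm, mul_comm, mul_lt_mul_iff_left₀ (by positivity)]
    · rw [Nat.lt_succ_iff]
      exact imp_congr_right fun he => by rw [tO_iff h hr hp hj hs he]
  have k1 := (key _ le_rfl).2 (Gp.Z_ok j v)
  have k2 : M.Z S j v < M.β := Nat.lt_two_pow_self.trans_le b
  have k3 : M.tZ g j v ≤ M.Z S j v := lst_le k2 k1
  have k4 := (lst_spec (P := fun z => 512 * M.tm g j v < M.cp 2 z * M.cp 4 M.T ∧
    ∀ s < min j M.T, ∀ e < M.T + 1, M.tO g s e v → 2 * e + 3 + s ≤ z + j) ⟨_, k2, k1⟩).2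
  exact le_antisymm k3 (Gp.Z_le ((key _ k3).1 k4))

theorem tA_iff (h : M.Ok) (hp : M.Rep S j g) (hj : j ≤ M.T) {v : ℕ} (hv : v < M.n) :
    M.tA g j v ↔ M.alive S j v := by
  unfold Gp.tA Gp.alive
  rw [min_eq_left hj]
  refine forall₂_congr fun s hs => and_congr (by rw [← hp.J s hs v hv, not_not]) ?_
  exact ⟨fun k u a => by rw [← hp.J s hs u (h.lt _ _ a), not_not]; exact k u (h.lt _ _ a) a,
    fun k u hu a => by have := k u a; rwa [← hp.J s hs u hu, not_not] at this⟩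

end PhiX

open PhiX in
theorem phiS : PhiS := by
  intro M S j g h hr hp hj
  refine ⟨sum_congr rfl fun v hv => ?_, fun v hv => ?_⟩
  · have hv' := mem_range.1 hv
    rw [propext (tA_iff h hp hj hv'), hp.L j le_rfl v hv', tZ_eq h hr hp hj]
    split_ifs
    · exact Gp.it_iter (wt M.Q) (fun _ => rfl) _ fun t ht =>
        (wt_mono _ ht).trans ((wt_le _ _).trans (wt_bd h hr hj v))
    · rfl
  · unfold Gp.tAns
    rw [min_eq_left hj]
    have : (∃ s < j, M.oJ g s v ≠ 0) ↔ ∃ s < j, S.J s v :=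
      exists_congr fun s => and_congr_right fun hs => hp.J s hs v hv
    rw [← this]
    split_ifs with a <;> simp only [a] <;> simp

end Pool.Agent.MP_1a6d78_lc.MI
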