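import Pool.Agent.MP_1a6d78_lc.MI.Basic

/-! PROJECT MIS, row POINT: the new exponent at one seed. -/

namespace Pool.Agent.MP_1a6d78_lc.MI

open Classical Finset Gp

namespace PointX

variable {M : Gp} {S : St} {j q v z : ℕ}

theorem key (h1 : 512 * M.mr (M.nx S j q) (j + 1) v < 2 ^ z) (h2 : M.Z S j v ≤ z + 1) {y : ℕ}
    (hy : z ≤ y) (h3 : ∀ e ≤ M.T, M.ovf S j q e v → 2 * e + 2 ≤ y) :
    M.Z (M.nx S j q) (j + 1) v ≤ y := by
  refine Z_le ⟨h1.trans_le (pow_le_pow_right₀ (by norm_num) hy), fun s hs e he k => ?_⟩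
  rw [nx_ovf (Nat.le_of_lt_succ hs)] at k
  rcases (Nat.le_of_lt_succ hs).eq_or_lt with rfl | l
  · rw [nx_σ'] at k
    have := h3 e he k
    omega
  · rw [nx_σ l] at k
    have := (Z_ok (M := M) (S := S) j v).2 s l e he k
    omega

end PointX

theorem pointS : PointS := by
  intro M S j q v z _ _ h1 h2
  by_cases c : ∃ e ≤ M.T, M.ovf S j q e v ∧ z < 2 * e + 2
  · obtain ⟨e0, he0, k0⟩ := c
    obtain ⟨e, he, mx⟩ := exists_max_image
      ((range (M.T + 1)).filter fun e => M.ovf S j q e v ∧ z < 2 * e + 2) id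
      ⟨e0, mem_filter.2 ⟨mem_range.2 (by omega), k0⟩⟩
    obtain ⟨he1, he2, he3⟩ := mem_filter.1 he
    have hz : M.Z (M.nx S j q) (j + 1) v ≤ 2 * e + 2 := by
      refine PointX.key h1 h2 he3.le fun f hf k => ?_
      by_cases d : z < 2 * f + 2
      · have : f ≤ e := mx f (mem_filter.2 ⟨mem_range.2 (by omega), k, d⟩)
        omega
      · omega
    have hL := nL_le (M := M) (S := S) j q v
    have hE : M.E (M.nx S j q) (j + 1) v ≤ S.L j v + 4 * e + 5 := by
      rw [E, nx_L']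
      omega
    have ht : wt M.Q (S.L j v + 4 * e + 5) ≤ M.tail S j q v := by
      have := single_le_sum (f := fun e => if M.Z S j v ≤ 2 * e + 2 ∧ M.ovf S j q e v then
        wt M.Q (S.L j v + 4 * e + 5) else 0) (fun _ _ => Nat.zero_le _) he1
      rwa [if_pos ⟨by omega, he2⟩] at this
    exact ((wt_mono _ hE).trans ht).trans (Nat.le_add_left _ _)
  · have hz : M.Z (M.nx S j q) (j + 1) v ≤ z := by
      refine PointX.key h1 h2 le_rfl fun f hf k => ?_
      by_contra d
      exact c ⟨f, hf, k, by omega⟩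
    have hE : M.E (M.nx S j q) (j + 1) v ≤ M.nL S j q v + 2 * z := by
      rw [E, nx_L']
      omega
    exact (wt_mono _ hE).trans (Nat.le_add_right _ _)

end Pool.Agent.MP_1a6d78_lc.MI
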