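import Pool.Agent.MP_1a6d78_lc.MI.Basic

/-! PROJECT MIS, row POT: some seed lowers the potential. -/

namespace Pool.Agent.MP_1a6d78_lc.MI

open Classical Finset

theorem potS (h1 : VertS) : PotS := by
  intro M S j Ω P H
  obtain ⟨q, hq, h⟩ := ex_exists H.ind.ne fun q => (M.Phi (M.nx S j q) (j + 1) : ℝ)
  have hQ := H.ok.Q20
  have q0 : (20 : ℝ) ≤ M.Q := by exact_mod_cast hQ
  have e : ex Ω (fun q => (M.Phi (M.nx S j q) (j + 1) : ℝ)) ≤ (1 - 1 / (10 * M.Q)) * M.Phi S j := by
    simp only [Gp.Phi, Nat.cast_sum, mul_sum]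
    rw [ex_sum]
    refine sum_le_sum fun v hv => ?_
    by_cases a : M.alive S j v
    · rw [if_pos a]
      refine (ex_congr fun q _ => ?_).trans_le (h1 M S j Ω P H v (mem_range.1 hv) a)
      unfold ind
      split_ifs <;> simp
    · rw [if_neg a, ex_congr (g := fun _ => 0) fun q _ => by
        rw [if_neg fun c => a (Gp.nx_alive.1 c).1, Nat.cast_zero], ex_const H.ind.ne]
      simp
  refine ⟨q, H.ind.lt q hq, (Nat.cast_le (α := ℝ)).1 ?_⟩
  rw [Nat.cast_mul, Nat.cast_mul (M.Phi S j), Nat.cast_pred (by omega)]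
  push_cast
  refine (mul_le_mul_of_nonneg_right (h.trans e) (by positivity)).trans_eq ?_
  field_simp

end Pool.Agent.MP_1a6d78_lc.MI
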