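import Pool.Agent.MP_1a6d78_lc.MI.Basic

/-! PROJECT MIS: the joined set is independent, maximal at potential zero, and the first
potential is small. -/

namespace Pool.Agent.MP_1a6d78_lc.MI

open Classical ED PR SC Finset

namespace SafeX

theorem lt_case {M : Gp} {S : St} {j u v s t : ℕ} (h : M.Run S j) (a : M.A v u) (hs : S.J s u)
    (ht : t < j) (hst : s < t) : ¬S.J t v := fun k =>
  ((h.2 t ht v).1.1 k).1.1 s hst (Or.inr (Or.inr ⟨u, a, hs⟩))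

theorem wt0 {M : Gp} (h : M.Ok) (v : ℕ) : wt M.Q (M.E s0 0 v) ≤ 2 ^ 58 * (M.n + 2) ^ 2 := by
  have h1 : 512 * M.n < 2 ^ (Nat.log 2 (512 * M.n) + 1) := Nat.lt_pow_succ_log_self (by omega) _
  have h2 : 2 ^ (Nat.log 2 (512 * M.n) + 1) ≤ 2 ^ 10 * (M.n + 2) := by
    rcases Nat.eq_zero_or_pos M.n with e | e
    · simp [e]
    · have := Nat.pow_log_le_self 2 (show 512 * M.n ≠ 0 by omega)
      rw [pow_succ]; omega
  have h3 : M.Z s0 0 v ≤ Nat.log 2 (512 * M.n) + 1 := by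
    refine Gp.Z_le ⟨?_, fun s hs => absurd hs (Nat.not_lt_zero _)⟩
    have k : ((512 * M.n : ℕ) : ℝ) < (2 ^ (Nat.log 2 (512 * M.n) + 1) : ℕ) := by exact_mod_cast h1
    push_cast at k
    linarith [Gp.mr_le (M := M) (S := s0) 0 v]
  have h4 : 2 ^ M.Z s0 0 v ≤ 2 ^ 10 * (M.n + 2) := (Nat.pow_le_pow_right (by omega) h3).trans h2
  have h5 : M.E s0 0 v = M.Z s0 0 v * 2 := by
    show 0 + 2 * M.Z s0 0 v = _
    omega
  calc _ ≤ 2 * M.Q * 2 ^ M.E s0 0 v := wt_le _ _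
    _ = 2 ^ 38 * (2 ^ M.Z s0 0 v) ^ 2 := by rw [h5, pow_mul, h.Q]; norm_num
    _ ≤ 2 ^ 38 * (2 ^ 10 * (M.n + 2)) ^ 2 := Nat.mul_le_mul_left _ (Nat.pow_le_pow_left h4 2)
    _ = _ := by ring

end SafeX

theorem safeS : SafeS := by
  intro M S j h r
  refine ⟨?_, fun z v hv => ?_, ?_⟩
  · rintro u v a ⟨s, hs, k⟩ ⟨t, ht, l⟩
    rcases lt_trichotomy s t with c | rfl | c
    · exact SafeX.lt_case r (h.symm _ _ a) k ht c l
    · exact ((r.2 s hs u).1.1 k).2.2 v a ((r.2 s hs v).1.1 l).1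
    · exact SafeX.lt_case r a l hs c k
  · by_contra c
    have al : M.alive S j v := fun s hs =>
      ⟨fun k => c (Or.inl ⟨s, hs, k⟩), fun u a k => c (Or.inr ⟨u, a, s, hs, k⟩)⟩
    have e := sum_eq_zero_iff.1 z v (mem_range.2 hv)
    rw [if_pos al] at e
    have := wt_ge M.Q (M.E S j v)
    have := h.Q20
    omega
  · have h1 : M.Phi s0 0 ≤ M.n * (2 ^ 58 * (M.n + 2) ^ 2) := by
      refine (sum_le_card_nsmul _ _ (2 ^ 58 * (M.n + 2) ^ 2) fun v _ => ?_).trans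
        (by rw [card_range, smul_eq_mul])
      split_ifs
      exacts [SafeX.wt0 h v, Nat.zero_le _]
    calc _ ≤ _ := h1
      _ ≤ (M.n + 2) * ((M.n + 2) ^ 58 * (M.n + 2) ^ 2) :=
        Nat.mul_le_mul (by omega) (Nat.mul_le_mul_right _ (Nat.pow_le_pow_left (by omega) _))
      _ = (M.n + 2) ^ 61 := by ring
      _ ≤ _ := Nat.pow_le_pow_right (by omega) (by omega)

end Pool.Agent.MP_1a6d78_lc.MI
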