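import Pool.Agent.MP_1a6d78_lc.MI.Basic

/-! PROJECT MIS, row SEC: second moments of pairwise independent events. -/

namespace Pool.Agent.MP_1a6d78_lc.MI

open Classical ED PR SC Finset

namespace SecX

theorem ind_sq (P : Prop) : ind P * ind P = ind P := by rw [← ind_and, and_self]

/-- The second moment of a sum of pairwise independent indicators. -/
theorem mom {Ω F : Finset ℕ} {E : ℕ → ℕ → Prop}
    (h : ∀ u ∈ F, ∀ w ∈ F, u ≠ w → pr Ω (fun q => E u q ∧ E w q) = pr Ω (E u) * pr Ω (E w)) :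
    ex Ω (fun q => (∑ u ∈ F, ind (E u q)) ^ 2) ≤
      (∑ u ∈ F, pr Ω (E u)) + (∑ u ∈ F, pr Ω (E u)) ^ 2 := by
  have e : ex Ω (fun q => (∑ u ∈ F, ind (E u q)) ^ 2) =
      ∑ u ∈ F, ∑ w ∈ F, pr Ω (fun q => E u q ∧ E w q) := by
    rw [ex_congr (g := fun q => ∑ u ∈ F, ∑ w ∈ F, ind (E u q ∧ E w q)) fun q _ => by
      rw [sq, sum_mul_sum]; simp only [ind_and],
      ex_sum F fun u q => ∑ w ∈ F, ind (E u q ∧ E w q)]
    exact sum_congr rfl fun u _ => ex_sum F fun w q => ind (E u q ∧ E w q)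
  rw [e, sq, sum_mul_sum, ← sum_add_distrib]
  refine sum_le_sum fun u hu => ?_
  have k : ∀ w ∈ F, pr Ω (fun q => E u q ∧ E w q) ≤
      (if u = w then pr Ω (E u) else 0) + pr Ω (E u) * pr Ω (E w) := fun w hw => by
    by_cases c : u = w
    · subst c
      rw [if_pos rfl, pr_congr (F := E u) fun _ _ => and_self_iff]
      exact le_add_of_nonneg_right (mul_nonneg (pr_nonneg _ _) (pr_nonneg _ _))
    · rw [if_neg c, zero_add, h u hu w hw c]
  refine (sum_le_sum k).trans (le_of_eq ?_)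
  rw [sum_add_distrib, sum_ite_eq, if_pos hu]

/-- Chebyshev at zero. -/
theorem cheb {Ω : Finset ℕ} (ne : Ω.Nonempty) {X : ℕ → ℝ} {E : ℕ → Prop} {ρ : ℝ} (h0 : 0 ≤ ρ)
    (h1 : ex Ω X = ρ) (h2 : ex Ω (fun q => X q ^ 2) ≤ ρ + ρ ^ 2) (hE : ∀ q ∈ Ω, E q → X q = 0) :
    pr Ω E * ρ ≤ 1 := by
  have m : pr Ω E * ρ ^ 2 ≤ ex Ω fun q => (X q - ρ) ^ 2 :=
    markov (fun _ _ => sq_nonneg _) fun q k e => by rw [hE q k e, zero_sub, neg_sq]
  have v : ex Ω (fun q => (X q - ρ) ^ 2) = ex Ω (fun q => X q ^ 2) - 2 * ρ * ρ + ρ ^ 2 := by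
    rw [ex_congr (g := fun q => X q ^ 2 - 2 * ρ * X q + ρ ^ 2) fun q _ => by ring,
      ex_add (fun q => X q ^ 2 - 2 * ρ * X q) fun _ => ρ ^ 2,
      ex_sub (fun q => X q ^ 2) fun q => 2 * ρ * X q, ex_mul, h1, ex_const ne]
  rcases h0.eq_or_lt with z | z
  · rw [← z, mul_zero]; exact zero_le_one
  · refine le_of_mul_le_mul_right ?_ z
    nlinarith

end SecX

theorem secS : SecS := by
  intro M Ω P I D
  have a : ∀ u < M.n, ∀ w < M.n, u ≠ w → pr Ω (fun q => D u (M.hs q u) ∧ D w (M.hs q w)) =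
      pr Ω (fun q => D u (M.hs q u)) * pr Ω fun q => D w (M.hs q w) := fun u hu w hw c => by
    unfold pr
    rw [I.two u hu w hw c fun a b => ind (D u a ∧ D w b), I.one u hu fun a => ind (D u a),
      I.one w hw fun a => ind (D w a), ← ex_mul']
    refine ex_congr fun a _ => ?_
    rw [← ex_mul]
    exact ex_congr fun b _ => ind_and _ _
  refine ⟨a, fun F hF ρ hρ => ?_⟩
  have m := SecX.mom (Ω := Ω) (F := F) (E := fun u q => D u (M.hs q u)) fun u hu w hw c =>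
    a u (mem_range.1 (hF hu)) w (mem_range.1 (hF hw)) c
  rw [← hρ] at m
  refine ⟨m, SecX.cheb I.ne (X := fun q => ∑ u ∈ F, ind (D u (M.hs q u))) ?_ ?_ m fun q _ e =>
    sum_eq_zero fun u hu => ind_neg (e u hu)⟩
  · rw [hρ]; exact sum_nonneg fun _ _ => pr_nonneg _ _
  · rw [hρ]; exact ex_sum F fun u q => ind (D u (M.hs q u))

end Pool.Agent.MP_1a6d78_lc.MI
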