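import Pool.Agent.MP_1a6d78_lc.MI.Basic

/-! PROJECT MIS: row SHR. -/

namespace Pool.Agent.MP_1a6d78_lc.MI

open Classical Finset Gp

namespace ShrX

variable {M : Gp} {S : St} {j : ℕ}

/-- The mass of a heavy neighbour. -/
noncomputable def hv (M : Gp) (S : St) (j v u : ℕ) : ℝ :=
  if M.A v u ∧ 4096 ≤ M.mr S j u then xr S j u else 0

theorem hv_nonneg (v u : ℕ) : 0 ≤ hv M S j v u := by
  unfold hv; split_ifs; exacts [(xr_pos _ _).le, le_rfl]

theorem point (q v : ℕ) : M.mr (M.nx S j q) (j + 1) v ≤ M.mr S j v / 4 + 15 / 4 *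
    (M.hm S j v + ∑ u ∈ range M.n, hv M S j v u * ind (¬M.warn S j q u)) := by
  unfold hm
  rw [mr, mr, sum_div, ← sum_add_distrib, mul_sum, ← sum_add_distrib]
  refine sum_le_sum fun u _ => ?_
  have p := xr_pos (S := S) j u
  have y := mul_nonneg (hv_nonneg (M := M) (S := S) (j := j) v u) (ind_nonneg (¬M.warn S j q u))
  by_cases a : M.A v u
  · rw [if_pos a, if_pos a]
    by_cases b : M.act S j u ∧ ¬M.warn S j q u
    · have := xr_nx (M := M) (S := S) (j := j) (q := q) u
      by_cases c : M.mr S j u < 4096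
      · rw [if_pos ⟨a, b.1, c⟩]; linarith
      · rw [if_neg fun k => c k.2.2, ind_pos b.2, hv, if_pos ⟨a, not_lt.1 c⟩]; linarith
    · rw [xr_nx' b]; split_ifs <;> linarith
  · rw [if_neg a, if_neg a, if_neg fun k => a k.1]; linarith

end ShrX

open ShrX in
theorem shrS (h1 : JoinS) : ShrS := by
  intro M S j Ω P H v _ hm
  have K := (h1 M S j Ω P H).mute
  have m0 : 0 < M.mr S j v := by linarith [hm_nonneg (M := M) (S := S) j v]
  have k := markov (Ω := Ω) (a := M.mr S j v / 30)
    (f := fun q => ∑ u ∈ range M.n, hv M S j v u * ind (¬M.warn S j q u))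
    (E := fun q => M.mr S j v / 2 < M.mr (M.nx S j q) (j + 1) v)
    (fun q _ => sum_nonneg fun u _ => mul_nonneg (hv_nonneg v u) (ind_nonneg _))
    (fun q _ e => by linarith [point (M := M) (S := S) (j := j) q v])
  rw [ex_sum] at k
  have e : ∑ u ∈ range M.n, ex Ω (fun q => hv M S j v u * ind (¬M.warn S j q u)) ≤
      M.mr S j v / 4096 := by
    rw [mr, sum_div]
    refine sum_le_sum fun u hu => ?_
    rw [ex_mul]
    have p := xr_pos (S := S) j u
    have r := K u (mem_range.1 hu)
    have r0 := pr_nonneg Ω fun q => ¬M.warn S j q u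
    change hv M S j v u * pr Ω (fun q => ¬M.warn S j q u) ≤ _
    unfold hv
    by_cases c : M.A v u ∧ 4096 ≤ M.mr S j u
    · rw [if_pos c, if_pos c.1]
      have : pr Ω (fun q => ¬M.warn S j q u) ≤ 1 / 4096 := by nlinarith [c.2]
      nlinarith
    · rw [if_neg c, zero_mul]; split_ifs <;> linarith
  have := k.trans e
  nlinarith

end Pool.Agent.MP_1a6d78_lc.MI
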