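import Pool.Agent.MP_1a6d78_lc.MI.Basic

/-! PROJECT MIS: the probabilities of the two thresholds. -/

namespace Pool.Agent.MP_1a6d78_lc.MI

open Classical ED PR SC Finset

namespace ThrX

theorem low {P D : ℕ} (hD : 0 < D) (hP : 0 < P) :
    (1 : ℝ) / D ≤ pr (range P) (fun b => b * D < P) := by
  rw [pr_card, card_range, div_le_div_iff₀ (by exact_mod_cast hD) (by exact_mod_cast hP), one_mul]
  have h : range ((P - 1) / D + 1) ⊆ (range P).filter fun b => b * D < P := fun b hb => by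
    have h1 : b * D ≤ P - 1 := (Nat.le_div_iff_mul_le hD).1 (Nat.le_of_lt_succ (mem_range.1 hb))
    have h2 : b ≤ b * D := Nat.le_mul_of_pos_right _ hD
    exact mem_filter.2 ⟨mem_range.2 (by omega), by omega⟩
  have h3 := card_le_card h
  rw [card_range] at h3
  have h4 := Nat.lt_mul_div_succ (P - 1) hD
  have h5 : P ≤ ((P - 1) / D + 1) * D := by rw [mul_comm]; omega
  have h6 := h5.trans (Nat.mul_le_mul_right D h3)
  convert (Nat.cast_le (α := ℝ)).2 h6 using 1
  push_cast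
  congr

theorem both (h1 : CntS) {P l : ℕ} (h : 4 ^ l ≤ P) :
    (1 : ℝ) / 4 ^ l ≤ pr (range P) (fun b => b * 4 ^ l < P) ∧
      pr (range P) (fun b => b * 4 ^ l < P) ≤ 2 * (1 / 4 ^ l) := by
  have p : 0 < 4 ^ l := by positivity
  refine ⟨by simpa using low p (p.trans_le h), ?_⟩
  have r : ((4 : ℝ) ^ l) ≤ P := by exact_mod_cast h
  have := (h1 P 1 0 l 0 (1 / 4 ^ l) one_pos (by
    rw [Nat.cast_one, one_div, inv_mul_eq_div, le_div_iff₀ (by positivity), one_mul]
    exact r) (by simp)).1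
  simpa using this

end ThrX

theorem thrS (h1 : CntS) : ThrS := by
  intro M S j Ω P H u hu
  have hL : S.L j u ≤ M.T := (H.run.L_le le_rfl u).trans H.hj.le
  have hc : M.c = 4 ^ 8 := by rw [H.ok.c]; norm_num
  have hb : 4 ^ (S.L j u + 8) ≤ P := by
    refine le_trans ?_ H.ind.big
    rw [pow_add, mul_comm, ← hc, mul_assoc, mul_assoc]
    refine Nat.mul_le_mul_left _ ((Nat.pow_le_pow_right (by omega) hL).trans ?_)
    rw [← mul_assoc]
    exact Nat.le_mul_of_pos_left _ (Nat.mul_pos H.ok.Kpos (by positivity))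
  have e1 : pr Ω (fun q => M.sm q 0 (S.L j u) u) =
      pr (range P) (fun b => b * 4 ^ S.L j u < P) := by
    rw [pr_congr (F := fun q => M.hs q u * 4 ^ S.L j u < P) fun q hq => by
      rw [Gp.sm, H.ind.md q hq, pow_zero, one_mul]]
    exact H.ind.one u hu fun b => ind (b * 4 ^ S.L j u < P)
  have e2 : pr Ω (fun q => M.th q (S.L j u) u) =
      pr (range P) (fun b => b * 4 ^ (S.L j u + 8) < P) := by
    rw [pr_congr (F := fun q => M.hs q u * 4 ^ (S.L j u + 8) < P) fun q hq => by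
      rw [Gp.th, H.ind.md q hq, hc, pow_add, mul_comm (4 ^ 8), mul_assoc, mul_comm (4 ^ 8)]]
    exact H.ind.one u hu fun b => ind (b * 4 ^ (S.L j u + 8) < P)
  have e3 : Gp.xr S j u / M.c = 1 / 4 ^ (S.L j u + 8) := by
    rw [Gp.xr, hc, pow_add, div_div, Nat.cast_pow, Nat.cast_ofNat]
  rw [e1, e2, mul_div_assoc, e3]
  exact ⟨ThrX.both h1 ((Nat.pow_le_pow_right (by omega) (by omega)).trans hb), ThrX.both h1 hb⟩

end Pool.Agent.MP_1a6d78_lc.MI
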