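import Pool.Agent.MP_1a6d78_lc.MI.Basic

/-! PROJECT MIS, row VERT: the mean weight of one vertex drops. -/

namespace Pool.Agent.MP_1a6d78_lc.MI

open Classical Finset

namespace VertX

/-- The bound that holds for every seed. -/
theorem always (h3 : PointS) {M : Gp} {S : St} {j : ℕ} (ok : M.Ok) (run : M.Run S j) (q v : ℕ) :
    (wt M.Q (M.E (M.nx S j q) (j + 1) v) : ℝ) ≤
      (1 + 6 / M.Q) * wt M.Q (M.E S j v) + M.tail S j q v := by
  have a : 512 * M.mr (M.nx S j q) (j + 1) v < 2 ^ (M.Z S j v + 2) := by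
    have b := (Gp.Z_ok (M := M) (S := S) j v).1
    have c := Gp.mr_nx (M := M) (S := S) (j := j) (q := q) v
    rw [pow_add]
    linarith
  have b := h3 M S j q v _ ok run a (by omega)
  have c : wt M.Q (M.nL S j q v + 2 * (M.Z S j v + 2)) ≤ wt M.Q (M.E S j v + 5) :=
    wt_mono _ (by have := Gp.nL_le (M := M) (S := S) j q v; unfold Gp.E; omega)
  have d : (wt M.Q (M.E (M.nx S j q) (j + 1) v) : ℝ) ≤
      wt M.Q (M.E S j v + 5) + M.tail S j q v := by
    exact_mod_cast b.trans (Nat.add_le_add_right c _)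
  linarith [wt_five ok.Q20 (M.E S j v)]

/-- The bound on the calm event. -/
theorem calm (h3 : PointS) {M : Gp} {S : St} {j : ℕ} (ok : M.Ok) (run : M.Run S j) (q v : ℕ)
    (h : ∃ z, 512 * M.mr (M.nx S j q) (j + 1) v < 2 ^ z ∧ M.Z S j v ≤ z + 1 ∧
      M.nL S j q v + 2 * z + 1 ≤ M.E S j v) :
    (wt M.Q (M.E (M.nx S j q) (j + 1) v) : ℝ) ≤
      (1 - 1 / (3 * M.Q)) * wt M.Q (M.E S j v) + M.tail S j q v := by
  obtain ⟨z, a, b, c⟩ := h
  have d : (wt M.Q (M.E (M.nx S j q) (j + 1) v) : ℝ) ≤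
      wt M.Q (M.nL S j q v + 2 * z) + M.tail S j q v := by
    exact_mod_cast h3 M S j q v z ok run a b
  have e := wt_down (Q := M.Q) (by have := ok.Q20; omega) (M.nL S j q v + 2 * z)
  have f : (wt M.Q (M.nL S j q v + 2 * z + 1) : ℝ) ≤ wt M.Q (M.E S j v) := by
    exact_mod_cast wt_mono _ c
  have g : (0 : ℝ) ≤ 1 - 1 / (3 * M.Q) := by rw [ok.Q]; norm_num
  linarith [mul_le_mul_of_nonneg_left f g]

end VertX

theorem vertS (h1 : GoldS) (h2 : CalmS) (h3 : PointS) (h4 : TailS) : VertS := by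
  intro M S j Ω P H v hv al
  have t := h4 M S j Ω P H v hv
  have W : (0 : ℝ) ≤ wt M.Q (M.E S j v) := Nat.cast_nonneg _
  have q : (M.Q : ℝ) = 2 ^ 37 := by rw [H.ok.Q]; norm_num
  by_cases g : M.gold S j v
  · have a := h1 M S j Ω P H v hv al g
    have b : ex Ω (fun q => ind (M.alive (M.nx S j q) (j + 1) v) *
        wt M.Q (M.E (M.nx S j q) (j + 1) v)) ≤
        ex Ω fun q => ind (M.alive (M.nx S j q) (j + 1) v) *
          ((1 + 6 / M.Q) * wt M.Q (M.E S j v)) + M.tail S j q v := by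
      refine ex_mono fun p _ => ?_
      have c := VertX.always h3 H.ok H.run p v
      by_cases e : M.alive (M.nx S j p) (j + 1) v
      · rw [ind_pos e, one_mul, one_mul]; exact c
      · rw [ind_neg e, zero_mul, zero_mul, zero_add]; exact Nat.cast_nonneg _
    rw [ex_add, ex_mul'] at b
    have c : ex Ω (fun q => ind (M.alive (M.nx S j q) (j + 1) v)) *
        ((1 + 6 / M.Q) * wt M.Q (M.E S j v)) ≤
        (1 - 1 / 2 ^ 34) * ((1 + 6 / M.Q) * wt M.Q (M.E S j v)) :=
      mul_le_mul_of_nonneg_right a (by positivity)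
    refine b.trans ((add_le_add c t).trans ?_)
    generalize (wt M.Q (M.E S j v) : ℝ) = w at W
    rw [q]
    linarith
  · have a := h2 M S j Ω P H v hv al g
    set B : ℕ → Prop := fun q => ¬∃ z, 512 * M.mr (M.nx S j q) (j + 1) v < 2 ^ z ∧
      M.Z S j v ≤ z + 1 ∧ M.nL S j q v + 2 * z + 1 ≤ M.E S j v with hB
    have b : ex Ω (fun q => ind (M.alive (M.nx S j q) (j + 1) v) *
        wt M.Q (M.E (M.nx S j q) (j + 1) v)) ≤
        ex Ω fun q => ((1 - 1 / (3 * M.Q)) * wt M.Q (M.E S j v) +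
          ind (B q) * ((7 / M.Q) * wt M.Q (M.E S j v))) + M.tail S j q v := by
      refine ex_mono fun p _ => ?_
      refine (mul_le_of_le_one_left (Nat.cast_nonneg _) (ind_le _)).trans ?_
      by_cases e : B p
      · rw [ind_pos e, one_mul]
        refine (VertX.always h3 H.ok H.run p v).trans (add_le_add ?_ le_rfl)
        generalize (wt M.Q (M.E S j v) : ℝ) = w at W
        rw [q]
        linarith
      · rw [ind_neg e, zero_mul, add_zero]
        exact VertX.calm h3 H.ok H.run p v (not_not.1 e)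
    rw [ex_add, ex_add, ex_const H.ind.ne, ex_mul'] at b
    have c : ex Ω (fun q => ind (B q)) * ((7 / M.Q) * wt M.Q (M.E S j v)) ≤
        1 / 64 * ((7 / M.Q) * wt M.Q (M.E S j v)) :=
      mul_le_mul_of_nonneg_right a (by positivity)
    refine b.trans ((add_le_add (add_le_add le_rfl c) t).trans ?_)
    generalize (wt M.Q (M.E S j v) : ℝ) = w at W
    rw [q]
    linarith

end Pool.Agent.MP_1a6d78_lc.MI
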