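import Pool.Agent.MP_1a6d78_lc.MI.Main
import Pool.Agent.MP_1a6d78_lc.MI.Ind
import Pool.Agent.MP_1a6d78_lc.MI.Cnt
import Pool.Agent.MP_1a6d78_lc.MI.Thr
import Pool.Agent.MP_1a6d78_lc.MI.Sec
import Pool.Agent.MP_1a6d78_lc.MI.Coll
import Pool.Agent.MP_1a6d78_lc.MI.Join
import Pool.Agent.MP_1a6d78_lc.MI.Gold
import Pool.Agent.MP_1a6d78_lc.MI.Shr
import Pool.Agent.MP_1a6d78_lc.MI.Calm
import Pool.Agent.MP_1a6d78_lc.MI.Point
import Pool.Agent.MP_1a6d78_lc.MI.Tail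
import Pool.Agent.MP_1a6d78_lc.MI.Vert
import Pool.Agent.MP_1a6d78_lc.MI.Pot
import Pool.Agent.MP_1a6d78_lc.MI.Safe
import Pool.Agent.MP_1a6d78_lc.MI.PLoc
import Pool.Agent.MP_1a6d78_lc.MI.PArr
import Pool.Agent.MP_1a6d78_lc.MI.PAg
import Pool.Agent.MP_1a6d78_lc.MI.PStep
import Pool.Agent.MP_1a6d78_lc.MI.Phi
import Pool.Agent.MP_1a6d78_lc.MI.CS
import Pool.Agent.MP_1a6d78_lc.MI.CT
import Pool.Agent.MP_1a6d78_lc.MI.Code

/-! PROJECT MIS: all rows. -/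

namespace Pool.Agent.MP_1a6d78_lc.MI

theorem potAll : PotS :=
  have t := thrS cntS
  have c := collS cntS
  have j := joinS t secS c
  potS (vertS (goldS t secS j) (calmS (shrS j) j) pointS (tailS c))

theorem main : MainS :=
  mainS indS potAll safeS (stepS locS arrS agS) phiS cbS csS ctS codeS

end Pool.Agent.MP_1a6d78_lc.MI
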