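import Pool.Agent.MP_1a6d78_lc.MI.Spec

/-! PROJECT MIS: closure rules for the machine rows. -/

namespace Pool.Agent.MP_1a6d78_lc.MI

open Classical ED PR SC

namespace Cg

variable {κ : List Bool → ℕ} {π : List Bool → Gp} (H : Cg κ π)
include H

section
variable {a b c d : EC}

theorem md (ha : Cn κ a) : Cn κ fun x ρ => (π x).md (a x ρ) := K.mod ha H.R

theorem hs (ha : Cn κ a) (hb : Cn κ b) : Cn κ fun x ρ => (π x).hs (a x ρ) (b x ρ) :=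
  K.mod (K.add (K.add (K.mul (K.mod (K.div ha H.R) H.R) (K.pow 2 hb))
    (K.mul (K.mod (K.div ha (K.pow 2 H.R)) H.R) hb)) (K.div ha (K.pow 3 H.R))) (K.mod ha H.R)

theorem cp (e : ℕ) (ha : Cn κ a) : Cn κ fun x ρ => (π x).cp e (a x ρ) :=
  K.it (f := fun _ _ y => y * e) H.β (K.mul (K.v 0) (K.c e)) ha (K.c 1)

theorem slP (ha : Cn κ a) : Cn κ fun x ρ => (π x).slP (a x ρ) := K.mul H.K (H.cp 512 ha)

theorem smP (ha : Cn κ a) (hb : Cn κ b) (hc : Cn κ c) (hd : Cn κ d) :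
    PR.Cp κ fun x ρ => (π x).smP (a x ρ) (b x ρ) (c x ρ) (d x ρ) :=
  K.lt (K.mul (H.hs ha hd) (H.cp 4 hc)) (K.mul (H.cp 4 hb) (H.md ha))

theorem b0 {e f : EC} (ha : Cn κ a) (hb : Cn κ b) (hc : Cn κ c) (hd : Cn κ d) (he : Cn κ e)
    (hf : Cn κ f) :
    PR.Cp κ fun x ρ => (π x).b0 (a x ρ) (b x ρ) (c x ρ) (d x ρ) (e x ρ) (f x ρ) :=
  K.and (H.A ha hf) (K.and (H.smP hb hc (K.c 0) hf) (K.eq (K.mod (H.hs hb hf) (H.slP hd)) he))

end

variable {m β : List Bool → ℕ} {a b c d e f : EN}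

theorem qn : Nq κ m β fun x _ _ => (π x).n := Q.lift H.n

theorem qK : Nq κ m β fun x _ _ => (π x).K := Q.lift H.K

theorem qc : Nq κ m β fun x _ _ => (π x).c := Q.lift H.c

theorem qQ : Nq κ m β fun x _ _ => (π x).Q := Q.lift H.Q

theorem qT : Nq κ m β fun x _ _ => (π x).T := Q.lift H.T

theorem qβ : Nq κ m β fun x _ _ => (π x).β := Q.lift H.β

theorem qA (ha : Nq κ m β a) (hb : Nq κ m β b) :
    Pq κ m β fun x g ρ => (π x).A (a x g ρ) (b x g ρ) :=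
  Q.op2 (fun x u w => if (π x).A u w then 1 else 0) (H.A (K.v 0) (K.v 1)) ha hb

theorem qmd (ha : Nq κ m β a) : Nq κ m β fun x g ρ => (π x).md (a x g ρ) :=
  Q.op1 (fun x => (π x).md) (H.md (K.v 0)) ha

theorem qhs (ha : Nq κ m β a) (hb : Nq κ m β b) :
    Nq κ m β fun x g ρ => (π x).hs (a x g ρ) (b x g ρ) :=
  Q.op2 (fun x => (π x).hs) (H.hs (K.v 0) (K.v 1)) ha hb

theorem qcp (i : ℕ) (ha : Nq κ m β a) : Nq κ m β fun x g ρ => (π x).cp i (a x g ρ) :=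
  Q.op1 (fun x => (π x).cp i) (H.cp i (K.v 0)) ha

theorem qslP (ha : Nq κ m β a) : Nq κ m β fun x g ρ => (π x).slP (a x g ρ) :=
  Q.op1 (fun x => (π x).slP) (H.slP (K.v 0)) ha

theorem qsmP (ha : Nq κ m β a) (hb : Nq κ m β b) (hc : Nq κ m β c) (hd : Nq κ m β d) :
    Pq κ m β fun x g ρ => (π x).smP (a x g ρ) (b x g ρ) (c x g ρ) (d x g ρ) :=
  Q.lt (Q.mul (H.qhs ha hd) (H.qcp 4 hc)) (Q.mul (H.qcp 4 hb) (H.qmd ha))

/-- The weight function of `tPhi`. -/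
theorem qwt (ha : Nq κ m β a) : Nq κ m β fun x g ρ =>
    it (π x).β (fun y => y + y / (π x).Q) (a x g ρ) (2 * (π x).Q) :=
  Q.op1 (fun x t => it (π x).β (fun y => y + y / (π x).Q) t (2 * (π x).Q))
    (K.it (f := fun x _ y => y + y / (π x).Q) H.β (K.add (K.v 0) (K.div (K.v 0) H.Q)) (K.v 0)
      (K.mul (K.c 2) H.Q)) ha

omit H in
theorem consL {l : List Bool → Orc → Env → List ℕ} (k : ℕ) (hk : ∀ x, k + 1 ≤ κ x)
    (ha : Nq κ m β a) (hl : Lq κ m β l) (e : ∀ x g ρ, (l x g ρ).length = k) :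
    Lq κ m β fun x g ρ => a x g ρ :: l x g ρ :=
  Q.cgL (M.bind _ _ ha (M.bind _ _ (Q.wL hl) (M.lift _ ((kitOne κ).tab
    (fun _ ρ i => if i = 0 then hd (ρ 1) else gt (ρ 0) (i - 1)) hk (K.c (k + 1))
    (K.ite (K.eq (K.v 0) (K.c 0)) (K.v 2) (K.gt (K.vL 1) (K.sub (K.v 0) (K.c 1))))))))
    fun x g ρ => by
      refine List.ext_getElem (by simp [tab, e]) fun i h1 h2 => ?_
      cases i with
      | zero => simp [tab, cons, hd]
      | succ i =>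
        have : i < (l x g ρ).length := by simpa using h2
        have e' : tl (cons [a x g ρ] ρ) = ρ := rfl
        simp [tab, cons, gt, e', this]

end Cg

namespace Cg

variable {κ m : List Bool → ℕ} {π : List Bool → Gp} (H : Cg κ π) {a b c d e f : EN}
include H

/-- The oracle calls. -/
theorem ask (ha : Nq κ m (fun x => (π x).β) a) (hb : Nq κ m (fun x => (π x).β) b)
    (hc : Nq κ m (fun x => (π x).β) c) (hd : Nq κ m (fun x => (π x).β) d)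
    (he : Nq κ m (fun x => (π x).β) e) (hf : Nq κ m (fun x => (π x).β) f) :
    Nq κ m (fun x => (π x).β) fun x g ρ =>
      (π x).ask g (a x g ρ) (b x g ρ) (c x g ρ) (d x g ρ) (e x g ρ) (f x g ρ) := by
  have k : ∀ i ≤ 5, ∀ x, i + 1 ≤ κ x := fun i hi x => by have := H.k6 x; omega
  refine Q.call (consL 5 (k 5 (by omega)) (Q.min ha H.qβ) (consL 4 (k 4 (by omega)) (Q.min hb H.qβ)
    (consL 3 (k 3 (by omega)) (Q.min hc H.qβ) (consL 2 (k 2 (by omega)) (Q.min hd H.qβ)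
      (consL 1 (k 1 (by omega)) (Q.min he H.qβ) (Q.min hf H.qβ) fun _ _ _ => rfl) fun _ _ _ => rfl)
        fun _ _ _ => rfl) fun _ _ _ => rfl) fun _ _ _ => rfl) fun x g ρ y hy => ?_
  simp only [List.mem_cons, List.not_mem_nil, or_false] at hy
  rcases hy with h | h | h | h | h | h <;> exact h ▸ min_le_right _ _

theorem oS (ha : Nq κ m (fun x => (π x).β) a) :
    Nq κ m (fun x => (π x).β) fun x g ρ => (π x).oS g (a x g ρ) :=
  H.ask (Q.c 0) ha (Q.c 0) (Q.c 0) (Q.c 0) (Q.c 0)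

theorem oL (ha : Nq κ m (fun x => (π x).β) a) (hb : Nq κ m (fun x => (π x).β) b) :
    Nq κ m (fun x => (π x).β) fun x g ρ => (π x).oL g (a x g ρ) (b x g ρ) :=
  H.ask (Q.c 1) ha hb (Q.c 0) (Q.c 0) (Q.c 0)

theorem oJ (ha : Nq κ m (fun x => (π x).β) a) (hb : Nq κ m (fun x => (π x).β) b) :
    Nq κ m (fun x => (π x).β) fun x g ρ => (π x).oJ g (a x g ρ) (b x g ρ) :=
  H.ask (Q.c 2) ha hb (Q.c 0) (Q.c 0) (Q.c 0)

theorem oA (ha : Nq κ m (fun x => (π x).β) a) (hb : Nq κ m (fun x => (π x).β) b)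
    (hc : Nq κ m (fun x => (π x).β) c) (hd : Nq κ m (fun x => (π x).β) d)
    (he : Nq κ m (fun x => (π x).β) e) : Nq κ m (fun x => (π x).β) fun x g ρ =>
      (π x).oA g (a x g ρ) (b x g ρ) (c x g ρ) (d x g ρ) (e x g ρ) :=
  H.ask (Q.c 3) ha hb hc hd he

theorem oG (ha : Nq κ m (fun x => (π x).β) a) (hb : Nq κ m (fun x => (π x).β) b)
    (hc : Nq κ m (fun x => (π x).β) c) (hd : Nq κ m (fun x => (π x).β) d) :
    Nq κ m (fun x => (π x).β) fun x g ρ => (π x).oG g (a x g ρ) (b x g ρ) (c x g ρ) (d x g ρ) :=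
  H.ask (Q.c 4) ha hb hc hd (Q.c 0)

theorem oC (ha : Nq κ m (fun x => (π x).β) a) (hb : Nq κ m (fun x => (π x).β) b) :
    Nq κ m (fun x => (π x).β) fun x g ρ => (π x).oC g (a x g ρ) (b x g ρ) :=
  H.ask (Q.c 5) ha hb (Q.c 0) (Q.c 0) (Q.c 0)

theorem bA {a b c d e : EC} (ha : Cn κ a) (hb : Cn κ b) (hc : Cn κ c) (hd' : Cn κ d) (he : Cn κ e) :
    Cn κ fun x ρ => (π x).bA (a x ρ) (b x ρ) (c x ρ) (d x ρ) (e x ρ) := by
  have h : P1 κ fun x ρ => (π x).b0 (a x ρ) (b x ρ) (c x ρ) (d x ρ) (e x ρ) :=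
    H.b0 (K.w ha) (K.w hb) (K.w hc) (K.w hd') (K.w he) (K.v 0)
  exact K.ite (K.ex (P := fun x ρ u => ∃ w < (π x).n, u ≠ w ∧
      (π x).b0 (a x ρ) (b x ρ) (c x ρ) (d x ρ) (e x ρ) u ∧
        (π x).b0 (a x ρ) (b x ρ) (c x ρ) (d x ρ) (e x ρ) w) H.n
      (K.ex (P := fun x ρ w => hd (ρ 0) ≠ w ∧
        (π x).b0 (a x (tl ρ)) (b x (tl ρ)) (c x (tl ρ)) (d x (tl ρ)) (e x (tl ρ)) (hd (ρ 0)) ∧
          (π x).b0 (a x (tl ρ)) (b x (tl ρ)) (c x (tl ρ)) (d x (tl ρ)) (e x (tl ρ)) w) H.n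
        (K.and (K.ne (K.v 1) (K.v 0)) (K.and (K.wP h) (K.wP1 h))))) (K.c 1)
    (K.ite (K.ex H.n h) (K.add (K.lst H.n h) (K.c 2)) (K.c 0))

end Cg

theorem cbS : CbS := fun _ _ H =>
  K.ite (K.eq (K.gt (K.vL 0) (K.c 0)) (K.c 3))
    (H.bA (K.gt (K.vL 0) (K.c 1)) (K.gt (K.vL 0) (K.c 2)) (K.gt (K.vL 0) (K.c 3))
      (K.gt (K.vL 0) (K.c 4)) (K.gt (K.vL 0) (K.c 5))) (K.c 0)

end Pool.Agent.MP_1a6d78_lc.MI
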