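import Pool.Agent.MP_1a6d78_lc.MI.Basic
import Pool.Agent.MP_1a6d78_lc.SC.ElimF

/-! PROJECT MIS: the assembly. -/

namespace Pool.Agent.MP_1a6d78_lc.MI

open Classical ED PR SC

namespace MainX

/-- The vertices accepted by the last oracle. -/
def acc (M : Gp) (v : ℕ) : Prop :=
  M.tAns v M.T (El.chain 6 M.β (M.R ^ 4) M.base M.step M.tPhi M.T) ≠ 0

theorem sound (h1 : IndS) (h2 : PotS) (h3 : SafeS) (h4 : StepS) (h5 : PhiS) (M : Gp) (ok : M.Ok)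
    (hR : 2 * (M.c * M.K * 512 ^ (2 * M.T) * 4 ^ M.T + M.n + 3) < M.R) (hW : M.R ^ 4 ≤ M.β)
    (L : ℕ) (hT : M.T = 10 * M.Q * L) (hL : (M.n + 2) ^ 64 < 2 ^ L) :
    (∀ u v, M.A u v → acc M u → ¬acc M v) ∧ ∀ v < M.n, acc M v ∨ ∃ u, M.A v u ∧ acc M u := by
  obtain ⟨Ω, P, hI⟩ := h1 M hR
  have r0 := h4.1 M ok
  obtain ⟨⟨S, run, rep⟩, k⟩ := El.chain_good (r := 6) (β := M.β) (Q := M.R ^ 4) (base := M.base)
    (step := M.step) (Φ := M.tPhi) (Good := M.Good) (K := 10 * M.Q)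
    (by have := ok.Q20; omega) hT ⟨s0, Gp.run_zero M, r0⟩
    (by
      rw [(h5 M s0 0 _ ok (Gp.run_zero M) r0 (Nat.zero_le _)).1]
      exact (h3 M s0 0 ok (Gp.run_zero M)).2.2.trans_lt hL)
    (fun j hj g q hq ⟨S, run, rep⟩ =>
      ⟨_, Gp.nx_run run q, h4.2 M S j g q ⟨ok, run, rep, hj, hq.trans hW⟩⟩)
    fun j hj g ⟨S, run, rep⟩ => by
      obtain ⟨q, hq, k⟩ := h2 M S j Ω P ⟨ok, run, hj, hI⟩
      refine ⟨q, hq, ?_⟩
      rw [(h5 M S j g ok run rep hj.le).1, (h5 M _ _ _ ok (Gp.nx_run run q)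
        (h4.2 M S j g q ⟨ok, run, rep, hj, hq.le.trans hW⟩) hj).1]
      exact k
  obtain ⟨e, a⟩ := h5 M S M.T _ ok run rep le_rfl
  obtain ⟨s1, s2, -⟩ := h3 M S M.T ok run
  refine ⟨fun u v h hu hv => s1 u v h ((a u (ok.lt' h)).1 hu) ((a v (ok.lt _ _ h)).1 hv),
    fun v hv => ?_⟩
  rcases s2 (e ▸ k) v hv with h | ⟨u, h, h'⟩
  exacts [Or.inl ((a v hv).2 h), Or.inr ⟨u, h, (a u (ok.lt _ _ h)).2 h'⟩]

/-- The parameters read from the input. -/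
def par (J b : ℕ) (x : List Bool) : Gp :=
  ⟨num x 0, adj x, 2 ^ 32, 2 ^ 16, 2 ^ 37, (x.length + 2) ^ b, J * lg x, (x.length + 2) ^ (4 * b)⟩

theorem key (J a c d e : ℕ) (x : List Bool) (h : a + 2 * J * c + d ≤ e) :
    2 ^ (a + c * (J * lg x)) * (x.length + 2) ^ d ≤ (x.length + 2) ^ e := by
  refine le_trans ?_ (Nat.pow_le_pow_right (by omega) h)
  rw [pow_add, pow_add, pow_add, show c * (J * lg x) = lg x * (J * c) by ring, pow_mul 2,
    mul_assoc 2, pow_mul _ 2]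
  exact Nat.mul_le_mul_right _ (Nat.mul_le_mul (Nat.pow_le_pow_left (by omega) _)
    (Nat.pow_le_pow_left (two_lg x) _))

theorem par_ok {J b : ℕ} (hb : 40 * J + 60 ≤ b) (x : List Bool) : (par J b x).Ok := by
  have hn : num x 0 + 2 ≤ x.length + 2 := Nat.add_le_add_right (RowKk.num_le x 0) 2
  refine ⟨fun u v h => ⟨h.1.symm, h.2.2.1, h.2.1, h.2.2.2.symm⟩, fun u h => h.1 rfl,
    fun u v h => h.2.2.1, rfl, rfl, rfl, ?_, ?_, ?_⟩
  · refine le_trans (le_of_eq ?_) (key J 41 18 0 _ x (by omega))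
    change 2 ^ 32 * (2 ^ 9) ^ (2 * (J * lg x) + 1) = _
    rw [← pow_mul, ← pow_add, pow_zero, mul_one]
    congr 1; ring
  · refine le_trans ?_ (key J 10 0 1 _ x (by omega))
    rw [zero_mul, add_zero, pow_one]
    exact Nat.mul_le_mul_left _ hn
  · refine le_trans ?_ (key J 62 5 2 _ x (by omega))
    change 2 ^ 37 * 2 ^ (5 * (J * lg x) + 25) * (num x 0 + 2) ^ 2 ≤ _
    rw [← pow_add]
    exact Nat.mul_le_mul (le_of_eq (by congr 1; ring)) (Nat.pow_le_pow_left hn 2)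

theorem par_R {J b : ℕ} (hb : 40 * J + 60 ≤ b) (x : List Bool) (M : Gp) (e : M = par J b x) :
    2 * (M.c * M.K * 512 ^ (2 * M.T) * 4 ^ M.T + M.n + 3) < M.R := by
  subst e
  have hn := RowKk.num_le x 0
  refine lt_of_lt_of_le ?_ (key J 51 20 1 _ x (by omega))
  change 2 * (2 ^ 16 * 2 ^ 32 * (2 ^ 9) ^ (2 * (J * lg x)) * (2 ^ 2) ^ (J * lg x) + num x 0 + 3) < _
  rw [← pow_mul, ← pow_mul, ← pow_add, ← pow_add, ← pow_add, pow_one,
    show 51 + 20 * (J * lg x) = 16 + 32 + 9 * (2 * (J * lg x)) + 2 * (J * lg x) + 3 by ring, pow_add _ _ 3]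
  have : 0 < 2 ^ (16 + 32 + 9 * (2 * (J * lg x)) + 2 * (J * lg x)) := Nat.two_pow_pos _
  nlinarith

theorem par_cg (h : CodeS) (J b : ℕ) {κ : List Bool → ℕ} (hκ : ∀ x, 6 ≤ κ x) : Cg κ (par J b) :=
  ⟨hκ, AlgD.numC (kitOne _) (kitTwo _) (K.c 0), K.c _, K.c _, K.c _,
    K.pow b (K.add (kitOne κ).len (K.c 2)), K.mul (K.c J) (lgC κ),
    K.pow (4 * b) (K.add (kitOne κ).len (K.c 2)), fun ha hb => h.1 κ ha hb⟩

theorem par_code (h : CodeS) (J b : ℕ) {n : ℕ} (G : SimpleGraph (Fin n)) (v w : Fin n) :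
    par J b (code G v) = par J b (code G w) := by
  obtain ⟨a1, -, a2, a3⟩ := h.2 n G v
  obtain ⟨b1, -, b2, b3⟩ := h.2 n G w
  have e : adj (code G v) = adj (code G w) := by funext s t; rw [a3, b3]
  unfold par lg
  rw [a1, b1, a2, b2, e]

end MainX

open MainX in
theorem mainS (h1 : IndS) (h2 : PotS) (h3 : SafeS) (h4 : StepS) (h5 : PhiS) (h6 : CbS) (h7 : CsS)
    (h8 : CtS) (h9 : CodeS) : MainS := by
  obtain ⟨J, hJ⟩ : ∃ J, J = 10 * 2 ^ 37 * (2 * 64 + 1) := ⟨_, rfl⟩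
  obtain ⟨b, hb⟩ : ∃ b, 40 * J + 60 ≤ b := ⟨_, le_rfl⟩
  have hW : ∀ x, (par J b x).R ^ 4 ≤ (par J b x).β := fun x => le_of_eq (by
    change ((x.length + 2) ^ b) ^ 4 = (x.length + 2) ^ (4 * b)
    rw [← pow_mul, mul_comm])
  obtain ⟨M, c, hM⟩ := elimF 6 (2 ^ 32) (4 * b) J (by omega)
    ((Nat.lt_two_pow_self).le.trans (Nat.pow_le_pow_right (by omega) (by omega)))
    (fun x => (par J b x).β) rfl (fun x => (par J b x).base) (fun x => (par J b x).step)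
    (fun x => (par J b x).tPhi) (fun x => (par J b x).tAns (num x 1)) (fun x => (par J b x).R ^ 4)
    (fun κ hκ => by
      have H := par_cg h9 J b hκ
      have t := h8 κ _ H (fun x => by have := (par_ok hb x).nb; omega)
        fun x => by have := (par_ok hb x).Tb; omega
      exact ⟨h6 κ _ H, h7 κ _ _ H (by norm_num) fun _ => le_rfl, t.1, t.2, K.pow 4 H.R⟩) hW
  refine ⟨M, c, fun x => ⟨by rw [(hM x).1]; rfl, (hM x).2⟩, fun n G => ?_⟩
  have ea : ∀ v w : Fin n, M.out (M.run (code G w) (((code G w).length + 2) ^ c)).q = some true ↔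
      acc (par J b (code G v)) w := fun v w => by
    rw [(hM _).1, par_code h9 J b G v w, (h9.2 n G w).2.1, Option.some_inj, bne_iff_ne]
    rfl
  have S := fun v : Fin n => sound h1 h2 h3 h4 h5 _ (par_ok hb (code G v)) (par_R hb _ _ rfl) (hW _)
    ((2 * 64 + 1) * lg (code G v)) (by
      change J * lg _ = 10 * 2 ^ 37 * _
      rw [hJ, mul_assoc])
    ((Nat.pow_le_pow_left (Nat.add_le_add_right (RowKk.num_le _ 0) 2) _).trans_lt (El.pow_lt_lg _ 64))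
  refine ⟨fun u hu v hv _ h => (S u).1 u v (((h9.2 n G u).2.2.2 u v).2 ⟨u.2, v.2, h⟩)
    ((ea u u).1 hu) ((ea u v).1 hv), fun t ht hs v hv => ?_⟩
  rcases (S v).2 v ((h9.2 n G v).1.symm ▸ v.2 : (v : ℕ) < num (code G v) 0) with h | ⟨u, h, h'⟩
  · exact (ea v v).2 h
  · obtain ⟨_, hu, k⟩ := ((h9.2 n G v).2.2.2 v u).1 h
    exact absurd k (ht hv (hs ((ea v ⟨u, hu⟩).2 h')) k.ne)

end Pool.Agent.MP_1a6d78_lc.MI
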