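import Pool.Agent.MP_1a6d78_lc.MI.Basic
import Mathlib.Analysis.SpecificLimits.Basic

/-! PROJECT MIS, row TAIL: the mean of the tail. -/

namespace Pool.Agent.MP_1a6d78_lc.MI

open Classical ED PR SC Finset

theorem tailS (h1 : CollS) : TailS := by
  intro M S j Ω P h v hv
  have w0 : (0 : ℝ) ≤ wt M.Q (M.E S j v) := Nat.cast_nonneg _
  have key : ∀ e ∈ range (M.T + 1), ex Ω (fun q => ((if M.Z S j v ≤ 2 * e + 2 ∧ M.ovf S j q e v
      then wt M.Q (S.L j v + 4 * e + 5) else 0 : ℕ) : ℝ)) ≤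
      384 / 2 ^ 50 * wt M.Q (M.E S j v) * (1 / 2) ^ e := by
    intro e he
    by_cases hz : M.Z S j v ≤ 2 * e + 2
    · have a1 := h1 M S j Ω P h v hv e (Nat.le_of_lt_succ (mem_range.1 he)) fun _ => True
      rw [pr_true h.ind.ne, one_mul, h.ok.K] at a1
      obtain ⟨d, hd⟩ : ∃ d, 4 * e + 5 = 2 * M.Z S j v + d := Nat.exists_eq_add_of_le (by omega)
      have a2 : (wt M.Q (S.L j v + 4 * e + 5) : ℝ) ≤ wt M.Q (M.E S j v) * 2 ^ d := by
        rw [add_assoc, hd, ← add_assoc]; exact_mod_cast wt_add M.Q (M.E S j v) d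
      have a3 : (512 * M.mr S j v) ^ 2 ≤ (2 ^ M.Z S j v) ^ 2 := pow_le_pow_left₀
        (mul_nonneg (by norm_num) (Gp.mr_nonneg j v)) (Gp.Z_ok j v).1.le 2
      have a4 : ((2 : ℝ) ^ M.Z S j v) ^ 2 * 2 ^ d = 32 * 16 ^ e := by
        rw [← pow_mul, ← pow_add, mul_comm _ 2, ← hd, pow_add, pow_mul]; norm_num [mul_comm]
      have a5 : (16 : ℝ) ^ e ≤ (1 / 2) ^ e * 512 ^ e := by
        rw [← mul_pow]; exact pow_le_pow_left₀ (by norm_num) (by norm_num) e
      have a6 := mul_le_mul_of_nonneg_right a3 (show (0 : ℝ) ≤ 2 ^ d by positivity)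
      rw [ex_congr (g := fun q => ind (True ∧ M.ovf S j q e v) * wt M.Q (S.L j v + 4 * e + 5))
        fun q _ => by by_cases u : M.ovf S j q e v <;> simp [ind, u, hz], ex_mul']
      refine (mul_le_mul a1 a2 (Nat.cast_nonneg _) (by positivity)).trans ?_
      rw [mul_left_comm, mul_comm (384 / 2 ^ 50 : ℝ), mul_assoc]
      refine mul_le_mul_of_nonneg_left ?_ w0
      rw [div_mul_eq_mul_div, div_le_iff₀ (by positivity)]
      push_cast
      nlinarith
    · rw [ex_congr (g := fun _ => 0) fun q _ => by simp [hz], ex_const h.ind.ne]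
      positivity
  simp only [Gp.tail, Nat.cast_sum]
  rw [ex_sum]
  refine (sum_le_sum key).trans ?_
  rw [← mul_sum]
  refine (mul_le_mul_of_nonneg_left (sum_geometric_two_le _) (by positivity)).trans ?_
  generalize (wt M.Q (M.E S j v) : ℝ) = w at w0
  rw [h.ok.Q]
  push_cast
  linarith

end Pool.Agent.MP_1a6d78_lc.MI
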